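import Pool.Agent.L0h87.Q4.CN

/-!
# The total cost of a row, second form
-/

set_option autoImplicit false

namespace Pool.Agent.L0h87.Q4

open Finset Real

theorem bk_sq_sum (q k : ℕ) : ∑ j ∈ range (k + 1), bk q j ^ 2 ≤ 4 * bk q k ^ 2 := by
  induction k with
  | zero =>
    rw [sum_range_one]
    have := sq_nonneg (bk q 0)
    linarith
  | succ k ih =>
    rw [sum_range_succ]
    have h1 := bk_step q k
    have h2 := bk_nonneg q k
    have h3 : (7 / 6 * bk q k) ^ 2 ≤ bk q (k + 1) ^ 2 := pow_le_pow_left₀ (by positivity) h1 2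
    nlinarith

theorem bk_light2 {q : ℕ} (hq : 1 ≤ q) (j : ℕ) :
    bk q j * (1 / 2) ^ (q * 2 ^ j) ≤ 2 * (1 / 2) ^ j := by
  set x : ℕ := q * 2 ^ j with hx
  have hx1 : 2 ^ j ≤ x := by rw [hx]; exact Nat.le_mul_of_pos_left _ hq
  have hx0 : 1 ≤ x := le_trans Nat.one_le_two_pow hx1
  have hxR : (1 : ℝ) ≤ x := by exact_mod_cast hx0
  have h1 : bk q j ≤ x := by
    unfold bk
    have e1 : ((q : ℝ) * 2 ^ j) = (x : ℝ) := by rw [hx]; push_cast; ring
    rw [e1]
    have h3 : ((j : ℝ) + 1) ≤ x := by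
      have : j + 1 ≤ 2 ^ j := Nat.lt_two_pow_self
      exact_mod_cast this.trans hx1
    calc (x : ℝ) ^ (1 / 4 : ℝ) * ((j : ℝ) + 1) ^ (1 / 2 : ℝ)
        ≤ (x : ℝ) ^ (1 / 4 : ℝ) * (x : ℝ) ^ (1 / 2 : ℝ) :=
          mul_le_mul_of_nonneg_left (rpow_le_rpow (by positivity) h3 (by norm_num)) (by positivity)
      _ = (x : ℝ) ^ (3 / 4 : ℝ) := by
          rw [← rpow_add (by positivity)]
          norm_num
      _ ≤ (x : ℝ) ^ (1 : ℝ) := rpow_le_rpow_of_exponent_le hxR (by norm_num)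
      _ = x := rpow_one _
  have h2 : ∀ n : ℕ, n ^ 2 ≤ 2 * 2 ^ n := by
    intro n
    induction n with
    | zero => simp
    | succ n ih =>
      rcases Nat.lt_or_ge n 3 with h | h
      · interval_cases n <;> norm_num
      · rw [pow_succ 2 n]
        nlinarith
  have h3 : (x : ℝ) ^ 2 ≤ 2 * 2 ^ x := by exact_mod_cast h2 x
  have h4 : (2 : ℝ) ^ j ≤ x := by exact_mod_cast hx1
  have h5 : (0 : ℝ) < 2 ^ j := by positivity
  calc bk q j * (1 / 2) ^ x ≤ x * (1 / 2) ^ x := mul_le_mul_of_nonneg_right h1 (by positivity)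
    _ ≤ 2 / x := by
        rw [le_div_iff₀ (by linarith), one_div, inv_pow]
        have h6 : (0 : ℝ) < 2 ^ x := by positivity
        calc (x : ℝ) * (2 ^ x)⁻¹ * x = x ^ 2 * (2 ^ x)⁻¹ := by ring
          _ ≤ 2 * 2 ^ x * (2 ^ x)⁻¹ := mul_le_mul_of_nonneg_right h3 (by positivity)
          _ = 2 := by field_simp
    _ ≤ 2 / 2 ^ j := div_le_div_of_nonneg_left (by norm_num) h5 h4
    _ = 2 * (1 / 2) ^ j := by rw [one_div, inv_pow]; ring

/-- CN2: the total cost of a row which is never heavy at a level above `k`. -/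
theorem stCN2 (q : ℕ) (hq : 1 ≤ q) (c n k : ℕ) (D : Finset ℕ)
    (hD : ∀ s ∈ D, Beg c s → lv c s ≤ k) (u g : ℝ) (hu : 0 ≤ u) (hg : 0 ≤ g) :
    ∑ s ∈ (range n).filter (fun s => Beg c s),
      (if s ∈ D then 80 * u + 753 * rh q (lv c s) ^ 2 * g
        else 260 * u * rh q (lv c s) * (1 / 2) ^ (q * 2 ^ lv c s)) ≤
      10000000 * (((k : ℝ) + 1) * u + bk q k ^ 2 * g) := by
  set H : ℕ → ℝ := fun j => (if j ≤ k then 80 * u + 192768 * bk q j ^ 2 * g else 0) +
    4160 * u * (2 * (1 / 2) ^ j) with hH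
  have hb : ∀ j, 0 ≤ bk q j := bk_nonneg q
  have hH0 : ∀ j, 0 ≤ H j := by
    intro j
    have := hb j
    simp only [hH]
    split_ifs <;> positivity
  have h1 : ∑ s ∈ (range n).filter (fun s => Beg c s),
      (if s ∈ D then 80 * u + 753 * rh q (lv c s) ^ 2 * g
        else 260 * u * rh q (lv c s) * (1 / 2) ^ (q * 2 ^ lv c s)) ≤
      ∑ s ∈ (range n).filter (fun s => Beg c s), H (lv c s) := by
    refine sum_le_sum fun s hs => ?_
    have hB := (mem_filter.1 hs).2
    have h2 := rh_le q (lv c s)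
    have h3 := hb (lv c s)
    have hr : 0 ≤ rh q (lv c s) := by
      unfold rh; have := Real.log_natCast_nonneg (Mq q); positivity
    have h4 : 0 ≤ (1 / 2 : ℝ) ^ (q * 2 ^ lv c s) := by positivity
    have h5 := bk_light2 hq (lv c s)
    have h6 : rh q (lv c s) ^ 2 ≤ 256 * bk q (lv c s) ^ 2 := by
      calc rh q (lv c s) ^ 2 ≤ (16 * bk q (lv c s)) ^ 2 := pow_le_pow_left₀ hr h2 2
        _ = _ := by ring
    simp only [hH]
    have h10 : 0 ≤ 4160 * u * (2 * (1 / 2 : ℝ) ^ lv c s) := by positivity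
    have h11 : 260 * u * rh q (lv c s) * (1 / 2) ^ (q * 2 ^ lv c s) ≤
        4160 * u * (2 * (1 / 2 : ℝ) ^ lv c s) := by
      calc 260 * u * rh q (lv c s) * (1 / 2) ^ (q * 2 ^ lv c s)
          ≤ 260 * u * (16 * bk q (lv c s)) * (1 / 2) ^ (q * 2 ^ lv c s) := by
            apply mul_le_mul_of_nonneg_right _ h4
            exact mul_le_mul_of_nonneg_left h2 (by positivity)
        _ = 4160 * u * (bk q (lv c s) * (1 / 2) ^ (q * 2 ^ lv c s)) := by ring
        _ ≤ _ := mul_le_mul_of_nonneg_left h5 (by positivity)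
    split_ifs with h7 h8 h9
    · have h12 := mul_le_mul_of_nonneg_right h6 hg
      linarith
    · exact absurd (hD s h7 hB) h8
    · have : 0 ≤ 80 * u + 192768 * bk q (lv c s) ^ 2 * g := by positivity
      linarith
    · linarith
  have h2 : ∑ s ∈ (range n).filter (fun s => Beg c s), H (lv c s) ≤ ∑ j ∈ range n, 4 * H j := by
    rw [← sum_fiberwise_of_maps_to (s := (range n).filter (fun s => Beg c s)) (t := range n) (g := lv c)
      (fun s hs => by
        rw [mem_filter, mem_range] at hs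
        rw [mem_range]
        exact lt_of_le_of_lt (Nat.findGreatest_le s) hs.1)]
    refine sum_le_sum fun j _ => ?_
    have h3 : ∀ s ∈ ((range n).filter (fun s => Beg c s)).filter (fun s => lv c s = j), H (lv c s) = H j :=
      fun s hs => by rw [(mem_filter.1 hs).2]
    rw [sum_congr rfl h3, sum_const, nsmul_eq_mul, filter_filter]
    refine mul_le_mul_of_nonneg_right ?_ (hH0 j)
    exact_mod_cast beg_card c j n
  have h3 : ∑ j ∈ range n, 4 * H j ≤ 4 * (∑ j ∈ range (k + 1), (80 * u + 192768 * bk q j ^ 2 * g)) +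
      33280 * u * ∑ j ∈ range n, (1 / 2 : ℝ) ^ j := by
    have h4 : ∑ j ∈ range n, (if j ≤ k then 80 * u + 192768 * bk q j ^ 2 * g else 0) ≤
        ∑ j ∈ range (k + 1), (80 * u + 192768 * bk q j ^ 2 * g) := by
      rw [← sum_filter]
      refine sum_le_sum_of_subset_of_nonneg ?_ (fun j _ _ => by have := hb j; positivity)
      intro j hj
      rw [mem_filter] at hj
      rw [mem_range]
      omega
    rw [← mul_sum]
    simp only [hH]
    rw [sum_add_distrib, ← mul_sum, ← mul_sum]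
    linarith
  have h4 : ∑ j ∈ range n, (1 / 2 : ℝ) ^ j ≤ 2 := sum_geometric_two_le n
  have h5 := bk_sq_sum q k
  have h6 : ∑ j ∈ range (k + 1), (80 * u + 192768 * bk q j ^ 2 * g) =
      ((k : ℝ) + 1) * (80 * u) + 192768 * g * ∑ j ∈ range (k + 1), bk q j ^ 2 := by
    rw [sum_add_distrib, sum_const, card_range, nsmul_eq_mul, mul_sum]
    push_cast
    congr 1
    exact sum_congr rfl fun j _ => by ring
  have h7 : (1 : ℝ) ≤ (k : ℝ) + 1 := by
    have : (0 : ℝ) ≤ k := Nat.cast_nonneg k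
    linarith
  have h8 : u ≤ ((k : ℝ) + 1) * u := by nlinarith
  have h9 : g * ∑ j ∈ range (k + 1), bk q j ^ 2 ≤ g * (4 * bk q k ^ 2) :=
    mul_le_mul_of_nonneg_left h5 hg
  have h10 : u * ∑ j ∈ range n, (1 / 2 : ℝ) ^ j ≤ u * 2 := mul_le_mul_of_nonneg_left h4 hu
  rw [h6] at h3
  have h11 : 0 ≤ bk q k ^ 2 * g := by positivity
  nlinarith

end Pool.Agent.L0h87.Q4
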