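import Pool.Agent.L0h87.Q4.Stm
import Pool.Agent.N243.Levels

/-!
# Module CT: the weight of the rows which are heavy at a high level
-/

set_option autoImplicit false
set_option linter.all false

namespace Pool.Agent.L0h87.Q4

open Finset Real

theorem ct_level (hDY : StDY) {c k s : ℕ} (hs : c + 2 ^ (k + 1) ≤ s) : 2 ^ lv c s ≤ s - c := by
  obtain ⟨h1, h2, -⟩ := hDY
  rcases Nat.eq_zero_or_pos (lv c s) with h | h
  · rw [h, pow_zero]
    have : 0 < 2 ^ (k + 1) := by positivity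
    omega
  · have h3 := h2 c s h
    have h4 := (h1 (lv c s) s).1
    omega

theorem ct_term {a : ℝ} (ha : 2 ≤ a) {E e c k j : ℕ} (hc : E ≤ e + 1 + c) :
    2 * (a ^ 4) ^ E / (a ^ 4) ^ (c + 2 ^ (k + 1) + j) * a ^ (2 ^ (k + 1) + j) ≤
      2 * (a ^ 4) ^ e * (1 / a) ^ (2 * 2 ^ k) * (1 / 2) ^ j := by
  have ha0 : 0 < a := by linarith
  have ha1 : 1 ≤ a := by linarith
  obtain ⟨r, hr⟩ := Nat.exists_eq_add_of_le hc
  have e1 : 2 * (a ^ 4) ^ E / (a ^ 4) ^ (c + 2 ^ (k + 1) + j) * a ^ (2 ^ (k + 1) + j) *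
      ((a ^ 4) ^ r * a ^ (3 * 2 ^ (k + 1)) * a ^ (3 * j)) = 2 * (a ^ 4) ^ e * a ^ 4 := by
    have e2 : (a ^ 4) ^ (c + 2 ^ (k + 1) + j) =
        (a ^ 4) ^ c * (a ^ (2 ^ (k + 1) + j) * (a ^ (3 * 2 ^ (k + 1)) * a ^ (3 * j))) := by
      rw [← pow_mul, ← pow_mul, ← pow_add, ← pow_add, ← pow_add]
      congr 1
      ring
    have e3 : (a ^ 4) ^ E * (a ^ 4) ^ r = (a ^ 4) ^ e * a ^ 4 * (a ^ 4) ^ c := by
      rw [← pow_add, ← hr, pow_add, pow_add, pow_one]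
    rw [e2]
    have h3 : a ^ (2 ^ (k + 1) + j) ≠ 0 := by positivity
    have h4 : a ^ (3 * 2 ^ (k + 1)) ≠ 0 := by positivity
    have h5 : a ^ (3 * j) ≠ 0 := by positivity
    have h6 : (a ^ 4) ^ c ≠ 0 := by positivity
    generalize a ^ (2 ^ (k + 1) + j) = x1 at *
    generalize a ^ (3 * 2 ^ (k + 1)) = x2 at *
    generalize a ^ (3 * j) = x3 at *
    generalize (a ^ 4) ^ c = x4 at *
    generalize (a ^ 4) ^ E = x5 at *
    generalize (a ^ 4) ^ r = x6 at *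
    generalize (a ^ 4) ^ e = x7 at *
    field_simp
    linear_combination e3
  have hX : 0 ≤ 2 * (a ^ 4) ^ E / (a ^ 4) ^ (c + 2 ^ (k + 1) + j) * a ^ (2 ^ (k + 1) + j) := by
    positivity
  have h2 : a ^ 4 * (a ^ (2 * 2 ^ k) * 2 ^ j) ≤
      (a ^ 4) ^ r * a ^ (3 * 2 ^ (k + 1)) * a ^ (3 * j) := by
    have e4 : a ^ (3 * 2 ^ (k + 1)) = a ^ (2 * 2 ^ k) * a ^ (4 * 2 ^ k) := by
      rw [← pow_add]
      congr 1
      rw [pow_succ]
      ring
    have h3 : a ^ 4 ≤ a ^ (4 * 2 ^ k) := by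
      apply pow_le_pow_right₀ ha1
      have : 0 < 2 ^ k := by positivity
      omega
    have h4 : (2 : ℝ) ^ j ≤ a ^ (3 * j) := by
      calc (2 : ℝ) ^ j ≤ a ^ j := pow_le_pow_left₀ (by norm_num) ha j
        _ ≤ a ^ (3 * j) := pow_le_pow_right₀ ha1 (by omega)
    have h5 : (1 : ℝ) ≤ (a ^ 4) ^ r := one_le_pow₀ (one_le_pow₀ ha1)
    calc a ^ 4 * (a ^ (2 * 2 ^ k) * 2 ^ j) = 1 * (a ^ (2 * 2 ^ k) * a ^ 4) * 2 ^ j := by ring
      _ ≤ (a ^ 4) ^ r * (a ^ (2 * 2 ^ k) * a ^ (4 * 2 ^ k)) * a ^ (3 * j) := by gcongr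
      _ = (a ^ 4) ^ r * a ^ (3 * 2 ^ (k + 1)) * a ^ (3 * j) := by rw [e4]
  have h3 := mul_le_mul_of_nonneg_left h2 hX
  rw [e1] at h3
  have h4 : 0 < a ^ 4 := by positivity
  have h5 : 2 * (a ^ 4) ^ E / (a ^ 4) ^ (c + 2 ^ (k + 1) + j) * a ^ (2 ^ (k + 1) + j) *
      (a ^ (2 * 2 ^ k) * 2 ^ j) ≤ 2 * (a ^ 4) ^ e := by
    refine le_of_mul_le_mul_right ?_ h4
    refine le_trans (le_of_eq ?_) h3
    ring
  have h6 : 0 < a ^ (2 * 2 ^ k) * 2 ^ j := by positivity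
  rw [← le_div_iff₀ h6] at h5
  refine h5.trans (le_of_eq ?_)
  rw [one_div, inv_pow, one_div, inv_pow]
  field_simp

theorem stCT (hDY : StDY) : StCT := by
  classical
  intro q hq m E D hD w hw hanti k U hU
  set a : ℝ := (16 : ℝ) ^ q with ha
  have ha2 : 2 ≤ a := by
    calc (2 : ℝ) ≤ 16 ^ 1 := by norm_num
      _ ≤ 16 ^ q := pow_le_pow_right₀ (by norm_num) hq
  have hMa : (Mq q : ℝ) = a ^ 4 := by
    unfold Mq
    rw [ha, ← pow_mul, mul_comm q 4]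
    push_cast
    rfl
  have hM2 : 2 ≤ Mq q := by
    have h1 : (2 : ℝ) ≤ Mq q := by
      rw [hMa]
      calc (2 : ℝ) ≤ a := ha2
        _ = a ^ 1 := (pow_one a).symm
        _ ≤ a ^ 4 := pow_le_pow_right₀ (by linarith) (by norm_num)
    exact_mod_cast h1
  have hka : ∀ t : ℕ, (16 : ℝ) ^ (q * t) = a ^ t := fun t => by rw [ha, ← pow_mul]
  have hr : (1 / 16 : ℝ) ^ (2 * q * 2 ^ k) = (1 / a) ^ (2 * 2 ^ k) := by
    rw [ha, one_div, one_div, inv_pow, inv_pow, ← pow_mul]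
    congr 2
    ring
  have hr1 : (1 / a) ^ (2 * 2 ^ k) ≤ 1 / 4 := by
    have h1 : (1 / a) ≤ 1 / 2 := one_div_le_one_div_of_le (by norm_num) ha2
    have h2 : 2 ≤ 2 * 2 ^ k := by
      have : 0 < 2 ^ k := by positivity
      omega
    calc (1 / a) ^ (2 * 2 ^ k) ≤ (1 / 2) ^ (2 * 2 ^ k) :=
          pow_le_pow_left₀ (by positivity) h1 _
      _ ≤ (1 / 2) ^ 2 := pow_le_pow_of_le_one (by norm_num) (by norm_num) h2
      _ = 1 / 4 := by norm_num
  have hra : (1 / 16 : ℝ) ^ (2 * q * 2 ^ k) ≤ 1 / 256 := by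
    have h2 : 2 ≤ 2 * q * 2 ^ k := by
      have : 0 < 2 ^ k := by positivity
      nlinarith
    calc (1 / 16 : ℝ) ^ (2 * q * 2 ^ k) ≤ (1 / 16) ^ 2 :=
          pow_le_pow_of_le_one (by norm_num) (by norm_num) h2
      _ = 1 / 256 := by norm_num
  have hcard : ∀ e, (((U ∩ H167FK.B m (Mq q) e).card : ℕ) : ℝ) ≤
      4 * (1 / 16) ^ (2 * q * 2 ^ k) * (Mq q : ℝ) ^ e := by
    intro e
    set c := E - 1 - e with hc
    choose! s hs using hU
    set N := U.sup s + 1 with hN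
    have hsub : U ∩ H167FK.B m (Mq q) e ⊆ (Finset.range N).biUnion (fun j =>
        (D (c + 2 ^ (k + 1) + j)).filter (fun i : Fin m =>
          lv (E - 1 - Nat.log (Mq q) (i : ℕ)) (c + 2 ^ (k + 1) + j) =
            lv c (c + 2 ^ (k + 1) + j))) := by
      intro i hi
      rw [Finset.mem_inter] at hi
      have h1 := hs i hi.1
      have h2 : Nat.log (Mq q) (i : ℕ) = e := by
        have := hi.2
        unfold H167FK.B at this
        exact (Finset.mem_filter.mp this).2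
      rw [h2, ← hc] at h1
      have h3 : c + 2 ^ lv c (s i) ≤ s i := by
        have h4 := hDY.2.1 c (s i) (by omega)
        have h5 := (hDY.1 (lv c (s i)) (s i)).1
        omega
      have h6 : 2 ^ (k + 1) ≤ 2 ^ lv c (s i) := Nat.pow_le_pow_right (by norm_num) h1.2.2
      have h7 : s i ≤ U.sup s := Finset.le_sup hi.1
      have h9 : 0 < 2 ^ (k + 1) := by positivity
      rw [Finset.mem_biUnion]
      generalize hX : 2 ^ (k + 1) = X at *
      refine ⟨s i - (c + X), Finset.mem_range.mpr (by omega), ?_⟩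
      have h8 : c + X + (s i - (c + X)) = s i := by omega
      rw [h8, Finset.mem_filter, h2]
      exact ⟨h1.1, rfl⟩
    have h1 := (Finset.card_le_card hsub).trans Finset.card_biUnion_le
    have h2 : (((U ∩ H167FK.B m (Mq q) e).card : ℕ) : ℝ) ≤
        ∑ j ∈ Finset.range N, (((D (c + 2 ^ (k + 1) + j)).filter (fun i : Fin m =>
          lv (E - 1 - Nat.log (Mq q) (i : ℕ)) (c + 2 ^ (k + 1) + j) =
            lv c (c + 2 ^ (k + 1) + j))).card : ℝ) := by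
      exact_mod_cast h1
    refine h2.trans ?_
    have h3 : ∀ j ∈ Finset.range N, (((D (c + 2 ^ (k + 1) + j)).filter (fun i : Fin m =>
          lv (E - 1 - Nat.log (Mq q) (i : ℕ)) (c + 2 ^ (k + 1) + j) =
            lv c (c + 2 ^ (k + 1) + j))).card : ℝ) ≤
        2 * (a ^ 4) ^ e * (1 / a) ^ (2 * 2 ^ k) * (1 / 2) ^ j := by
      intro j _
      refine (hD _ _).trans ?_
      rw [hMa, hka]
      refine le_trans ?_ (ct_term ha2 (E := E) (e := e) (c := c) (k := k) (j := j) (by omega))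
      refine mul_le_mul_of_nonneg_left ?_ (by positivity)
      refine pow_le_pow_right₀ (by linarith) ?_
      have h4 := ct_level hDY (c := c) (k := k) (s := c + 2 ^ (k + 1) + j) (Nat.le_add_right _ _)
      have h5 : c + 2 ^ (k + 1) + j - c = 2 ^ (k + 1) + j := by
        rw [add_assoc, Nat.add_sub_cancel_left]
      rwa [h5] at h4
    refine (Finset.sum_le_sum h3).trans ?_
    rw [← Finset.mul_sum, hMa, hr]
    have h4 : ∑ j ∈ Finset.range N, (1 / 2 : ℝ) ^ j ≤ 2 := sum_geometric_two_le N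
    calc 2 * (a ^ 4) ^ e * (1 / a) ^ (2 * 2 ^ k) * ∑ j ∈ Finset.range N, (1 / 2 : ℝ) ^ j
        ≤ 2 * (a ^ 4) ^ e * (1 / a) ^ (2 * 2 ^ k) * 2 :=
          mul_le_mul_of_nonneg_left h4 (by positivity)
      _ = 4 * (1 / a) ^ (2 * 2 ^ k) * (a ^ 4) ^ e := by ring
  have hmain := Pool.Agent.N243.class_sum (Mq q) hM2 (4 * (1 / 16) ^ (2 * q * 2 ^ k))
    (by positivity) (by linarith) U w hw hanti hcard
  refine hmain.trans (le_of_eq ?_)
  ring

end Pool.Agent.L0h87.Q4
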