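import Pool.Agent.L0h87.Q4.Stm
import Pool.Agent.H167R2.FKMinimax

/-!
# From weights to a distribution (module MM)
-/

set_option autoImplicit false

namespace Pool.Agent.L0h87.Q4

open Finset Real

/-- the geometric sum -/
theorem mm_geo (q k₀ : ℕ) (hq : 1 ≤ q) :
    ∑ k ∈ range k₀, 8 * (1 / 16 : ℝ) ^ (q * 2 ^ k) ≤ 1 := by
  have h1 : ∀ k ∈ range k₀, 8 * (1 / 16 : ℝ) ^ (q * 2 ^ k) ≤ 8 * (1 / 16 : ℝ) ^ (k + 1) := by
    intro k _
    refine mul_le_mul_of_nonneg_left ?_ (by norm_num)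
    refine pow_le_pow_of_le_one (by norm_num) (by norm_num) ?_
    have h2 : k + 1 ≤ 2 ^ k := Nat.lt_two_pow_self
    calc k + 1 ≤ 2 ^ k := h2
      _ = 1 * 2 ^ k := (one_mul _).symm
      _ ≤ q * 2 ^ k := Nat.mul_le_mul_right _ hq
  refine (Finset.sum_le_sum h1).trans ?_
  have h3 : ∀ K : ℕ, ∑ k ∈ range K, 8 * (1 / 16 : ℝ) ^ (k + 1) = 8 / 15 * (1 - (1 / 16 : ℝ) ^ K) := by
    intro K
    induction K with
    | zero => simp
    | succ K ih => rw [Finset.sum_range_succ, ih, pow_succ]; ring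
  rw [h3]
  have h4 : (0 : ℝ) ≤ (1 / 16 : ℝ) ^ k₀ := by positivity
  linarith

theorem stMM : StMM := by
  classical
  intro m n q hq a x₀ b hb h
  -- the scale beyond which nothing happens
  set R : ℝ := ∑ i, ∑ j, |a i j| * (1 + |x₀ j|) with hR
  obtain ⟨k₀, hk₀⟩ := hb R
  have hbound : ∀ x : Fin n → ℝ, (∀ j, x j = 1 ∨ x j = -1) → ∀ i,
      |∑ j, a i j * (x j - x₀ j)| ≤ R := by
    intro x hx i
    have h1 : |∑ j, a i j * (x j - x₀ j)| ≤ ∑ j, |a i j| * (1 + |x₀ j|) := by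
      refine (Finset.abs_sum_le_sum_abs _ _).trans (Finset.sum_le_sum fun j _ => ?_)
      rw [abs_mul]
      refine mul_le_mul_of_nonneg_left ?_ (abs_nonneg _)
      have h2 : |x j| = 1 := by
        rcases hx j with h3 | h3 <;> rw [h3] <;> simp
      calc |x j - x₀ j| ≤ |x j| + |x₀ j| := abs_sub _ _
        _ = 1 + |x₀ j| := by rw [h2]
    refine h1.trans ?_
    rw [hR]
    exact Finset.single_le_sum (f := fun i => ∑ j, |a i j| * (1 + |x₀ j|))
      (fun i _ => Finset.sum_nonneg fun j _ => by positivity) (Finset.mem_univ i)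
  let pat : (Fin n → ℝ) → (Fin m → ℝ) := fun x i =>
    ∑ k ∈ range k₀, (16 : ℝ) ^ (q * 2 ^ k) * (if b k < |∑ j, a i j * (x j - x₀ j)| then 1 else 0)
  have hsign : {x : Fin n → ℝ | ∀ j, x j = 1 ∨ x j = -1}.Finite := by
    have h2 : {x : Fin n → ℝ | ∀ j, x j = 1 ∨ x j = -1} ⊆
        Set.pi Set.univ fun _ => ({1, -1} : Set ℝ) := by
      intro x hx j _
      exact hx j
    exact (Set.Finite.pi' fun _ => Set.toFinite ({1, -1} : Set ℝ)).subset
      (fun x hx j => h2 hx j (Set.mem_univ j))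
  have hpatfin : (pat '' {x : Fin n → ℝ | ∀ j, x j = 1 ∨ x j = -1}).Finite := hsign.image _
  set Z : Finset (Fin m → ℝ) := hpatfin.toFinset with hZ
  have hZmem : ∀ z ∈ Z, ∃ x : Fin n → ℝ, (∀ j, x j = 1 ∨ x j = -1) ∧ pat x = z := by
    intro z hz
    rw [hZ, Set.Finite.mem_toFinset] at hz
    exact hz
  obtain ⟨w, hw0, hw1, hw2⟩ := H167FK.minimax Z 1 (by
    intro p hp
    obtain ⟨x, hx1, hx2⟩ := h p hp
    refine ⟨pat x, ?_, ?_⟩
    · rw [hZ, Set.Finite.mem_toFinset]
      exact ⟨x, hx1, rfl⟩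
    · have hS : 0 ≤ ∑ j, p j := Finset.sum_nonneg fun j _ => hp j
      calc ∑ i, p i * pat x i
          = ∑ k ∈ range k₀, (16 : ℝ) ^ (q * 2 ^ k) *
              ∑ i, (if b k < |∑ j, a i j * (x j - x₀ j)| then p i else 0) := by
            simp only [pat, Finset.mul_sum]
            rw [Finset.sum_comm]
            refine Finset.sum_congr rfl fun k _ => Finset.sum_congr rfl fun i _ => ?_
            split_ifs <;> ring
        _ ≤ ∑ k ∈ range k₀, (16 : ℝ) ^ (q * 2 ^ k) *
              (8 * (1 / 16) ^ (2 * q * 2 ^ k) * ∑ i, p i) :=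
            Finset.sum_le_sum fun k _ => mul_le_mul_of_nonneg_left (hx2 k) (by positivity)
        _ = (∑ k ∈ range k₀, 8 * (1 / 16 : ℝ) ^ (q * 2 ^ k)) * ∑ i, p i := by
            rw [Finset.sum_mul]
            refine Finset.sum_congr rfl fun k _ => ?_
            have e1 : (1 / 16 : ℝ) ^ (2 * q * 2 ^ k) =
                (1 / 16 : ℝ) ^ (q * 2 ^ k) * (1 / 16 : ℝ) ^ (q * 2 ^ k) := by
              rw [← pow_add]; congr 1; ring
            have e2 : (16 : ℝ) ^ (q * 2 ^ k) * (1 / 16 : ℝ) ^ (q * 2 ^ k) = 1 := by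
              rw [← mul_pow]; norm_num
            rw [e1]
            calc (16 : ℝ) ^ (q * 2 ^ k) * (8 * ((1 / 16 : ℝ) ^ (q * 2 ^ k) *
                  (1 / 16 : ℝ) ^ (q * 2 ^ k)) * ∑ i, p i)
                = ((16 : ℝ) ^ (q * 2 ^ k) * (1 / 16 : ℝ) ^ (q * 2 ^ k)) *
                  (8 * (1 / 16 : ℝ) ^ (q * 2 ^ k) * ∑ i, p i) := by ring
              _ = _ := by rw [e2, one_mul]
        _ ≤ 1 * ∑ j, p j := mul_le_mul_of_nonneg_right (mm_geo q k₀ hq) hS)
  choose! x hx hxp using hZmem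
  let e : Fin Z.card ≃ Z := Z.equivFin.symm
  refine ⟨Z.card, fun k => w (e k), fun k => x (e k), fun k => hw0 _ (e k).2, ?_, ?_, ?_⟩
  · rw [Equiv.sum_comp e (fun z : Z => w z), Finset.sum_coe_sort Z w]
    exact hw1
  · intro k
    exact hx _ (e k).2
  · intro i k
    by_cases hk : k < k₀
    · have h2 := hw2 i
      have h3 : ∑ z ∈ Z, w z * z i = ∑ r : Fin Z.card, w (e r) * pat (x (e r)) i := by
        rw [← Finset.sum_coe_sort Z (fun z => w z * z i),
          ← Equiv.sum_comp e (fun z : Z => w z * (z : Fin m → ℝ) i)]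
        exact Finset.sum_congr rfl fun r _ => by rw [hxp _ (e r).2]
      rw [h3] at h2
      have h4 : (16 : ℝ) ^ (q * 2 ^ k) * ∑ r : Fin Z.card,
          (if b k < |∑ j, a i j * (x (e r) j - x₀ j)| then w (e r) else 0) ≤
          ∑ r : Fin Z.card, w (e r) * pat (x (e r)) i := by
        rw [Finset.mul_sum]
        refine Finset.sum_le_sum fun r _ => ?_
        have h5 : (16 : ℝ) ^ (q * 2 ^ k) *
            (if b k < |∑ j, a i j * (x (e r) j - x₀ j)| then 1 else 0) ≤ pat (x (e r)) i :=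
          Finset.single_le_sum (f := fun k => (16 : ℝ) ^ (q * 2 ^ k) *
            (if b k < |∑ j, a i j * (x (e r) j - x₀ j)| then 1 else 0))
            (fun k _ => by split_ifs <;> positivity) (Finset.mem_range.mpr hk)
        have h6 := mul_le_mul_of_nonneg_left h5 (hw0 _ (e r).2)
        refine le_trans (le_of_eq ?_) h6
        split_ifs <;> ring
      have h7 : (16 : ℝ) ^ (q * 2 ^ k) * ∑ r : Fin Z.card,
          (if b k < |∑ j, a i j * (x (e r) j - x₀ j)| then w (e r) else 0) ≤ 1 := h4.trans h2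
      have h8 : (1 / 16 : ℝ) ^ (q * 2 ^ k) = 1 / (16 : ℝ) ^ (q * 2 ^ k) := by
        rw [one_div, one_div, inv_pow]
      rw [h8, le_div_iff₀ (by positivity), mul_comm]
      exact h7
    · have h2 : ∀ r : Fin Z.card,
          (if b k < |∑ j, a i j * (x (e r) j - x₀ j)| then w (e r) else 0) = 0 := by
        intro r
        rw [if_neg]
        have h3 := hbound (x (e r)) (hx _ (e r).2) i
        have h4 := hk₀ k (by omega)
        linarith
      rw [Finset.sum_congr rfl fun r _ => h2 r, Finset.sum_const_zero]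
      positivity

end Pool.Agent.L0h87.Q4
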