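import Pool.Agent.L0h87.Q4.Iter
import Pool.Agent.L0h87.Q4.CN2
import Pool.Agent.L0h87.Q4.CT
import Pool.Agent.L0h87.Q4.MM

/-!
# The distribution
-/

set_option autoImplicit false

namespace Pool.Agent.L0h87.Q4

open Finset Real H167BJ H167BK H167KL

/-- The bound of level `k`. -/
noncomputable def Bb (t : ℝ) (q k : ℕ) : ℝ :=
  10000000 * min (Real.sqrt t * bk q k)
    (((k : ℝ) + 1) * Real.sqrt t + bk q k ^ 2 * (1 + Real.log t) ^ (3 / 2 : ℝ))

/-- Total cost of a row. -/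
theorem row_total {I J : Type} [Fintype I] [Fintype J] (Q : Dt I J) (D : ℕ → Finset I) (i : I)
    (k : ℕ) (h : ∀ s, i ∈ D s → Beg (Q.c i) s → lv (Q.c i) s ≤ k) :
    ∑ s ∈ (range (Q.E + 1)).filter (fun s => Beg (Q.c i) s), Q.cost D i s ≤ Bb Q.t Q.q k := by
  classical
  have ht := Q.ht
  have hst : 0 ≤ Real.sqrt Q.t := Real.sqrt_nonneg _
  have hlog : 0 ≤ Real.log Q.t := Real.log_nonneg ht
  have hg : 0 ≤ (1 + Real.log Q.t) ^ (3 / 2 : ℝ) := by positivity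
  set D' : Finset ℕ := (range (Q.E + 1)).filter (fun s => i ∈ D s) with hD'
  have hD1 : ∀ s ∈ D', Beg (Q.c i) s → lv (Q.c i) s ≤ k := by
    intro s hs
    rw [hD', mem_filter] at hs
    exact h s hs.2
  have hmem : ∀ s ∈ (range (Q.E + 1)).filter (fun s => Beg (Q.c i) s), (s ∈ D' ↔ i ∈ D s) := by
    intro s hs
    rw [mem_filter] at hs
    rw [hD', mem_filter]
    exact ⟨fun h => h.2, fun h => ⟨hs.1, h⟩⟩
  have hrh : ∀ s, 0 ≤ rh Q.q (lv (Q.c i) s) := fun s => (rh_pos Q.hq _).le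
  unfold Bb
  rw [mul_min_of_nonneg _ _ (by norm_num)]
  apply le_min
  · have h1 := stCN Q.q Q.hq (Q.c i) (Q.E + 1) k D' hD1
    have h2 := mul_le_mul_of_nonneg_left h1 hst
    rw [mul_sum] at h2
    refine le_trans (sum_le_sum fun s hs => ?_) (h2.trans ?_)
    · unfold Dt.cost
      have h3 := hmem s hs
      have h4 := hrh s
      by_cases h5 : i ∈ D s
      · rw [if_pos h5, if_pos (h3.mpr h5)]
        refine (min_le_left _ _).trans ?_
        have := mul_nonneg hst h4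
        nlinarith
      · rw [if_neg h5, if_neg (fun h => h5 (h3.mp h))]
        apply le_of_eq; ring
    · have := mul_nonneg hst (bk_nonneg Q.q k)
      nlinarith
  · have h1 := stCN2 Q.q Q.hq (Q.c i) (Q.E + 1) k D' hD1 (Real.sqrt Q.t)
      ((1 + Real.log Q.t) ^ (3 / 2 : ℝ)) hst hg
    refine le_trans (sum_le_sum fun s hs => ?_) h1
    unfold Dt.cost
    have h3 := hmem s hs
    by_cases h5 : i ∈ D s
    · rw [if_pos h5, if_pos (h3.mpr h5)]
      exact min_le_right _ _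
    · rw [if_neg h5, if_neg (fun h => h5 (h3.mp h))]

/-- Antitone weights. -/
theorem weighted_anti (m n : ℕ) (a : Fin m → Fin n → ℝ) (t : ℝ) (ht : 1 ≤ t)
    (a1 : ∀ i j, |a i j| ≤ 1) (col : ∀ j, ∑ i, a i j ^ 2 ≤ t) (x₀ : Fin n → ℝ)
    (hx₀ : ∀ j, |x₀ j| ≤ 1) (q : ℕ) (hq : 1 ≤ q) (w : Fin m → ℝ) (hw : ∀ i, 0 ≤ w i)
    (hanti : Antitone w) :
    ∃ x : Fin n → ℝ, (∀ j, x j = 1 ∨ x j = -1) ∧ ∀ k : ℕ,
      ∑ i, (if Bb t q k < |∑ j, a i j * (x j - x₀ j)| then w i else 0) ≤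
        8 * (1 / 16) ^ (2 * q * 2 ^ k) * ∑ i, w i := by
  classical
  have hM := Mq_ge hq
  -- the number of mass levels
  have hL : ∃ L : ℕ, (∀ k ≤ n, ∀ i v, a i v ≠ 0 → θk t (rh q k ^ 2) L < |a i v|) ∧
      ∀ k ≤ n, q * 2 ^ k ≤ L := by
    have h1 : ∀ (k : ℕ) (i : Fin m) (v : Fin n), ∃ L : ℕ, a i v ≠ 0 →
        θk t (rh q k ^ 2) L < |a i v| := by
      intro k i v
      by_cases h : a i v = 0
      · exact ⟨0, fun h' => absurd h h'⟩
      · obtain ⟨L, hL⟩ := θk_tendsto ht (h_ge hq k) _ (abs_pos.mpr h)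
        exact ⟨L, fun _ => hL⟩
    choose Lf hLf using h1
    refine ⟨∑ k ∈ range (n + 1), ∑ i, ∑ v, Lf k i v + q * 2 ^ n, fun k hk i v h => ?_,
      fun k hk => ?_⟩
    · refine lt_of_le_of_lt (θk_anti ht (h_ge hq k) ?_) (hLf k i v h)
      have h2 : Lf k i v ≤ ∑ v, Lf k i v :=
        Finset.single_le_sum (f := fun v => Lf k i v) (fun i _ => Nat.zero_le _) (Finset.mem_univ v)
      have h3 : ∑ v, Lf k i v ≤ ∑ i, ∑ v, Lf k i v :=
        Finset.single_le_sum (f := fun i => ∑ v, Lf k i v) (fun i _ => Nat.zero_le _)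
          (Finset.mem_univ i)
      have h4 : ∑ i, ∑ v, Lf k i v ≤ ∑ k ∈ range (n + 1), ∑ i, ∑ v, Lf k i v :=
        Finset.single_le_sum (f := fun k => ∑ i, ∑ v, Lf k i v)
          (fun i _ => Nat.zero_le _) (Finset.mem_range.mpr (Nat.lt_succ_of_le hk))
      omega
    · have : q * 2 ^ k ≤ q * 2 ^ n := Nat.mul_le_mul_left _ (Nat.pow_le_pow_right (by norm_num) hk)
      omega
  obtain ⟨L, hL1, hL2⟩ := hL
  let Q : Dt (Fin m) (Fin n) :=
    { a := a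
      t := t
      ht := ht
      a1 := a1
      col := col
      q := q
      hq := hq
      E := n
      cl := fun i => Nat.log (Mq q) (i : ℕ)
      hcl := fun e => by
        have h1 : ((Finset.univ.filter (fun i : Fin m => Nat.log (Mq q) (i : ℕ) < e)).map
            Fin.valEmbedding) ⊆ Finset.range (Mq q ^ e) := by
          intro j hj
          rw [Finset.mem_map] at hj
          obtain ⟨i, hi, rfl⟩ := hj
          rw [Finset.mem_filter] at hi
          rw [Finset.mem_range]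
          exact Nat.lt_pow_of_log_lt (by omega) hi.2
        have h2 := Finset.card_le_card h1
        rwa [Finset.card_map, Finset.card_range] at h2
      x₀ := x₀
      hx₀ := hx₀
      hE := by
        have h1 : ((H167FK.Sys.alive x₀).card : ℝ) ≤ n := by
          have h2 : (H167FK.Sys.alive x₀).card ≤ Fintype.card (Fin n) := Finset.card_le_univ _
          rw [Fintype.card_fin] at h2
          exact_mod_cast h2
        have h2 : n ≤ Mq q ^ n := (Nat.lt_pow_self (by omega)).le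
        have h3 : (n : ℝ) ≤ (Mq q : ℝ) ^ n := by exact_mod_cast h2
        have h4 : (0 : ℝ) ≤ (Mq q : ℝ) ^ n := by positivity
        linarith
      L := L
      hL := hL1
      hL2 := hL2 }
  obtain ⟨x, D, hx1, hx2, hx3⟩ := Q.process
  refine ⟨x, fun j => eq_or_eq_neg_of_abs_eq (hx1 j), fun k => ?_⟩
  have h1 := stCT stDY q hq m n D hx2 w hw hanti k
    (Finset.univ.filter (fun i => Bb t q k < |∑ j, a i j * (x j - x₀ j)|)) (by
      intro i hi
      rw [mem_filter] at hi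
      by_contra hcon
      push Not at hcon
      have h2 := row_total Q D i k (fun s h3 h4 => hcon s h3 h4)
      have h3 := (hx3 i).trans h2
      exact absurd hi.2 (not_lt.mpr h3))
  rw [Finset.sum_filter] at h1
  exact h1

/-- Arbitrary weights. -/
theorem weighted (m n : ℕ) (a : Fin m → Fin n → ℝ) (t : ℝ) (ht : 1 ≤ t)
    (a1 : ∀ i j, |a i j| ≤ 1) (col : ∀ j, ∑ i, a i j ^ 2 ≤ t) (x₀ : Fin n → ℝ)
    (hx₀ : ∀ j, |x₀ j| ≤ 1) (q : ℕ) (hq : 1 ≤ q) (w : Fin m → ℝ) (hw : ∀ i, 0 ≤ w i) :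
    ∃ x : Fin n → ℝ, (∀ j, x j = 1 ∨ x j = -1) ∧ ∀ k : ℕ,
      ∑ i, (if Bb t q k < |∑ j, a i j * (x j - x₀ j)| then w i else 0) ≤
        8 * (1 / 16) ^ (2 * q * 2 ^ k) * ∑ i, w i := by
  classical
  set σ : Equiv.Perm (Fin m) := Tuple.sort (fun i => -w i) with hσdef
  have hσ : Antitone (w ∘ σ) := by
    have h7 : Monotone ((fun i => -w i) ∘ σ) := Tuple.monotone_sort _
    intro i j hij
    have := h7 hij
    simp only [Function.comp_apply] at this ⊢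
    linarith
  obtain ⟨x, hx1, hx2⟩ := weighted_anti m n (fun i j => a (σ i) j) t ht (fun i j => a1 _ _)
    (fun j => by rw [Equiv.sum_comp σ (fun i => a i j ^ 2)]; exact col j) x₀ hx₀ q hq (w ∘ σ)
    (fun i => hw _) hσ
  refine ⟨x, hx1, fun k => ?_⟩
  have h1 := hx2 k
  simp only [Function.comp_apply] at h1
  rw [Equiv.sum_comp σ (fun i => if Bb t q k < |∑ j, a i j * (x j - x₀ j)| then w i else 0),
    Equiv.sum_comp σ w] at h1
  exact h1

theorem bk_ge (q k : ℕ) (hq : 1 ≤ q) : Real.sqrt ((k : ℝ) + 1) ≤ bk q k := by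
  have hqR : (1 : ℝ) ≤ q := by exact_mod_cast hq
  have h1 : (1 : ℝ) ≤ (q : ℝ) * 2 ^ k := by
    have : (1 : ℝ) ≤ 2 ^ k := one_le_pow₀ (by norm_num)
    nlinarith
  unfold bk
  rw [← Real.sqrt_eq_rpow]
  have h2 : (1 : ℝ) ≤ ((q : ℝ) * 2 ^ k) ^ (1 / 4 : ℝ) := Real.one_le_rpow h1 (by norm_num)
  have h3 := Real.sqrt_nonneg ((k : ℝ) + 1)
  nlinarith

theorem Bb_ge (t : ℝ) (ht : 1 ≤ t) (q k : ℕ) (hq : 1 ≤ q) :
    Real.sqrt ((k : ℝ) + 1) ≤ Bb t q k := by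
  have hk : (0 : ℝ) ≤ k := Nat.cast_nonneg k
  have h1 := bk_ge q k hq
  have hst : 1 ≤ Real.sqrt t := by rw [Real.one_le_sqrt]; exact ht
  have h3 := Real.sqrt_nonneg ((k : ℝ) + 1)
  have h4 : Real.sqrt ((k : ℝ) + 1) ≤ (k : ℝ) + 1 := by
    rw [Real.sqrt_le_left (by positivity)]; nlinarith
  have hlog : 0 ≤ Real.log t := Real.log_nonneg ht
  have hg : 0 ≤ (1 + Real.log t) ^ (3 / 2 : ℝ) := by positivity
  have h5 : Real.sqrt ((k : ℝ) + 1) ≤ min (Real.sqrt t * bk q k)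
      (((k : ℝ) + 1) * Real.sqrt t + bk q k ^ 2 * (1 + Real.log t) ^ (3 / 2 : ℝ)) := by
    apply le_min
    · nlinarith
    · have : 0 ≤ bk q k ^ 2 * (1 + Real.log t) ^ (3 / 2 : ℝ) := by positivity
      nlinarith
  unfold Bb
  linarith

/-- **The distribution.** -/
theorem distribution (m n : ℕ) (a : Fin m → Fin n → ℝ) (t : ℝ) (ht : 1 ≤ t)
    (a1 : ∀ i j, |a i j| ≤ 1) (col : ∀ j, ∑ i, a i j ^ 2 ≤ t) (x₀ : Fin n → ℝ)
    (hx₀ : ∀ j, |x₀ j| ≤ 1) (q : ℕ) (hq : 1 ≤ q) :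
    ∃ (K : ℕ) (p : Fin K → ℝ) (x : Fin K → Fin n → ℝ),
      (∀ r, 0 ≤ p r) ∧ ∑ r, p r = 1 ∧ (∀ r j, x r j = 1 ∨ x r j = -1) ∧
      ∀ (i : Fin m) (k : ℕ), ∑ r, (if Bb t q k < |∑ j, a i j * (x r j - x₀ j)| then p r else 0) ≤
        (1 / 16) ^ (q * 2 ^ k) := by
  refine stMM m n q hq a x₀ (fun k => Bb t q k) (fun R => ?_)
    (fun w hw => weighted m n a t ht a1 col x₀ hx₀ q hq w hw)
  obtain ⟨k₀, hk₀⟩ := exists_nat_gt (R ^ 2)
  refine ⟨k₀, fun k hk => lt_of_lt_of_le ?_ (Bb_ge t ht q k hq)⟩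
  have h1 : (k₀ : ℝ) ≤ k := by exact_mod_cast hk
  calc R ≤ |R| := le_abs_self R
    _ = Real.sqrt (R ^ 2) := (Real.sqrt_sq_eq_abs R).symm
    _ < Real.sqrt ((k : ℝ) + 1) := Real.sqrt_lt_sqrt (sq_nonneg R) (by linarith)

end Pool.Agent.L0h87.Q4
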