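import Pool.Agent.L0h87.Q4.Good

/-!
# One block
-/

set_option autoImplicit false

namespace Pool.Agent.L0h87.Q4

open Finset Real H167BJ H167BK H167KL

namespace Dt

variable {I J : Type} [Fintype I] [Fintype J] (Q : Dt I J)
variable {m : ℕ} {bs : I → J → ℝ} {D : ℕ → Finset I}
variable (hok : Q.Ok m bs D) (Jk : ℕ → Finset J)

theorem card_I0 (F : Finset J)
    (hF : 20 * (Mq Q.q : ℝ) ^ Q.E / (Mq Q.q : ℝ) ^ (m + 1) < F.card) :
    20 * (((Q.sys hok Jk).I0).card : ℝ) ≤ F.card := by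
  classical
  have hM := Mq_geR Q.hq
  have hM0 : (0 : ℝ) < Mq Q.q := by linarith
  have e0 : (Q.sys hok Jk).I0 = Finset.univ.filter (fun i => Q.cl i + m + 1 < Q.E) := by
    ext i
    simp only [sys, Finset.mem_filter]
  rw [e0]
  by_cases h : m + 1 ≤ Q.E
  · have h1 := Q.hcl (Q.E - (m + 1))
    have h2 : (Finset.univ.filter (fun i => Q.cl i + m + 1 < Q.E)).card ≤
        Mq Q.q ^ (Q.E - (m + 1)) := by
      refine le_trans (Finset.card_le_card ?_) h1
      intro i hi
      rw [Finset.mem_filter] at hi ⊢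
      exact ⟨hi.1, by omega⟩
    have h3 : ((Finset.univ.filter (fun i => Q.cl i + m + 1 < Q.E)).card : ℝ) ≤
        (Mq Q.q : ℝ) ^ (Q.E - (m + 1)) := by exact_mod_cast h2
    have h4 : (Mq Q.q : ℝ) ^ Q.E / (Mq Q.q : ℝ) ^ (m + 1) = (Mq Q.q : ℝ) ^ (Q.E - (m + 1)) := by
      rw [div_eq_iff (by positivity), ← pow_add]
      congr 1
      omega
    rw [mul_div_assoc, h4] at hF
    linarith
  · have h1 : (Finset.univ.filter (fun i => Q.cl i + m + 1 < Q.E)) = ∅ := by
      rw [Finset.filter_eq_empty_iff]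
      intro i _
      omega
    rw [h1]
    simp

theorem Yl_eq (i : I) (l : ℕ) : (Q.sys hok Jk).Yl i l = yk Q.t (Q.h (Q.lvl m i)) l := rfl

theorem W_eq (F : Finset J) (y : J → ℝ) (i : I) :
    (Q.sys hok Jk).W F y i = wk Q.t (Q.h (Q.lvl m i)) ((Q.sys hok Jk).lev F i) *
      (Q.sys hok Jk).φ ((Q.sys hok Jk).lev F i) F i y := rfl

/-- **Block lemma.** -/
theorem block (x : J → ℝ) (hx : (Q.sys hok Jk).Inv x) (hJ : ∀ k, H167FK.Sys.alive x ⊆ Jk k) :
    ∃ y : J → ℝ, (Q.sys hok Jk).Inv y ∧ H167FK.Sys.alive y ⊆ H167FK.Sys.alive x ∧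
      ((H167FK.Sys.alive y).card : ℝ) ≤ 20 * (Mq Q.q : ℝ) ^ Q.E / (Mq Q.q : ℝ) ^ (m + 1) := by
  classical
  set P := Q.sys hok Jk with hP
  have hM := Mq_geR Q.hq
  have hM0 : (0 : ℝ) < Mq Q.q := by linarith
  have hex : ∃ k : ℕ, ∃ y : J → ℝ, P.Inv y ∧ H167FK.Sys.alive y ⊆ H167FK.Sys.alive x ∧
      (H167FK.Sys.alive y).card = k := ⟨_, x, hx, Finset.Subset.refl _, rfl⟩
  obtain ⟨y, hy, hyx, hyk⟩ := Nat.find_spec hex
  refine ⟨y, hy, hyx, ?_⟩
  by_contra hcon
  push Not at hcon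
  set F := H167FK.Sys.alive y with hF
  have hTpos : 0 < 20 * (Mq Q.q : ℝ) ^ Q.E / (Mq Q.q : ℝ) ^ (m + 1) := by positivity
  have hnR : (0 : ℝ) < F.card := by linarith
  have hn : 0 < F.card := by exact_mod_cast hnR
  have hFJ : ∀ k, F ⊆ Jk k := fun k => hyx.trans (hJ k)
  obtain ⟨z, hz1, hz2, hz3⟩ := P.step y hy F hn (Finset.Subset.refl _)
    (fun i _ _ v hv _ => hv) (Q.card_I0 hok Jk F hcon)
    (by
      intro u hu1 hu2
      have hZ := Q.good_Z hok Jk F hFJ hcon u hu1 hu2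
      rw [← hP] at hZ
      have hterm : ∀ i, 0 ≤ 1 / Q.h (Q.lvl m i) ^ 2 *
          (ek Q.t (P.lev F i) / (16 * θk Q.t (Q.h (Q.lvl m i)) (P.lev F i) ^ 2) * P.W F u i) := by
        intro i
        have h2 := P.W_pos F u i
        have h3 := ek_pos Q.ht (P.lev F i)
        have h4 := θk_pos Q.ht (Q.h_ge (Q.lvl m i)) (P.lev F i)
        positivity
      constructor
      · have h1 : ∑ i ∈ P.R F F, P.W F u i / P.Yl i (P.lev F i) ≤
            ∑ i ∈ P.med F, 16 * (1 / Q.h (Q.lvl m i) ^ 2 *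
              (ek Q.t (P.lev F i) / (16 * θk Q.t (Q.h (Q.lvl m i)) (P.lev F i) ^ 2) *
                P.W F u i)) := by
          refine (Finset.sum_le_sum_of_subset_of_nonneg (f := fun i =>
            P.W F u i / P.Yl i (P.lev F i))
            (Finset.filter_subset _ _) (fun i _ _ => ?_)).trans
            (Finset.sum_le_sum fun i _ => ?_)
          · have h2 := P.W_pos F u i
            have h3 := P.Y_pos i (P.lev F i)
            positivity
          · have h2 := P.W_pos F u i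
            have h3 : 0 < wk Q.t (Q.h (Q.lvl m i)) (P.lev F i) := wk_pos Q.ht (Q.h_ge _) _
            have h4 : wk Q.t (Q.h (Q.lvl m i)) (P.lev F i) ≤ P.Yl i (P.lev F i) := wk_le_yk _
            have hθ := θk_pos Q.ht (Q.h_ge (Q.lvl m i)) (P.lev F i)
            have he := ek_pos Q.ht (P.lev F i)
            have hh := Q.h_ge (Q.lvl m i)
            calc P.W F u i / P.Yl i (P.lev F i)
                ≤ P.W F u i / wk Q.t (Q.h (Q.lvl m i)) (P.lev F i) :=
                  div_le_div_of_nonneg_left h2.le h3 h4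
              _ = _ := by
                  unfold wk
                  field_simp
        rw [← Finset.mul_sum] at h1
        linarith
      · intro Tt hTt
        have h1 : ∑ i ∈ Tt, (1 : ℝ)
            ≤ ∑ i ∈ P.med F, 32 * (1 / Q.h (Q.lvl m i) ^ 2 *
              (ek Q.t (P.lev F i) / (16 * θk Q.t (Q.h (Q.lvl m i)) (P.lev F i) ^ 2) *
                P.W F u i)) := by
          have hsub : Tt ⊆ P.med F := fun i hi =>
            Finset.filter_subset _ _ (hTt i hi).1
          refine (Finset.sum_le_sum fun i hi => ?_).trans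
            (Finset.sum_le_sum_of_subset_of_nonneg hsub (f := fun i =>
            32 * (1 / Q.h (Q.lvl m i) ^ 2 *
              (ek Q.t (P.lev F i) / (16 * θk Q.t (Q.h (Q.lvl m i)) (P.lev F i) ^ 2) *
                P.W F u i)))
            (fun i _ _ => by have := hterm i; linarith))
          have h2 := P.tight_le (P.lev F i) i hu1 (hTt i hi).2
          have hθ := θk_pos Q.ht (Q.h_ge (Q.lvl m i)) (P.lev F i)
          have he := ek_pos Q.ht (P.lev F i)
          have hh := Q.h_ge (Q.lvl m i)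
          have h3 := Q.W_eq hok Jk F u i
          rw [← hP] at h3
          rw [h3]
          have h4 : 32 * (1 / Q.h (Q.lvl m i) ^ 2 *
              (ek Q.t (P.lev F i) / (16 * θk Q.t (Q.h (Q.lvl m i)) (P.lev F i) ^ 2) *
                (wk Q.t (Q.h (Q.lvl m i)) (P.lev F i) * P.φ (P.lev F i) F i u))) =
              2 * P.φ (P.lev F i) F i u := by
            unfold wk
            field_simp
            ring
          rw [h4]
          linarith
        rw [Finset.sum_const, nsmul_eq_mul, mul_one, ← Finset.mul_sum] at h1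
        linarith)
    (by
      intro i hi
      obtain ⟨v, hv, hv2⟩ := (Finset.mem_filter.mp hi).2
      refine ⟨(v, Q.lvl m i), ?_, ?_⟩
      · show (v, Q.lvl m i) ∈ (Finset.univ ×ˢ Finset.range (Q.E + 1)).filter
          (fun τ => τ.1 ∈ Jk τ.2)
        rw [Finset.mem_filter, Finset.mem_product, Finset.mem_range]
        refine ⟨⟨Finset.mem_univ _, ?_⟩, hFJ _ hv⟩
        have := Q.lvl_le m i
        have := hok.hm
        simp only
        omega
      · rw [hP, Q.b_eq hok Jk v i _ _ rfl, ← hP]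
        have hθ := P.hθ0 i (P.lev F i)
        have h1 : 0 < P.sm (P.lev F i) i v ^ 2 := by
          have : P.sm (P.lev F i) i v ≠ 0 := hv2
          positivity
        positivity)
  exact Nat.find_min hex (m := (H167FK.Sys.alive z).card) (by rw [← hyk]; exact hz3)
    ⟨z, hz1, hz2.trans hyx, rfl⟩

/-- The cost of the phase of a row. -/
noncomputable def cost (D : ℕ → Finset I) (i : I) (s : ℕ) : ℝ :=
  open Classical in
  if i ∈ D s then min (260 * Real.sqrt Q.t * rh Q.q (lv (Q.c i) s))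
      (80 * Real.sqrt Q.t + 753 * rh Q.q (lv (Q.c i) s) ^ 2 * (1 + Real.log Q.t) ^ (3 / 2 : ℝ))
    else 260 * Real.sqrt Q.t * rh Q.q (lv (Q.c i) s) * (1 / 2) ^ (Q.q * 2 ^ lv (Q.c i) s)

theorem cost_nonneg (D : ℕ → Finset I) (i : I) (s : ℕ) : 0 ≤ Q.cost D i s := by
  unfold cost
  have h1 := rh_pos Q.hq (lv (Q.c i) s)
  have h2 : 0 ≤ Real.log Q.t := Real.log_nonneg Q.ht
  split_ifs
  · apply le_min <;> positivity
  · positivity

/-- Row sums inside a phase. -/
theorem row_le {x : J → ℝ} (hx : (Q.sys hok Jk).Inv x) (i : I)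
    (hi : ¬ (Q.cl i + m + 1 < Q.E)) (hlv : lv (Q.c i) (ds (Q.lvl m i) m) = Q.lvl m i) :
    |∑ j, Q.a i j * (x j - bs i j)| ≤ Q.cost D i (ds (Q.lvl m i) m) := by
  classical
  have hi1 : i ∈ (Q.sys hok Jk).I1 := by
    show i ∈ Finset.univ.filter (fun i => ¬ (Q.cl i + m + 1 < Q.E))
    rw [Finset.mem_filter]
    exact ⟨Finset.mem_univ _, hi⟩
  have h1 := hx.rows' hi1
  have h2 : (Q.sys hok Jk).g0 = 0 := rfl
  have h3 : (Q.sys hok Jk).A i x = ∑ j, Q.a i j * (x j - bs i j) := rfl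
  rw [h2, h3, mul_zero, add_zero] at h1
  refine h1.trans ?_
  have hh := Q.h_ge (Q.lvl m i)
  have hrh := rh_pos Q.hq (Q.lvl m i)
  have hsh : Real.sqrt (Q.h (Q.lvl m i)) = rh Q.q (Q.lvl m i) := by
    unfold h
    exact Real.sqrt_sq hrh.le
  have hl0 : (Q.sys hok Jk).l0 i = Q.l0 m D i := rfl
  have hl0L := (Q.sys hok Jk).hl0L i hi1
  have h4 : (Q.sys hok Jk).Bd (Q.sys hok Jk).L i =
      ∑ k ∈ Finset.Ico ((Q.sys hok Jk).l0 i) ((Q.sys hok Jk).L + 1),
        (4 * dk Q.t (Q.h (Q.lvl m i)) k + rk Q.t (Q.h (Q.lvl m i)) k) := by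
    have h5 : (Q.sys hok Jk).l0 i ≤ (Q.sys hok Jk).L + 1 := hl0L.trans (Nat.le_succ _)
    have h6 := Finset.sum_range_add_sum_Ico
      (fun k => 4 * dk Q.t (Q.h (Q.lvl m i)) k + rk Q.t (Q.h (Q.lvl m i)) k) h5
    unfold Sys.Bd Sys.Tp
    have e1 : (Q.sys hok Jk).D i = dk Q.t (Q.h (Q.lvl m i)) := rfl
    have e2 : (Q.sys hok Jk).Rb i = rk Q.t (Q.h (Q.lvl m i)) := rfl
    rw [e1, e2]
    linarith
  rw [h4]
  have h7 := tail_cost Q.ht hh _ _ (hl0L.trans (Nat.le_succ _))
  rw [hsh, hl0] at h7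
  have h8 := total Q.ht hh ((Q.sys hok Jk).L + 1)
  rw [hl0]
  unfold cost
  rw [hlv]
  split_ifs with h
  · have h9 : Q.l0 m D i = 0 := by
      unfold l0; rw [if_pos h]
    rw [h9] at h7 ⊢
    rw [pow_zero, mul_one] at h7
    apply le_min
    · refine h7.trans (le_of_eq ?_); ring
    · rw [← Finset.range_eq_Ico]
      exact h8
  · have h9 : Q.l0 m D i = Q.q * 2 ^ Q.lvl m i := by
      unfold l0; rw [if_neg h]
    rw [h9] at h7 ⊢
    refine h7.trans (le_of_eq ?_); ring

end Dt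

end Pool.Agent.L0h87.Q4
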