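import Pool.Agent.L0h87.Q4.DY

/-!
# The total cost of a row (helper63)
-/

set_option autoImplicit false

namespace Pool.Agent.L0h87.Q4

open Finset Real

theorem bk_nonneg (q k : ℕ) : 0 ≤ bk q k := by
  unfold bk
  positivity

theorem sqrt_eq_fourth {y : ℝ} (hy : 0 ≤ y) : y ^ (1 / 2 : ℝ) = (y ^ 2) ^ (1 / 4 : ℝ) := by
  rw [← rpow_natCast y 2, ← rpow_mul hy]
  norm_num

theorem rh_le (q k : ℕ) : rh q k ≤ 16 * bk q k := by
  have h1 : (16 : ℝ) = ((16 : ℝ) ^ 4) ^ (1 / 4 : ℝ) := by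
    rw [← rpow_natCast (16 : ℝ) 4, ← rpow_mul (by norm_num)]
    norm_num
  have h2 : 16 * bk q k = (16 ^ 4 * (((q : ℝ) * 2 ^ k) * ((k : ℝ) + 1) ^ 2)) ^ (1 / 4 : ℝ) := by
    rw [mul_rpow (by positivity) (by positivity), mul_rpow (by positivity) (by positivity), ← h1,
      ← sqrt_eq_fourth (by positivity)]
    rfl
  rw [h2]
  unfold rh
  refine rpow_le_rpow ?_ ?_ (by norm_num)
  · have : 0 ≤ Real.log (Mq q) := Real.log_natCast_nonneg _
    positivity
  · have h3 : Real.log (Mq q) = 16 * q * Real.log 2 := by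
      unfold Mq
      push_cast
      rw [Real.log_pow, show (16 : ℝ) = 2 ^ 4 by norm_num, Real.log_pow]
      push_cast
      ring
    rw [h3]
    have h4 : Real.log 2 < 0.6931471808 := Real.log_two_lt_d9
    have h5 : 0 ≤ (q : ℝ) * 2 ^ k * ((k : ℝ) + 1) ^ 2 := by positivity
    nlinarith

theorem bk_step (q k : ℕ) : 7 / 6 * bk q k ≤ bk q (k + 1) := by
  unfold bk
  have h1 : (7 / 6 : ℝ) ≤ 2 ^ (1 / 4 : ℝ) := by
    have h2 : (7 / 6 : ℝ) = ((7 / 6 : ℝ) ^ 4) ^ (1 / 4 : ℝ) := by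
      rw [← rpow_natCast (7 / 6 : ℝ) 4, ← rpow_mul (by norm_num)]
      norm_num
    rw [h2]
    exact rpow_le_rpow (by norm_num) (by norm_num) (by norm_num)
  have h3 : ((q : ℝ) * 2 ^ (k + 1)) ^ (1 / 4 : ℝ) = 2 ^ (1 / 4 : ℝ) * ((q : ℝ) * 2 ^ k) ^ (1 / 4 : ℝ) := by
    rw [← mul_rpow (by norm_num) (by positivity)]
    congr 1
    ring
  have h4 : ((k : ℝ) + 1) ^ (1 / 2 : ℝ) ≤ (((k + 1 : ℕ) : ℝ) + 1) ^ (1 / 2 : ℝ) := by
    refine rpow_le_rpow (by positivity) ?_ (by norm_num)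
    push_cast
    linarith
  rw [h3, ← mul_assoc]
  exact mul_le_mul (mul_le_mul_of_nonneg_right h1 (by positivity)) h4 (by positivity) (by positivity)

theorem bk_sum (q k : ℕ) : ∑ j ∈ range (k + 1), bk q j ≤ 7 * bk q k := by
  induction k with
  | zero =>
    rw [sum_range_one]
    have := bk_nonneg q 0
    linarith
  | succ k ih =>
    rw [sum_range_succ]
    have := bk_step q k
    linarith

theorem bk_zero_le (q k : ℕ) : bk q 0 ≤ bk q k := by
  induction k with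
  | zero => exact le_rfl
  | succ k ih =>
    have := bk_step q k
    have := bk_nonneg q k
    linarith

theorem bk_light {q : ℕ} (hq : 1 ≤ q) (j : ℕ) : bk q j * (1 / 2) ^ (q * 2 ^ j) ≤ bk q 0 * (1 / 2) ^ j := by
  have h1 : bk q j ≤ bk q 0 * 2 ^ j := by
    unfold bk
    have h2 : ((q : ℝ) * 2 ^ 0) ^ (1 / 4 : ℝ) * (((0 : ℕ) : ℝ) + 1) ^ (1 / 2 : ℝ) = (q : ℝ) ^ (1 / 4 : ℝ) := by
      simp
    rw [h2, mul_rpow (by positivity) (by positivity), mul_assoc]
    refine mul_le_mul_of_nonneg_left ?_ (by positivity)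
    have h3 : ((j : ℝ) + 1) ≤ 2 ^ j := by
      have : j + 1 ≤ 2 ^ j := Nat.lt_two_pow_self
      exact_mod_cast this
    have h4 : (1 : ℝ) ≤ 2 ^ j := one_le_pow₀ (by norm_num)
    calc ((2 : ℝ) ^ j) ^ (1 / 4 : ℝ) * ((j : ℝ) + 1) ^ (1 / 2 : ℝ)
        ≤ ((2 : ℝ) ^ j) ^ (1 / 4 : ℝ) * ((2 : ℝ) ^ j) ^ (1 / 2 : ℝ) :=
          mul_le_mul_of_nonneg_left (rpow_le_rpow (by positivity) h3 (by norm_num)) (by positivity)
      _ = ((2 : ℝ) ^ j) ^ (3 / 4 : ℝ) := by
          rw [← rpow_add (by positivity)]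
          norm_num
      _ ≤ ((2 : ℝ) ^ j) ^ (1 : ℝ) := rpow_le_rpow_of_exponent_le h4 (by norm_num)
      _ = 2 ^ j := rpow_one _
  have h5 : 2 * j ≤ q * 2 ^ j := by
    have h6 : 2 * j ≤ 2 ^ j := by
      rcases Nat.eq_zero_or_pos j with rfl | hj
      · norm_num
      · obtain ⟨i, rfl⟩ : ∃ i, j = i + 1 := ⟨j - 1, by omega⟩
        have : i + 1 ≤ 2 ^ i := Nat.lt_two_pow_self
        rw [pow_succ]
        omega
    calc 2 * j ≤ 2 ^ j := h6
      _ = 1 * 2 ^ j := (one_mul _).symm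
      _ ≤ q * 2 ^ j := Nat.mul_le_mul_right _ hq
  have h7 : (1 / 2 : ℝ) ^ (q * 2 ^ j) ≤ (1 / 2) ^ (2 * j) :=
    pow_le_pow_of_le_one (by norm_num) (by norm_num) h5
  calc bk q j * (1 / 2) ^ (q * 2 ^ j) ≤ (bk q 0 * 2 ^ j) * (1 / 2) ^ (2 * j) :=
        mul_le_mul h1 h7 (by positivity) (mul_nonneg (bk_nonneg q 0) (by positivity))
    _ = bk q 0 * (1 / 2) ^ j := by
        rw [mul_assoc, two_mul, pow_add, ← mul_assoc (2 ^ j : ℝ), ← mul_pow]
        norm_num

theorem stCN : StCN := by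
  intro q hq c n k D hD
  set H : ℕ → ℝ := fun j => (if j ≤ k then 8320 * bk q j else 0) + 4160 * (bk q j * (1 / 2) ^ (q * 2 ^ j)) with hH
  have hb : ∀ j, 0 ≤ bk q j := bk_nonneg q
  have hH0 : ∀ j, 0 ≤ H j := by
    intro j
    have := hb j
    simp only [hH]
    split_ifs <;> positivity
  have h1 : ∑ s ∈ (range n).filter (fun s => Beg c s),
      (if s ∈ D then 520 * rh q (lv c s) else 260 * rh q (lv c s) * (1 / 2) ^ (q * 2 ^ lv c s)) ≤
      ∑ s ∈ (range n).filter (fun s => Beg c s), H (lv c s) := by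
    refine sum_le_sum fun s hs => ?_
    have hB := (mem_filter.1 hs).2
    have h2 := rh_le q (lv c s)
    have h3 := hb (lv c s)
    have h4 : 0 ≤ (1 / 2 : ℝ) ^ (q * 2 ^ lv c s) := by positivity
    have h5 : 0 ≤ bk q (lv c s) * (1 / 2 : ℝ) ^ (q * 2 ^ lv c s) := mul_nonneg h3 h4
    simp only [hH]
    split_ifs with h6 h7 h8
    · linarith
    · exact absurd (hD s h6 hB) h7
    · have := mul_le_mul_of_nonneg_right h2 h4
      nlinarith
    · have := mul_le_mul_of_nonneg_right h2 h4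
      nlinarith
  have h2 : ∑ s ∈ (range n).filter (fun s => Beg c s), H (lv c s) ≤ ∑ j ∈ range n, 4 * H j := by
    rw [← sum_fiberwise_of_maps_to (s := (range n).filter (fun s => Beg c s)) (t := range n) (g := lv c)
      (fun s hs => by
        rw [mem_filter, mem_range] at hs
        rw [mem_range]
        exact lt_of_le_of_lt (Nat.findGreatest_le s) hs.1)]
    refine sum_le_sum fun j _ => ?_
    have h3 : ∀ s ∈ ((range n).filter (fun s => Beg c s)).filter (fun s => lv c s = j), H (lv c s) = H j :=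
      fun s hs => by rw [(mem_filter.1 hs).2]
    rw [sum_congr rfl h3, sum_const, nsmul_eq_mul, filter_filter]
    refine mul_le_mul_of_nonneg_right ?_ (hH0 j)
    exact_mod_cast beg_card c j n
  have h3 : ∑ j ∈ range n, 4 * H j ≤ 33280 * ∑ j ∈ range (k + 1), bk q j +
      16640 * ∑ j ∈ range n, bk q j * (1 / 2) ^ (q * 2 ^ j) := by
    have h4 : ∑ j ∈ range n, (if j ≤ k then 8320 * bk q j else 0) ≤ ∑ j ∈ range (k + 1), 8320 * bk q j := by
      rw [← sum_filter]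
      refine sum_le_sum_of_subset_of_nonneg ?_ (fun j _ _ => by have := hb j; positivity)
      intro j hj
      rw [mem_filter] at hj
      rw [mem_range]
      omega
    rw [← mul_sum]
    simp only [hH]
    rw [sum_add_distrib, ← mul_sum]
    rw [← mul_sum] at h4
    linarith
  have h4 : ∑ j ∈ range n, bk q j * (1 / 2) ^ (q * 2 ^ j) ≤ bk q 0 * 2 := by
    calc ∑ j ∈ range n, bk q j * (1 / 2) ^ (q * 2 ^ j) ≤ ∑ j ∈ range n, bk q 0 * (1 / 2 : ℝ) ^ j :=
          sum_le_sum fun j _ => bk_light hq j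
      _ = bk q 0 * ∑ j ∈ range n, (1 / 2 : ℝ) ^ j := by rw [mul_sum]
      _ ≤ bk q 0 * 2 := mul_le_mul_of_nonneg_left (sum_geometric_two_le n) (hb 0)
  have h5 := bk_sum q k
  have h6 := bk_zero_le q k
  have h7 := hb k
  linarith

end Pool.Agent.L0h87.Q4
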