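import Pool.Agent.L0h87.Q4.Stm

/-!
# The dyadic bookkeeping (helper63)
-/

set_option autoImplicit false

namespace Pool.Agent.L0h87.Q4

open Finset

theorem ds_le (k m : ℕ) : ds k m ≤ m := Nat.div_mul_le_self m (2 ^ k)

theorem lt_ds (k m : ℕ) : m < ds k m + 2 ^ k := Nat.lt_div_mul_add (by positivity)

theorem lv_spec {c m : ℕ} (h : 1 ≤ lv c m) : c + 2 ^ lv c m ≤ ds (lv c m) m :=
  Nat.findGreatest_of_ne_zero (P := fun k => c + 2 ^ k ≤ ds k m) rfl (show lv c m ≠ 0 by omega)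

theorem lv_greatest {c m j : ℕ} (h : lv c m < j) (hj : j ≤ m) : ¬ c + 2 ^ j ≤ ds j m :=
  Nat.findGreatest_is_greatest (P := fun k => c + 2 ^ k ≤ ds k m) h hj

theorem lv_upper (c m : ℕ) : m < c + 2 ^ (lv c m + 2) := by
  set k := lv c m with hk
  by_cases h : k + 1 ≤ m
  · have h1 := lv_greatest (c := c) (m := m) (j := k + 1) (by omega) h
    have h2 := lt_ds (k + 1) m
    have h3 : 2 ^ (k + 2) = 2 ^ (k + 1) + 2 ^ (k + 1) := by ring
    omega
  · have h1 : k + 2 < 2 ^ (k + 2) := Nat.lt_two_pow_self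
    omega

theorem ds_of_div {k j m m' : ℕ} (hj : k ≤ j) (h : ds k m' = ds k m) : ds j m' = ds j m := by
  have h1 : m' / 2 ^ k = m / 2 ^ k := Nat.eq_of_mul_eq_mul_right (by positivity) h
  obtain ⟨i, rfl⟩ : ∃ i, j = k + i := ⟨j - k, by omega⟩
  unfold ds
  rw [pow_add, ← Nat.div_div_eq_div_mul, ← Nat.div_div_eq_div_mul, h1]

theorem lv_const {c m m' : ℕ} (h : ds (lv c m) m' = ds (lv c m) m) : lv c m' = lv c m := by
  rcases Nat.eq_zero_or_pos (lv c m) with h0 | h0
  · rw [h0] at h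
    unfold ds at h
    simp only [pow_zero, Nat.div_one, mul_one] at h
    rw [h]
  · set k := lv c m with hk
    have h1 := lv_spec (c := c) (m := m) h0
    rw [← hk] at h1
    have h2 := ds_le k m'
    have h3 : k < 2 ^ k := Nat.lt_two_pow_self
    show Nat.findGreatest (fun k => c + 2 ^ k ≤ ds k m') m' = k
    rw [Nat.findGreatest_eq_iff]
    refine ⟨by omega, fun _ => by rw [h]; exact h1, fun j hj hjm hcon => ?_⟩
    rw [ds_of_div hj.le h] at hcon
    by_cases hjm' : j ≤ m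
    · exact lv_greatest (c := c) (m := m) (by omega) hjm' hcon
    · have h4 := ds_le j m
      have h5 : j < 2 ^ j := Nat.lt_two_pow_self
      omega

theorem beg_card (c k n : ℕ) : ((range n).filter (fun s => Beg c s ∧ lv c s = k)).card ≤ 4 := by
  set r₀ := (c + 2 ^ k - 1) / 2 ^ k with hr₀
  have hpos : 0 < 2 ^ k := by positivity
  have h1 : ((range n).filter (fun s => Beg c s ∧ lv c s = k)).card ≤ (Ico r₀ (r₀ + 4)).card := by
    apply card_le_card_of_injOn (fun s => s / 2 ^ k)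
    · intro s hs
      rw [mem_coe, mem_filter] at hs
      obtain ⟨-, ⟨h1, h2⟩, h3⟩ := hs
      rw [h3] at h2
      have h4 := lv_upper c s
      rw [h3] at h4
      obtain ⟨r, rfl⟩ := h2
      rw [mem_coe, mem_Ico]
      dsimp only
      rw [Nat.mul_div_cancel_left _ hpos]
      have h5 : 2 ^ (k + 2) = 4 * 2 ^ k := by ring
      constructor
      · rw [hr₀, ← Nat.lt_succ_iff, Nat.div_lt_iff_lt_mul hpos, Nat.succ_mul, mul_comm r]
        omega
      · have h6 := Nat.lt_div_mul_add (a := c + 2 ^ k - 1) (b := 2 ^ k) hpos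
        rw [← hr₀] at h6
        have h7 : 2 ^ k * r < 2 ^ k * (r₀ + 4) := by
          rw [mul_add, mul_comm (2 ^ k) r₀]
          omega
        exact Nat.lt_of_mul_lt_mul_left h7
    · intro s hs s' hs' h
      rw [mem_coe, mem_filter] at hs hs'
      obtain ⟨-, ⟨-, h2⟩, h3⟩ := hs
      obtain ⟨-, ⟨-, h2'⟩, h3'⟩ := hs'
      rw [h3] at h2
      rw [h3'] at h2'
      obtain ⟨r, rfl⟩ := h2
      obtain ⟨r', rfl⟩ := h2'
      dsimp only at h
      rw [Nat.mul_div_cancel_left _ hpos, Nat.mul_div_cancel_left _ hpos] at h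
      rw [h]
  rw [Nat.card_Ico] at h1
  omega

theorem stDY : StDY :=
  ⟨fun k m => ⟨ds_le k m, lt_ds k m⟩, fun _ _ h => lv_spec h, lv_upper, fun _ _ _ h => lv_const h, beg_card⟩

end Pool.Agent.L0h87.Q4
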