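import Pool.Agent.L0h87.Q4.CN

/-!
# Moments and exponential moments (helper63)
-/

set_option autoImplicit false

namespace Pool.Agent.L0h87.Q4

open Finset Real

theorem bk_zero_eq (q : ℕ) : bk q 0 = (q : ℝ) ^ (1 / 4 : ℝ) := by
  unfold bk
  simp

theorem bk_le_two (q j : ℕ) : bk q j ≤ bk q 0 * 2 ^ j := by
  rw [bk_zero_eq]
  unfold bk
  rw [mul_rpow (by positivity) (by positivity), mul_assoc]
  refine mul_le_mul_of_nonneg_left ?_ (by positivity)
  have h3 : ((j : ℝ) + 1) ≤ 2 ^ j := by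
    have : j + 1 ≤ 2 ^ j := Nat.lt_two_pow_self
    exact_mod_cast this
  have h4 : (1 : ℝ) ≤ 2 ^ j := one_le_pow₀ (by norm_num)
  calc ((2 : ℝ) ^ j) ^ (1 / 4 : ℝ) * ((j : ℝ) + 1) ^ (1 / 2 : ℝ)
      ≤ ((2 : ℝ) ^ j) ^ (1 / 4 : ℝ) * ((2 : ℝ) ^ j) ^ (1 / 2 : ℝ) :=
        mul_le_mul_of_nonneg_left (rpow_le_rpow (by positivity) h3 (by norm_num)) (by positivity)
    _ = ((2 : ℝ) ^ j) ^ (3 / 4 : ℝ) := by
        rw [← rpow_add (by positivity)]
        norm_num
    _ ≤ ((2 : ℝ) ^ j) ^ (1 : ℝ) := rpow_le_rpow_of_exponent_le h4 (by norm_num)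
    _ = 2 ^ j := rpow_one _

theorem one_le_bk_zero {q : ℕ} (hq : 1 ≤ q) : 1 ≤ bk q 0 := by
  rw [bk_zero_eq]
  exact one_le_rpow (by exact_mod_cast hq) (by norm_num)

theorem bk_tendsto {q : ℕ} (hq : 1 ≤ q) : Filter.Tendsto (fun k => bk q k) Filter.atTop Filter.atTop := by
  have h1 : ∀ k, (7 / 6 : ℝ) ^ k ≤ bk q k := by
    intro k
    induction k with
    | zero =>
      rw [pow_zero]
      exact one_le_bk_zero hq
    | succ k ih =>
      have := bk_step q k
      rw [pow_succ]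
      linarith
  exact Filter.tendsto_atTop_mono h1 (tendsto_pow_atTop_atTop_of_one_lt (by norm_num))

/-- the decomposition into layers -/
theorem layer {G : ℝ → ℝ} (hG0 : ∀ x, 0 ≤ x → 0 ≤ G x) (hG : ∀ x y, 0 ≤ x → x ≤ y → G x ≤ G y) {B : ℕ → ℝ}
    (hB : ∀ k, 0 ≤ B k) {x : ℝ} (hx : 0 ≤ x) (n : ℕ) (hn : x ≤ B n) :
    G x ≤ G (B 0) + ∑ k ∈ range n, (if B k < x then G (B (k + 1)) else 0) := by
  induction n with
  | zero =>
    rw [sum_range_zero, add_zero]
    exact hG _ _ hx hn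
  | succ n ih =>
    rw [sum_range_succ]
    by_cases h : B n < x
    · rw [if_pos h]
      have h1 : 0 ≤ ∑ k ∈ range n, (if B k < x then G (B (k + 1)) else 0) := by
        refine sum_nonneg fun k _ => ?_
        split_ifs
        · exact hG0 _ (hB _)
        · exact le_rfl
      have h2 := hG0 _ (hB 0)
      have h3 := hG _ _ hx hn
      linarith
    · rw [if_neg h, add_zero]
      exact ih (not_lt.1 h)

theorem quarter_sum (n : ℕ) : ∑ k ∈ range n, (1 / 4 : ℝ) ^ (k + 1) ≤ 1 / 3 := by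
  have h : ∀ n : ℕ, ∑ k ∈ range n, (1 / 4 : ℝ) ^ (k + 1) = 1 / 3 - 1 / 3 * (1 / 4) ^ n := by
    intro n
    induction n with
    | zero => simp
    | succ n ih =>
      rw [sum_range_succ, ih, pow_succ]
      ring
  rw [h]
  have : 0 ≤ (1 / 4 : ℝ) ^ n := by positivity
  linarith

theorem pow_small {q : ℕ} (hq : 1 ≤ q) (k : ℕ) : (1 / 4 : ℝ) ^ (q * 2 ^ k) ≤ (1 / 4) ^ (k + 1) := by
  refine pow_le_pow_of_le_one (by norm_num) (by norm_num) ?_
  calc k + 1 ≤ 2 ^ k := Nat.lt_two_pow_self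
    _ = 1 * 2 ^ k := (one_mul _).symm
    _ ≤ q * 2 ^ k := Nat.mul_le_mul_right _ hq

/-- the general bound -/
theorem layer_sum {K q : ℕ} {p X : Fin K → ℝ} {A : ℝ} (hq : 1 ≤ q) (hA : 0 < A) (hp : ∀ r, 0 ≤ p r)
    (hp1 : ∑ r, p r = 1) (hX : ∀ r, 0 ≤ X r)
    (ht : ∀ k : ℕ, ∑ r, (if A * bk q k < X r then p r else 0) ≤ (1 / 16) ^ (q * 2 ^ k)) {G : ℝ → ℝ}
    (hG0 : ∀ x, 0 ≤ x → 0 ≤ G x) (hG : ∀ x y, 0 ≤ x → x ≤ y → G x ≤ G y) {c d : ℝ} (hd : 0 ≤ d)
    (h0 : G (A * bk q 0) ≤ c)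
    (h1 : ∀ k, G (A * bk q (k + 1)) * (1 / 16) ^ (q * 2 ^ k) ≤ d * (1 / 4) ^ (k + 1)) :
    ∑ r, p r * G (X r) ≤ c + d * (1 / 3) := by
  have hev : ∀ᶠ k in Filter.atTop, ∀ r, X r ≤ A * bk q k := by
    rw [Filter.eventually_all]
    intro r
    exact ((bk_tendsto hq).const_mul_atTop hA).eventually_ge_atTop (X r)
  obtain ⟨n, hn⟩ := hev.exists
  have hB : ∀ k, 0 ≤ A * bk q k := fun k => mul_nonneg hA.le (bk_nonneg q k)
  have h2 : ∑ r, p r * G (X r) ≤ ∑ r, p r * (G (A * bk q 0) +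
      ∑ k ∈ range n, (if A * bk q k < X r then G (A * bk q (k + 1)) else 0)) :=
    sum_le_sum fun r _ => mul_le_mul_of_nonneg_left (layer hG0 hG hB (hX r) n (hn r)) (hp r)
  have h3 : ∑ r, p r * (G (A * bk q 0) +
      ∑ k ∈ range n, (if A * bk q k < X r then G (A * bk q (k + 1)) else 0)) =
      G (A * bk q 0) + ∑ k ∈ range n, G (A * bk q (k + 1)) *
        ∑ r, (if A * bk q k < X r then p r else 0) := by
    simp only [mul_add]
    rw [sum_add_distrib, ← sum_mul, hp1, one_mul]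
    congr 1
    simp only [mul_sum]
    rw [sum_comm]
    refine sum_congr rfl fun k _ => sum_congr rfl fun r _ => ?_
    split_ifs <;> ring
  rw [h3] at h2
  refine h2.trans (add_le_add h0 ?_)
  calc ∑ k ∈ range n, G (A * bk q (k + 1)) * ∑ r, (if A * bk q k < X r then p r else 0)
      ≤ ∑ k ∈ range n, d * (1 / 4 : ℝ) ^ (k + 1) :=
        sum_le_sum fun k _ => (mul_le_mul_of_nonneg_left (ht k) (hG0 _ (hB _))).trans (h1 k)
    _ = d * ∑ k ∈ range n, (1 / 4 : ℝ) ^ (k + 1) := by rw [mul_sum]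
    _ ≤ d * (1 / 3) := mul_le_mul_of_nonneg_left (quarter_sum n) hd

theorem sq_bound (k : ℕ) : 2 * ((k : ℝ) + 2) ^ 2 ≤ 9 * 2 ^ k := by
  induction k with
  | zero => norm_num
  | succ k ih =>
    rcases Nat.eq_zero_or_pos k with rfl | hk
    · norm_num
    · have h1 : (1 : ℝ) ≤ k := by exact_mod_cast hk
      have h2 : (2 : ℝ) ^ (k + 1) = 2 * 2 ^ k := by ring
      rw [h2]
      push_cast
      nlinarith

theorem stEX : StEX := by
  intro K q p X A hq hA hp hp1 hX ht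
  have hb0 := one_le_bk_zero hq
  refine ⟨fun s hs1 hsq => ?_, ?_⟩
  · have hs0 : 0 ≤ s := by linarith
    set c : ℝ := (A * bk q 0) ^ s with hc
    have hc0 : 0 ≤ c := by positivity
    have h := layer_sum hq hA hp hp1 hX ht (G := fun x => x ^ s) (c := c) (d := c)
      (fun x hx => rpow_nonneg hx s) (fun x y hx hxy => rpow_le_rpow hx hxy hs0) hc0 le_rfl (fun k => by
        have h1 : (A * bk q (k + 1)) ^ s ≤ c * 2 ^ (q * 2 ^ k) := by
          calc (A * bk q (k + 1)) ^ s ≤ (A * bk q 0 * 2 ^ (k + 1)) ^ s := by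
                refine rpow_le_rpow (mul_nonneg hA.le (bk_nonneg _ _)) ?_ hs0
                rw [mul_assoc]
                exact mul_le_mul_of_nonneg_left (bk_le_two q (k + 1)) hA.le
            _ = c * ((2 : ℝ) ^ (k + 1)) ^ s := mul_rpow (by positivity) (by positivity)
            _ ≤ c * 2 ^ (q * 2 ^ k) := by
                refine mul_le_mul_of_nonneg_left ?_ hc0
                calc ((2 : ℝ) ^ (k + 1)) ^ s ≤ ((2 : ℝ) ^ (k + 1)) ^ (q : ℝ) :=
                      rpow_le_rpow_of_exponent_le (one_le_pow₀ (by norm_num)) hsq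
                  _ = 2 ^ ((k + 1) * q) := by rw [rpow_natCast, ← pow_mul]
                  _ ≤ 2 ^ (q * 2 ^ k) := by
                      refine pow_le_pow_right₀ (by norm_num) ?_
                      rw [mul_comm]
                      exact Nat.mul_le_mul_left _ Nat.lt_two_pow_self
        have h2 : (0 : ℝ) ≤ (1 / 16) ^ (q * 2 ^ k) := by positivity
        calc (A * bk q (k + 1)) ^ s * (1 / 16) ^ (q * 2 ^ k)
            ≤ c * 2 ^ (q * 2 ^ k) * (1 / 16) ^ (q * 2 ^ k) := mul_le_mul_of_nonneg_right h1 h2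
          _ = c * (1 / 8) ^ (q * 2 ^ k) := by
              rw [mul_assoc, ← mul_pow]
              norm_num
          _ ≤ c * (1 / 4) ^ (q * 2 ^ k) := by
              refine mul_le_mul_of_nonneg_left ?_ hc0
              exact pow_le_pow_left₀ (by norm_num) (by norm_num) _
          _ ≤ c * (1 / 4) ^ (k + 1) := mul_le_mul_of_nonneg_left (pow_small hq k) hc0)
    refine h.trans ?_
    have h2 : (2 * A * (q : ℝ) ^ (1 / 4 : ℝ)) ^ s = 2 ^ s * c := by
      rw [hc, bk_zero_eq, mul_assoc, mul_rpow (by norm_num) (by positivity)]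
    rw [h2]
    have h3 : (2 : ℝ) ^ (1 : ℝ) ≤ 2 ^ s := rpow_le_rpow_of_exponent_le (by norm_num) hs1
    rw [rpow_one] at h3
    nlinarith
  · have hA2 : 0 < A ^ 2 := by positivity
    have hsq : ∀ k, (bk q k) ^ 2 = √(q : ℝ) * √(2 ^ k : ℝ) * ((k : ℝ) + 1) := by
      intro k
      unfold bk
      have e1 : (((q : ℝ) * 2 ^ k) ^ (1 / 4 : ℝ)) ^ 2 = √(q : ℝ) * √(2 ^ k : ℝ) := by
        rw [← rpow_natCast, ← rpow_mul (by positivity), show (1 / 4 : ℝ) * ((2 : ℕ) : ℝ) = 1 / 2 by norm_num,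
          ← sqrt_eq_rpow, Real.sqrt_mul (by positivity)]
      have e2 : (((k : ℝ) + 1) ^ (1 / 2 : ℝ)) ^ 2 = (k : ℝ) + 1 := by
        rw [← rpow_natCast, ← rpow_mul (by positivity), show (1 / 2 : ℝ) * ((2 : ℕ) : ℝ) = 1 by norm_num,
          rpow_one]
      rw [mul_pow, e1, e2]
    have hval : ∀ k, √(q : ℝ) / (3 * A ^ 2) * (A * bk q k) ^ 2 = q / 3 * √(2 ^ k : ℝ) * ((k : ℝ) + 1) := by
      intro k
      rw [mul_pow, hsq]
      have h1 : √(q : ℝ) * √(q : ℝ) = q := Real.mul_self_sqrt (Nat.cast_nonneg q)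
      field_simp
      nlinarith
    have h := layer_sum hq hA hp hp1 hX ht (G := fun x => exp (√(q : ℝ) / (3 * A ^ 2) * x ^ 2))
      (c := exp (q / 3)) (d := 1) (fun x _ => (exp_pos _).le) (fun x y hx hxy => by
        rw [exp_le_exp]
        refine mul_le_mul_of_nonneg_left ?_ (by positivity)
        exact pow_le_pow_left₀ hx hxy 2) (by norm_num) (by
        rw [hval]
        simp) (fun k => by
        rw [hval]
        have h1 : (q : ℝ) / 3 * √(2 ^ (k + 1) : ℝ) * (((k + 1 : ℕ) : ℝ) + 1) ≤ ((q * 2 ^ k : ℕ) : ℝ) := by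
          have h2 : √(2 ^ (k + 1) : ℝ) * ((k : ℝ) + 2) ≤ 3 * 2 ^ k := by
            have h3 := sq_bound k
            have h4 : (√(2 ^ (k + 1) : ℝ) * ((k : ℝ) + 2)) ^ 2 ≤ (3 * 2 ^ k) ^ 2 := by
              rw [mul_pow, Real.sq_sqrt (by positivity), pow_succ (2 : ℝ) k]
              have h5 : (0 : ℝ) < 2 ^ k := by positivity
              nlinarith
            exact le_of_sq_le_sq h4 (by positivity)
          push_cast
          have h3 : (0 : ℝ) ≤ q := Nat.cast_nonneg q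
          nlinarith
        have h2 : exp ((q : ℝ) / 3 * √(2 ^ (k + 1) : ℝ) * (((k + 1 : ℕ) : ℝ) + 1)) ≤ (4 : ℝ) ^ (q * 2 ^ k) := by
          calc exp ((q : ℝ) / 3 * √(2 ^ (k + 1) : ℝ) * (((k + 1 : ℕ) : ℝ) + 1)) ≤ exp ((q * 2 ^ k : ℕ) : ℝ) :=
                exp_le_exp.2 h1
            _ = exp 1 ^ (q * 2 ^ k) := by rw [← exp_nat_mul, mul_one]
            _ ≤ 4 ^ (q * 2 ^ k) := by
                refine pow_le_pow_left₀ (exp_pos _).le ?_ _
                have := Real.exp_one_lt_d9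
                linarith
        calc exp ((q : ℝ) / 3 * √(2 ^ (k + 1) : ℝ) * (((k + 1 : ℕ) : ℝ) + 1)) * (1 / 16) ^ (q * 2 ^ k)
            ≤ 4 ^ (q * 2 ^ k) * (1 / 16) ^ (q * 2 ^ k) := mul_le_mul_of_nonneg_right h2 (by positivity)
          _ = (1 / 4) ^ (q * 2 ^ k) := by
              rw [← mul_pow]
              norm_num
          _ ≤ 1 * (1 / 4) ^ (k + 1) := by
              rw [one_mul]
              exact pow_small hq k)
    refine h.trans ?_
    have hq1 : (1 : ℝ) ≤ q := by exact_mod_cast hq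
    set y : ℝ := exp (q / 3) with hy
    have hy1 : 4 / 3 ≤ y := by
      have := Real.add_one_le_exp ((q : ℝ) / 3)
      linarith
    have h3 : exp (q : ℝ) = y ^ 3 := by
      rw [hy, ← exp_nat_mul]
      congr 1
      push_cast
      ring
    rw [h3]
    nlinarith [mul_nonneg (show (0 : ℝ) ≤ y - 4 / 3 by linarith) (show (0 : ℝ) ≤ y by linarith),
      mul_nonneg (mul_nonneg (show (0 : ℝ) ≤ y - 4 / 3 by linarith) (show (0 : ℝ) ≤ y by linarith)) (show (0 : ℝ) ≤ y by linarith)]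

end Pool.Agent.L0h87.Q4
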