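import Pool.Agent.L0h87.Q4.Stm2
import Pool.Agent.L0h87.Q4.EX

/-!
# Exponential moments
-/

set_option autoImplicit false

namespace Pool.Agent.L0h87.Q4

open Finset Real

/-- the general bound -/
theorem layer_sum' {K q : ℕ} {p X : Fin K → ℝ} (hp : ∀ r, 0 ≤ p r)
    (hp1 : ∑ r, p r = 1) (hX : ∀ r, 0 ≤ X r) (B : ℕ → ℝ) (hB : ∀ k, 0 ≤ B k)
    (hBt : ∀ R : ℝ, ∃ n, ∀ k, n ≤ k → R ≤ B k)
    (ht : ∀ k : ℕ, ∑ r, (if B k < X r then p r else 0) ≤ (1 / 16) ^ (q * 2 ^ k)) {G : ℝ → ℝ}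
    (hG0 : ∀ x, 0 ≤ x → 0 ≤ G x) (hG : ∀ x y, 0 ≤ x → x ≤ y → G x ≤ G y) {c d : ℝ} (hd : 0 ≤ d)
    (h0 : G (B 0) ≤ c)
    (h1 : ∀ k, G (B (k + 1)) * (1 / 16) ^ (q * 2 ^ k) ≤ d * (1 / 4) ^ (k + 1)) :
    ∑ r, p r * G (X r) ≤ c + d * (1 / 3) := by
  obtain ⟨n, hn⟩ : ∃ n, ∀ r, X r ≤ B n := by
    choose f hf using fun r => hBt (X r)
    exact ⟨Finset.univ.sup f, fun r => hf r _ (Finset.le_sup (Finset.mem_univ r))⟩
  have h2 : ∑ r, p r * G (X r) ≤ ∑ r, p r * (G (B 0) +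
      ∑ k ∈ range n, (if B k < X r then G (B (k + 1)) else 0)) :=
    sum_le_sum fun r _ => mul_le_mul_of_nonneg_left (layer hG0 hG hB (hX r) n (hn r)) (hp r)
  have h3 : ∑ r, p r * (G (B 0) +
      ∑ k ∈ range n, (if B k < X r then G (B (k + 1)) else 0)) =
      G (B 0) + ∑ k ∈ range n, G (B (k + 1)) *
        ∑ r, (if B k < X r then p r else 0) := by
    simp only [mul_add]
    rw [sum_add_distrib, ← sum_mul, hp1, one_mul]
    congr 1
    simp only [mul_sum]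
    rw [sum_comm]
    refine sum_congr rfl fun k _ => sum_congr rfl fun r _ => ?_
    split_ifs <;> ring
  rw [h3] at h2
  refine h2.trans (add_le_add h0 ?_)
  calc ∑ k ∈ range n, G (B (k + 1)) * ∑ r, (if B k < X r then p r else 0)
      ≤ ∑ k ∈ range n, d * (1 / 4 : ℝ) ^ (k + 1) :=
        sum_le_sum fun k _ => (mul_le_mul_of_nonneg_left (ht k) (hG0 _ (hB _))).trans (h1 k)
    _ = d * ∑ k ∈ range n, (1 / 4 : ℝ) ^ (k + 1) := by rw [mul_sum]
    _ ≤ d * (1 / 3) := mul_le_mul_of_nonneg_left (quarter_sum n) hd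

theorem bk_sq_eq (q k : ℕ) : bk q k ^ 2 = √(q : ℝ) * √(2 ^ k : ℝ) * ((k : ℝ) + 1) := by
  unfold bk
  have e1 : (((q : ℝ) * 2 ^ k) ^ (1 / 4 : ℝ)) ^ 2 = √(q : ℝ) * √(2 ^ k : ℝ) := by
    rw [← rpow_natCast, ← rpow_mul (by positivity), show (1 / 4 : ℝ) * ((2 : ℕ) : ℝ) = 1 / 2 by norm_num,
      ← sqrt_eq_rpow, Real.sqrt_mul (by positivity)]
  have e2 : (((k : ℝ) + 1) ^ (1 / 2 : ℝ)) ^ 2 = (k : ℝ) + 1 := by
    rw [← rpow_natCast, ← rpow_mul (by positivity), show (1 / 2 : ℝ) * ((2 : ℕ) : ℝ) = 1 by norm_num,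
      rpow_one]
  rw [mul_pow, e1, e2]

theorem bd_nonneg (δ : ℝ) (h0 : 0 < δ) (h1 : δ ≤ 1) (q k : ℕ) : 0 ≤ bd δ q k := by
  have hl : 0 ≤ Real.log (1 / δ) := Real.log_nonneg (by rw [le_div_iff₀ h0]; linarith)
  unfold bd
  apply le_min (bk_nonneg q k)
  positivity

theorem bd_ge (δ : ℝ) (h0 : 0 < δ) (h1 : δ ≤ 1) (q k : ℕ) (hq : 1 ≤ q) :
    √((k : ℝ) + 1) ≤ bd δ q k := by
  have hl : 0 ≤ Real.log (1 / δ) := Real.log_nonneg (by rw [le_div_iff₀ h0]; linarith)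
  have hqR : (1 : ℝ) ≤ q := by exact_mod_cast hq
  have hk : (0 : ℝ) ≤ k := Nat.cast_nonneg k
  have h3 := Real.sqrt_nonneg ((k : ℝ) + 1)
  unfold bd
  apply le_min
  · have h4 : (1 : ℝ) ≤ (q : ℝ) * 2 ^ k := by
      have : (1 : ℝ) ≤ 2 ^ k := one_le_pow₀ (by norm_num)
      nlinarith
    unfold bk
    rw [← Real.sqrt_eq_rpow]
    have h2 : (1 : ℝ) ≤ ((q : ℝ) * 2 ^ k) ^ (1 / 4 : ℝ) := Real.one_le_rpow h4 (by norm_num)
    nlinarith
  · have h4 : Real.sqrt ((k : ℝ) + 1) ≤ (k : ℝ) + 1 := by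
      rw [Real.sqrt_le_left (by positivity)]; nlinarith
    have : 0 ≤ δ * (1 + Real.log (1 / δ)) ^ (3 / 2 : ℝ) * bk q k ^ 2 := by positivity
    linarith

/-- second bound, many levels -/
theorem far_level (δ : ℝ) (h0 : 0 < δ) (k : ℕ) (hk : 40 * (1 + Real.log (1 / δ)) < (k : ℝ) + 2) :
    2 * ((k : ℝ) + 2) ^ 2 ≤ 25 * δ ^ 2 * 2 ^ k := by
  set y := Real.log (1 / δ) with hy
  have hδ : δ = exp (-y) := by
    rw [hy, one_div, Real.log_inv, neg_neg, Real.exp_log h0]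
  have hk0 : (0 : ℝ) ≤ k := Nat.cast_nonneg k
  have h2 : (2 : ℝ) ^ k = exp (k * Real.log 2) := by
    rw [mul_comm, Real.exp_mul, Real.exp_log (by norm_num), Real.rpow_natCast]
  have h3 : δ ^ 2 * 2 ^ k = exp (-2 * y + k * Real.log 2) := by
    rw [hδ, h2, ← exp_nat_mul, ← exp_add]
    congr 1
    push_cast; ring
  have h4 : ((k : ℝ) + 2) / 2 ≤ -2 * y + k * Real.log 2 := by
    have := Real.log_two_gt_d9
    nlinarith
  have h5 : ((k : ℝ) + 2) ^ 2 / 8 ≤ exp (((k : ℝ) + 2) / 2) := by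
    have h6 := Real.quadratic_le_exp_of_nonneg (show 0 ≤ ((k : ℝ) + 2) / 2 by positivity)
    nlinarith
  have h6 := exp_le_exp.mpr h4
  rw [← h3] at h6
  nlinarith

theorem bd_level (δ : ℝ) (h0 : 0 < δ) (h1 : δ ≤ 1) (q k : ℕ) (hq : 1 ≤ q) :
    bd δ q (k + 1) ^ 2 ≤ 6400 * Sd δ q ^ 2 * 2 ^ k := by
  have hl : 0 ≤ Real.log (1 / δ) := Real.log_nonneg (by rw [le_div_iff₀ h0]; linarith)
  have hqR : (1 : ℝ) ≤ q := by exact_mod_cast hq
  set L : ℝ := 1 + Real.log (1 / δ) with hL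
  have hL1 : 1 ≤ L := by linarith
  have hbd0 := bd_nonneg δ h0 h1 q (k + 1)
  have hbdk : bd δ q (k + 1) ≤ bk q (k + 1) := min_le_left _ _
  have hsq := bk_sq_eq q (k + 1)
  have h2k : (0 : ℝ) < 2 ^ k := by positivity
  have hsk : √(2 ^ (k + 1) : ℝ) * ((k : ℝ) + 2) ≤ 3 * 2 ^ k := by
    have h3 := sq_bound k
    have h4 : (√(2 ^ (k + 1) : ℝ) * ((k : ℝ) + 2)) ^ 2 ≤ (3 * 2 ^ k) ^ 2 := by
      rw [mul_pow, Real.sq_sqrt (by positivity), pow_succ (2 : ℝ) k]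
      nlinarith
    exact le_of_sq_le_sq h4 (by positivity)
  have hcast : (((k + 1 : ℕ) : ℝ) + 1) = (k : ℝ) + 2 := by push_cast; ring
  rw [hcast] at hsq
  have hsqq : 0 ≤ √(q : ℝ) := Real.sqrt_nonneg _
  have hSdef : Sd δ q = min ((q : ℝ) ^ (1 / 4 : ℝ)) (1 + δ * L ^ (5 / 2 : ℝ) * √(q : ℝ)) := rfl
  set G : ℝ := δ * L ^ (5 / 2 : ℝ) with hG
  have hG0 : 0 ≤ G := by positivity
  rcases le_total ((q : ℝ) ^ (1 / 4 : ℝ)) (1 + G * √(q : ℝ)) with h | h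
  · rw [min_eq_left h] at hSdef
    have h5 : Sd δ q ^ 2 = √(q : ℝ) := by
      rw [hSdef, ← rpow_natCast, ← rpow_mul (by positivity),
        show (1 / 4 : ℝ) * ((2 : ℕ) : ℝ) = 1 / 2 by norm_num, ← sqrt_eq_rpow]
    rw [h5]
    calc bd δ q (k + 1) ^ 2 ≤ bk q (k + 1) ^ 2 := pow_le_pow_left₀ hbd0 hbdk 2
      _ = √(q : ℝ) * (√(2 ^ (k + 1) : ℝ) * ((k : ℝ) + 2)) := by rw [hsq]; ring
      _ ≤ √(q : ℝ) * (3 * 2 ^ k) := mul_le_mul_of_nonneg_left hsk hsqq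
      _ ≤ _ := by nlinarith [mul_nonneg hsqq h2k.le]
  · rw [min_eq_right h] at hSdef
    rw [hSdef]
    have hS1 : (1 : ℝ) ≤ 1 + G * √(q : ℝ) := by
      have : 0 ≤ G * √(q : ℝ) := by positivity
      linarith
    have hS2 : 1 + G ^ 2 * q ≤ (1 + G * √(q : ℝ)) ^ 2 := by
      have e1 : √(q : ℝ) ^ 2 = q := Real.sq_sqrt (by positivity)
      have e2 : 0 ≤ G * √(q : ℝ) := by positivity
      nlinarith
    by_cases hk : (k : ℝ) + 2 ≤ 40 * L
    · -- near levels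
      set g : ℝ := δ * L ^ (3 / 2 : ℝ) with hg
      have hg0 : 0 ≤ g := by positivity
      have hgG : g * L = G := by
        rw [hg, hG, mul_assoc]
        congr 1
        rw [← Real.rpow_add_one (by positivity)]
        norm_num
      have h6 : bd δ q (k + 1) ≤ ((k : ℝ) + 2) + g * bk q (k + 1) ^ 2 := by
        have h : bd δ q (k + 1) = min (bk q (k + 1)) ((((k + 1 : ℕ) : ℝ) + 1) +
          g * bk q (k + 1) ^ 2) := rfl
        rw [h, hcast]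
        exact min_le_right _ _
      have h7 : bd δ q (k + 1) ^ 2 ≤ 2 * ((k : ℝ) + 2) ^ 2 + 2 * (g * bk q (k + 1) ^ 2) ^ 2 := by
        have h8 : bd δ q (k + 1) ^ 2 ≤ (((k : ℝ) + 2) + g * bk q (k + 1) ^ 2) ^ 2 :=
          pow_le_pow_left₀ hbd0 h6 2
        nlinarith [sq_nonneg (((k : ℝ) + 2) - g * bk q (k + 1) ^ 2)]
      have h9 : (g * bk q (k + 1) ^ 2) ^ 2 ≤ 3200 * (G ^ 2 * q) * 2 ^ k := by
        have e1 : √(q : ℝ) ^ 2 = q := Real.sq_sqrt (by positivity)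
        have e2 : √(2 ^ (k + 1) : ℝ) ^ 2 = 2 ^ (k + 1) := Real.sq_sqrt (by positivity)
        have e3 : (g * bk q (k + 1) ^ 2) ^ 2 = (g * ((k : ℝ) + 2)) ^ 2 * q * 2 ^ (k + 1) := by
          rw [hsq]
          calc (g * (√(q : ℝ) * √(2 ^ (k + 1) : ℝ) * ((k : ℝ) + 2))) ^ 2
              = (g * ((k : ℝ) + 2)) ^ 2 * √(q : ℝ) ^ 2 * √(2 ^ (k + 1) : ℝ) ^ 2 := by ring
            _ = _ := by rw [e1, e2]
        have e4 : g * ((k : ℝ) + 2) ≤ 40 * G := by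
          calc g * ((k : ℝ) + 2) ≤ g * (40 * L) := mul_le_mul_of_nonneg_left hk hg0
            _ = 40 * (g * L) := by ring
            _ = 40 * G := by rw [hgG]
        have e5 : (g * ((k : ℝ) + 2)) ^ 2 ≤ (40 * G) ^ 2 := pow_le_pow_left₀ (by positivity) e4 2
        rw [e3, pow_succ (2 : ℝ) k]
        calc (g * ((k : ℝ) + 2)) ^ 2 * q * (2 ^ k * 2) ≤ (40 * G) ^ 2 * q * (2 ^ k * 2) := by
              apply mul_le_mul_of_nonneg_right _ (by positivity)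
              exact mul_le_mul_of_nonneg_right e5 (by positivity)
          _ = _ := by ring
      have h10 := sq_bound k
      calc bd δ q (k + 1) ^ 2 ≤ 9 * 2 ^ k + 2 * (3200 * (G ^ 2 * q) * 2 ^ k) := by linarith
        _ ≤ 6400 * (1 + G ^ 2 * q) * 2 ^ k := by nlinarith
        _ ≤ 6400 * (1 + G * √(q : ℝ)) ^ 2 * 2 ^ k := by
            apply mul_le_mul_of_nonneg_right _ h2k.le
            linarith
    · -- far levels
      push Not at hk
      have h6 := far_level δ h0 k hk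
      have h7 : √(2 ^ (k + 1) : ℝ) * ((k : ℝ) + 2) ≤ 5 * δ * 2 ^ k := by
        have h4 : (√(2 ^ (k + 1) : ℝ) * ((k : ℝ) + 2)) ^ 2 ≤ (5 * δ * 2 ^ k) ^ 2 := by
          rw [mul_pow, Real.sq_sqrt (by positivity), pow_succ (2 : ℝ) k]
          nlinarith [mul_le_mul_of_nonneg_right h6 h2k.le]
        exact le_of_sq_le_sq h4 (by positivity)
      have hδG : δ ≤ G := by
        rw [hG]
        have : (1 : ℝ) ≤ L ^ (5 / 2 : ℝ) := Real.one_le_rpow hL1 (by norm_num)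
        nlinarith
      calc bd δ q (k + 1) ^ 2 ≤ bk q (k + 1) ^ 2 := pow_le_pow_left₀ hbd0 hbdk 2
        _ = √(q : ℝ) * (√(2 ^ (k + 1) : ℝ) * ((k : ℝ) + 2)) := by rw [hsq]; ring
        _ ≤ √(q : ℝ) * (5 * δ * 2 ^ k) := mul_le_mul_of_nonneg_left h7 hsqq
        _ ≤ √(q : ℝ) * (5 * G * 2 ^ k) := by
            apply mul_le_mul_of_nonneg_left _ hsqq
            apply mul_le_mul_of_nonneg_right _ h2k.le
            linarith
        _ = 5 * (G * √(q : ℝ)) * 2 ^ k := by ring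
        _ ≤ 6400 * (1 + G * √(q : ℝ)) ^ 2 * 2 ^ k := by
            apply mul_le_mul_of_nonneg_right _ h2k.le
            have e2 : 0 ≤ G * √(q : ℝ) := by positivity
            nlinarith

theorem bd_zero (δ : ℝ) (h0 : 0 < δ) (h1 : δ ≤ 1) (q : ℕ) (hq : 1 ≤ q) :
    bd δ q 0 ≤ Sd δ q := by
  have hl : 0 ≤ Real.log (1 / δ) := Real.log_nonneg (by rw [le_div_iff₀ h0]; linarith)
  unfold bd Sd
  apply min_le_min
  · rw [bk_zero_eq]
  · rw [bk_sq_eq]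
    simp only [pow_zero, Real.sqrt_one, mul_one, CharP.cast_eq_zero, zero_add]
    have h3 : (1 + Real.log (1 / δ)) ^ (3 / 2 : ℝ) ≤ (1 + Real.log (1 / δ)) ^ (5 / 2 : ℝ) :=
      Real.rpow_le_rpow_of_exponent_le (by linarith) (by norm_num)
    have h4 : δ * (1 + Real.log (1 / δ)) ^ (3 / 2 : ℝ) * √(q : ℝ) ≤
        δ * (1 + Real.log (1 / δ)) ^ (5 / 2 : ℝ) * √(q : ℝ) := by
      apply mul_le_mul_of_nonneg_right _ (Real.sqrt_nonneg _)
      exact mul_le_mul_of_nonneg_left h3 h0.le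
    linarith

theorem stEXD : StEXD := by
  refine ⟨6400, by norm_num, ?_⟩
  intro K q p X A δ hq hA h0 h1 hp hp1 hX ht
  have hqR : (1 : ℝ) ≤ q := by exact_mod_cast hq
  have hl : 0 ≤ Real.log (1 / δ) := Real.log_nonneg (by rw [le_div_iff₀ h0]; linarith)
  have hS : 0 < Sd δ q := by
    unfold Sd
    apply lt_min <;> positivity
  have hB0 : ∀ k, 0 ≤ A * bd δ q k := fun k => mul_nonneg hA.le (bd_nonneg δ h0 h1 q k)
  have h := layer_sum' (q := q) hp hp1 hX (fun k => A * bd δ q k) hB0 (fun R => by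
      obtain ⟨k₀, hk₀⟩ := exists_nat_gt ((R / A) ^ 2)
      refine ⟨k₀, fun k hk => ?_⟩
      have h1' : (k₀ : ℝ) ≤ k := by exact_mod_cast hk
      have h2 : R / A ≤ bd δ q k := by
        calc R / A ≤ |R / A| := le_abs_self _
          _ = √((R / A) ^ 2) := (Real.sqrt_sq_eq_abs _).symm
          _ ≤ √((k : ℝ) + 1) := Real.sqrt_le_sqrt (by linarith)
          _ ≤ _ := bd_ge δ h0 h1 q k hq
      rw [div_le_iff₀ hA] at h2
      linarith) ht (G := fun x => exp ((q : ℝ) / (6400 * A ^ 2 * Sd δ q ^ 2) * x ^ 2))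
    (c := exp (q / 3)) (d := 1) (fun x _ => (exp_pos _).le) (fun x y hx hxy => by
      rw [exp_le_exp]
      refine mul_le_mul_of_nonneg_left ?_ (by positivity)
      exact pow_le_pow_left₀ hx hxy 2) (by norm_num) (by
      rw [exp_le_exp, mul_pow, div_mul_eq_mul_div, div_le_iff₀ (by positivity)]
      have h3 : bd δ q 0 ^ 2 ≤ Sd δ q ^ 2 :=
        pow_le_pow_left₀ (bd_nonneg δ h0 h1 q 0) (bd_zero δ h0 h1 q hq) 2
      have h4 : A ^ 2 * bd δ q 0 ^ 2 ≤ A ^ 2 * Sd δ q ^ 2 :=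
        mul_le_mul_of_nonneg_left h3 (by positivity)
      have h5 : (q : ℝ) * (A ^ 2 * bd δ q 0 ^ 2) ≤ q * (A ^ 2 * Sd δ q ^ 2) :=
        mul_le_mul_of_nonneg_left h4 (by positivity)
      have h6 : 0 ≤ (q : ℝ) * (A ^ 2 * Sd δ q ^ 2) := by positivity
      calc (q : ℝ) * (A ^ 2 * bd δ q 0 ^ 2) ≤ q * (A ^ 2 * Sd δ q ^ 2) := h5
        _ ≤ (q : ℝ) / 3 * (6400 * A ^ 2 * Sd δ q ^ 2) := by linarith) (fun k => by
      have h2 : exp ((q : ℝ) / (6400 * A ^ 2 * Sd δ q ^ 2) * (A * bd δ q (k + 1)) ^ 2) ≤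
          (4 : ℝ) ^ (q * 2 ^ k) := by
        have h3 : (q : ℝ) / (6400 * A ^ 2 * Sd δ q ^ 2) * (A * bd δ q (k + 1)) ^ 2 ≤
            ((q * 2 ^ k : ℕ) : ℝ) := by
          rw [mul_pow, div_mul_eq_mul_div, div_le_iff₀ (by positivity)]
          have h4 := bd_level δ h0 h1 q k hq
          have h5 : (q : ℝ) * (A ^ 2 * bd δ q (k + 1) ^ 2) ≤
              q * (A ^ 2 * (6400 * Sd δ q ^ 2 * 2 ^ k)) := by
            apply mul_le_mul_of_nonneg_left _ (by positivity)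
            exact mul_le_mul_of_nonneg_left h4 (by positivity)
          refine h5.trans (le_of_eq ?_)
          push_cast; ring
        calc _ ≤ exp ((q * 2 ^ k : ℕ) : ℝ) := exp_le_exp.2 h3
          _ = exp 1 ^ (q * 2 ^ k) := by rw [← exp_nat_mul, mul_one]
          _ ≤ 4 ^ (q * 2 ^ k) := by
              refine pow_le_pow_left₀ (exp_pos _).le ?_ _
              have := Real.exp_one_lt_d9
              linarith
      calc _ ≤ (4 : ℝ) ^ (q * 2 ^ k) * (1 / 16) ^ (q * 2 ^ k) :=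
            mul_le_mul_of_nonneg_right h2 (by positivity)
        _ = (1 / 4) ^ (q * 2 ^ k) := by
            rw [← mul_pow]
            norm_num
        _ ≤ 1 * (1 / 4) ^ (k + 1) := by
            rw [one_mul]
            exact pow_small hq k)
  refine h.trans ?_
  set y : ℝ := exp (q / 3) with hy
  have hy1 : 4 / 3 ≤ y := by
    have := Real.add_one_le_exp ((q : ℝ) / 3)
    linarith
  have h3 : exp (q : ℝ) = y ^ 3 := by
    rw [hy, ← exp_nat_mul]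
    congr 1
    push_cast
    ring
  rw [h3]
  nlinarith [mul_nonneg (show (0 : ℝ) ≤ y - 4 / 3 by linarith) (show (0 : ℝ) ≤ y by linarith),
    mul_nonneg (mul_nonneg (show (0 : ℝ) ≤ y - 4 / 3 by linarith) (show (0 : ℝ) ≤ y by linarith)) (show (0 : ℝ) ≤ y by linarith)]

end Pool.Agent.L0h87.Q4
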