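import Pool.Agent.L0h87.Q4.Stm

/-!
# Module SM: independent samples
-/

set_option autoImplicit false
set_option linter.all false

namespace Pool.Agent.L0h87.Q4

open Finset Real

theorem stSM : StSM := by
  intro K m d p X lam Q hp hp1 hlam hX hd
  by_contra hcon
  push Not at hcon
  have hw : ∑ f : Fin m → Fin K, ∏ l, p (f l) = 1 := by
    rw [← Fintype.sum_pow p m, hp1, one_pow]
  have h1 : ∀ i : Fin d, ∑ f : Fin m → Fin K, (∏ l, p (f l)) * exp (lam * ∑ l, X i (f l) ^ 2) ≤
      exp (Q * m) := by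
    intro i
    have h2 : ∀ f : Fin m → Fin K, (∏ l, p (f l)) * exp (lam * ∑ l, X i (f l) ^ 2) =
        ∏ l, (fun r => p r * exp (lam * X i r ^ 2)) (f l) := by
      intro f
      simp only
      rw [Finset.prod_mul_distrib, Finset.mul_sum, Real.exp_sum]
    simp only [h2]
    rw [← Fintype.sum_pow (fun r => p r * exp (lam * X i r ^ 2)) m, mul_comm Q, Real.exp_nat_mul]
    exact pow_le_pow_left₀ (Finset.sum_nonneg fun r _ => mul_nonneg (hp r) (exp_pos _).le) (hX i) m
  have h3 : ∑ f : Fin m → Fin K, (∏ l, p (f l)) * ∑ i, exp (lam * ∑ l, X i (f l) ^ 2) ≤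
      d * exp (Q * m) := by
    calc ∑ f : Fin m → Fin K, (∏ l, p (f l)) * ∑ i, exp (lam * ∑ l, X i (f l) ^ 2)
        = ∑ i : Fin d, ∑ f : Fin m → Fin K, (∏ l, p (f l)) * exp (lam * ∑ l, X i (f l) ^ 2) := by
          rw [Finset.sum_comm]
          exact Finset.sum_congr rfl fun f _ => Finset.mul_sum _ _ _
      _ ≤ ∑ i : Fin d, exp (Q * m) := Finset.sum_le_sum fun i _ => h1 i
      _ = d * exp (Q * m) := by rw [Finset.sum_const, Finset.card_univ, Fintype.card_fin, nsmul_eq_mul]
  have h4 : exp (2 * Q * m) ≤ ∑ f : Fin m → Fin K, (∏ l, p (f l)) *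
      ∑ i, exp (lam * ∑ l, X i (f l) ^ 2) := by
    calc exp (2 * Q * m) = ∑ f : Fin m → Fin K, (∏ l, p (f l)) * exp (2 * Q * m) := by
          rw [← Finset.sum_mul, hw, one_mul]
      _ ≤ _ := by
          refine Finset.sum_le_sum fun f _ => ?_
          refine mul_le_mul_of_nonneg_left ?_ (Finset.prod_nonneg fun l _ => hp _)
          obtain ⟨i, hi⟩ := hcon f
          refine (exp_le_exp.mpr hi.le).trans ?_
          exact Finset.single_le_sum (f := fun i => exp (lam * ∑ l, X i (f l) ^ 2))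
            (fun _ _ => (exp_pos _).le) (Finset.mem_univ i)
  have h5 : exp (2 * Q * m) = exp (Q * m) * exp (Q * m) := by
    rw [← Real.exp_add]
    congr 1
    ring
  have h6 := exp_pos (Q * m)
  nlinarith

end Pool.Agent.L0h87.Q4
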