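import Pool.Agent.L0h87.Q4.Stm

/-!
# Statements of two more modules
-/

set_option autoImplicit false

namespace Pool.Agent.L0h87.Q4

open Finset Real

/-- Thresholds for entries of absolute value at most `δ`. -/
noncomputable def bd (δ : ℝ) (q k : ℕ) : ℝ :=
  min (bk q k) (((k : ℝ) + 1) + δ * (1 + Real.log (1 / δ)) ^ (3 / 2 : ℝ) * bk q k ^ 2)

/-- `S_δ(q)` -/
noncomputable def Sd (δ : ℝ) (q : ℝ) : ℝ :=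
  min (q ^ (1 / 4 : ℝ)) (1 + δ * (1 + Real.log (1 / δ)) ^ (5 / 2 : ℝ) * Real.sqrt q)

/-- EXD: exponential moments. -/
def StEXD : Prop :=
  ∃ C₁ : ℝ, 0 < C₁ ∧ ∀ (K q : ℕ) (p X : Fin K → ℝ) (A δ : ℝ), 1 ≤ q → 0 < A → 0 < δ → δ ≤ 1 →
    (∀ r, 0 ≤ p r) → ∑ r, p r = 1 → (∀ r, 0 ≤ X r) →
    (∀ k : ℕ, ∑ r, (if A * bd δ q k < X r then p r else 0) ≤ (1 / 16) ^ (q * 2 ^ k)) →
    ∑ r, p r * exp (q / (C₁ * A ^ 2 * Sd δ q ^ 2) * X r ^ 2) ≤ exp q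

/-- TL: continuous form of the thresholds. -/
def StTL : Prop :=
  ∃ C₂ : ℝ, 0 < C₂ ∧ ∀ (Λ Y δ : ℝ), 1 ≤ Λ → Λ ≤ Y → 0 < δ → δ ≤ 1 →
    ∃ k : ℕ, (1 / 16 : ℝ) ^ (⌈Λ⌉₊ * 2 ^ k) ≤ exp (-Y) ∧
      bd δ ⌈Λ⌉₊ k ≤ C₂ * min (Y ^ (1 / 4 : ℝ) * (1 + Real.log (Y / Λ)) ^ (1 / 2 : ℝ))
        ((1 + Real.log (Y / Λ)) * (1 + δ * (1 + Real.log (1 / δ)) ^ (3 / 2 : ℝ) * Real.sqrt Y))

end Pool.Agent.L0h87.Q4
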