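import Pool.Agent.L0h87.Q4.Asm
import Pool.Agent.L0h87.Q4.SM
import Pool.Agent.L0h87.Q4.Stm2

/-!
# Vectors in the unit ball
-/

set_option autoImplicit false

namespace Pool.Agent.L0h87.Q4

open Finset Real

/-- comparison of the two forms of the thresholds -/
theorem Bb_le_bd (δ : ℝ) (h0 : 0 < δ) (h1 : δ ≤ 1) (q k : ℕ) :
    δ * Bb (1 / δ ^ 2) q k ≤ 30000000 * bd δ q k := by
  have hl : 0 ≤ Real.log (1 / δ) := Real.log_nonneg (by rw [le_div_iff₀ h0]; linarith)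
  have hb := bk_nonneg q k
  have e1 : Real.log (1 / δ ^ 2) = 2 * Real.log (1 / δ) := by
    rw [one_div, one_div, Real.log_inv, Real.log_inv, Real.log_pow]; push_cast; ring
  have e2 : Real.sqrt (1 / δ ^ 2) = 1 / δ := by
    rw [Real.sqrt_div (by norm_num), Real.sqrt_one, Real.sqrt_sq h0.le]
  have h2 : (1 + 2 * Real.log (1 / δ)) ^ (3 / 2 : ℝ) ≤
      3 * (1 + Real.log (1 / δ)) ^ (3 / 2 : ℝ) := by
    calc (1 + 2 * Real.log (1 / δ)) ^ (3 / 2 : ℝ) ≤ (2 * (1 + Real.log (1 / δ))) ^ (3 / 2 : ℝ) :=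
          Real.rpow_le_rpow (by linarith) (by linarith) (by norm_num)
      _ = 2 ^ (3 / 2 : ℝ) * (1 + Real.log (1 / δ)) ^ (3 / 2 : ℝ) :=
          Real.mul_rpow (by norm_num) (by linarith)
      _ ≤ 3 * (1 + Real.log (1 / δ)) ^ (3 / 2 : ℝ) := by
          apply mul_le_mul_of_nonneg_right _ (by positivity)
          have h3 : (2:ℝ) ^ (3 / 2 : ℝ) = 2 * Real.sqrt 2 := by
            rw [show (3 / 2 : ℝ) = 1 + 1 / 2 by norm_num, Real.rpow_add (by norm_num),
              Real.rpow_one, ← Real.sqrt_eq_rpow]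
          have h4 : Real.sqrt 2 ≤ 3 / 2 := by
            rw [Real.sqrt_le_left (by norm_num)]; norm_num
          linarith
  unfold Bb bd
  rw [e1, e2]
  have h5 : δ * (10000000 * min (1 / δ * bk q k)
      (((k : ℝ) + 1) * (1 / δ) + bk q k ^ 2 * (1 + 2 * Real.log (1 / δ)) ^ (3 / 2 : ℝ))) =
      10000000 * min (bk q k) (((k : ℝ) + 1) +
        δ * (1 + 2 * Real.log (1 / δ)) ^ (3 / 2 : ℝ) * bk q k ^ 2) := by
    rw [mul_left_comm, mul_min_of_nonneg _ _ h0.le]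
    congr 2
    · field_simp
    · field_simp
  rw [h5]
  have h6 : min (bk q k) (((k : ℝ) + 1) +
        δ * (1 + 2 * Real.log (1 / δ)) ^ (3 / 2 : ℝ) * bk q k ^ 2) ≤
      3 * min (bk q k) (((k : ℝ) + 1) + δ * (1 + Real.log (1 / δ)) ^ (3 / 2 : ℝ) * bk q k ^ 2) := by
    rw [mul_min_of_nonneg _ _ (by norm_num)]
    apply min_le_min
    · linarith
    · have h7 : δ * bk q k ^ 2 * (1 + 2 * Real.log (1 / δ)) ^ (3 / 2 : ℝ) ≤
          δ * bk q k ^ 2 * (3 * (1 + Real.log (1 / δ)) ^ (3 / 2 : ℝ)) :=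
        mul_le_mul_of_nonneg_left h2 (by positivity)
      have hk : (0 : ℝ) ≤ (k : ℝ) + 1 := by positivity
      linarith
  linarith

section vectors

variable {d n : ℕ} (v : Fin n → EuclideanSpace ℝ (Fin d)) (δ : ℝ)

theorem scaled_col (h0 : 0 < δ) (hv : ∀ j, ‖v j‖ ≤ 1) (j : Fin n) :
    ∑ k, (v j k / δ) ^ 2 ≤ 1 / δ ^ 2 := by
  have h2 : ‖v j‖ ^ 2 ≤ 1 := by
    have := norm_nonneg (v j)
    have := hv j
    nlinarith
  rw [EuclideanSpace.norm_sq_eq] at h2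
  have e : ∑ k, (v j k / δ) ^ 2 = (∑ k, ‖v j k‖ ^ 2) / δ ^ 2 := by
    rw [Finset.sum_div]
    refine Finset.sum_congr rfl fun k _ => ?_
    rw [Real.norm_eq_abs, sq_abs, div_pow]
  rw [e]
  exact div_le_div_of_nonneg_right h2 (by positivity)

theorem scaled_sum (h0 : 0 < δ) (x x₀ : Fin n → ℝ) (k : Fin d) :
    |(∑ j, (x j - x₀ j) • v j) k| = δ * |∑ j, v j k / δ * (x j - x₀ j)| := by
  have e3 : δ * |∑ j, v j k / δ * (x j - x₀ j)| = |δ * ∑ j, v j k / δ * (x j - x₀ j)| := by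
    rw [abs_mul, abs_of_pos h0]
  rw [e3, Finset.mul_sum]
  congr 1
  simp only [WithLp.ofLp_sum, WithLp.ofLp_smul, Finset.sum_apply, Pi.smul_apply, smul_eq_mul]
  refine Finset.sum_congr rfl fun j _ => ?_
  field_simp

variable {v δ}

/-- Distribution on the signings. -/
theorem kom_dist (h0 : 0 < δ) (h1 : δ ≤ 1) (hv : ∀ j, ‖v j‖ ≤ 1) (hvδ : ∀ j k, |v j k| ≤ δ)
    (x₀ : Fin n → ℝ) (hx₀ : ∀ j, |x₀ j| ≤ 1) (q : ℕ) (hq : 1 ≤ q) :
    ∃ (K : ℕ) (p : Fin K → ℝ) (x : Fin K → Fin n → ℝ),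
      (∀ r, 0 ≤ p r) ∧ ∑ r, p r = 1 ∧ (∀ r j, x r j = 1 ∨ x r j = -1) ∧
      ∀ (i : Fin d) (k : ℕ), ∑ r, (if 30000000 * bd δ q k < |(∑ j, (x r j - x₀ j) • v j) i|
        then p r else 0) ≤ (1 / 16) ^ (q * 2 ^ k) := by
  obtain ⟨K, p, x, hp, hp1, hx, ht⟩ := distribution d n (fun i j => v j i / δ) (1 / δ ^ 2)
    (by rw [le_div_iff₀ (by positivity)]; nlinarith)
    (fun i j => by
      rw [abs_div, abs_of_pos h0, div_le_one h0]
      exact hvδ j i)
    (fun j => scaled_col v δ h0 hv j) x₀ hx₀ q hq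
  refine ⟨K, p, x, hp, hp1, hx, fun i k => le_trans ?_ (ht i k)⟩
  refine Finset.sum_le_sum fun r _ => ?_
  by_cases h : 30000000 * bd δ q k < |(∑ j, (x r j - x₀ j) • v j) i|
  · rw [if_pos h, if_pos]
    rw [scaled_sum v δ h0] at h
    have h2 := Bb_le_bd δ h0 h1 q k
    by_contra hcon
    push Not at hcon
    have h3 := mul_le_mul_of_nonneg_left hcon h0.le
    linarith
  · rw [if_neg h]
    split_ifs
    · exact hp r
    · exact le_rfl

/-- Weights on the coordinates. -/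
theorem kom_weights (h0 : 0 < δ) (h1 : δ ≤ 1) (hv : ∀ j, ‖v j‖ ≤ 1) (hvδ : ∀ j k, |v j k| ≤ δ)
    (x₀ : Fin n → ℝ) (hx₀ : ∀ j, |x₀ j| ≤ 1) (q : ℕ) (hq : 1 ≤ q) (w : Fin d → ℝ)
    (hw : ∀ i, 0 ≤ w i) :
    ∃ x : Fin n → ℝ, (∀ j, x j = 1 ∨ x j = -1) ∧
      ∀ k : ℕ, ∑ i, (if 30000000 * bd δ q k < |(∑ j, (x j - x₀ j) • v j) i|
        then w i else 0) ≤ (1 / 16) ^ (q * 2 ^ k) * ∑ i, w i := by
  obtain ⟨x, hx, ht⟩ := weighted d n (fun i j => v j i / δ) (1 / δ ^ 2)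
    (by rw [le_div_iff₀ (by positivity)]; nlinarith)
    (fun i j => by
      rw [abs_div, abs_of_pos h0, div_le_one h0]
      exact hvδ j i)
    (fun j => scaled_col v δ h0 hv j) x₀ hx₀ q hq w hw
  refine ⟨x, hx, fun k => ?_⟩
  have hW : 0 ≤ ∑ i, w i := Finset.sum_nonneg fun i _ => hw i
  have h8 : 8 * (1 / 16 : ℝ) ^ (2 * q * 2 ^ k) ≤ (1 / 16) ^ (q * 2 ^ k) := by
    have e1 : 2 * q * 2 ^ k = q * 2 ^ k + q * 2 ^ k := by ring
    rw [e1, pow_add]
    have h9 : (1 / 16 : ℝ) ^ (q * 2 ^ k) ≤ 1 / 16 := by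
      calc (1 / 16 : ℝ) ^ (q * 2 ^ k) ≤ (1 / 16) ^ 1 := by
            apply pow_le_pow_of_le_one (by norm_num) (by norm_num)
            exact Nat.mul_pos hq (by positivity)
        _ = 1 / 16 := pow_one _
    have h10 : 0 < (1 / 16 : ℝ) ^ (q * 2 ^ k) := by positivity
    nlinarith
  refine le_trans ?_ ((ht k).trans (mul_le_mul_of_nonneg_right h8 hW))
  refine Finset.sum_le_sum fun i _ => ?_
  by_cases h : 30000000 * bd δ q k < |(∑ j, (x j - x₀ j) • v j) i|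
  · rw [if_pos h, if_pos]
    rw [scaled_sum v δ h0] at h
    have h2 := Bb_le_bd δ h0 h1 q k
    by_contra hcon
    push Not at hcon
    have h3 := mul_le_mul_of_nonneg_left hcon h0.le
    linarith
  · rw [if_neg h]
    split_ifs
    · exact hw i
    · exact le_rfl

/-- Number of coordinates with large absolute sum. -/
theorem card_rel (hv : ∀ j, ‖v j‖ ≤ 1) :
    (Finset.univ.filter (fun i : Fin d => 1 < ∑ j, |v j i|)).card ≤ (min d n) ^ 2 := by
  classical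
  set R := Finset.univ.filter (fun i : Fin d => 1 < ∑ j, |v j i|) with hR
  rcases le_total d n with h | h
  · rw [min_eq_left h]
    have h1 : R.card ≤ d := by
      have := Finset.card_le_univ R
      rwa [Fintype.card_fin] at this
    calc R.card ≤ d := h1
      _ ≤ d ^ 2 := by nlinarith
  · rw [min_eq_right h]
    have h1 : ∀ i ∈ R, (1 : ℝ) ≤ n * ∑ j, v j i ^ 2 := by
      intro i hi
      rw [hR, Finset.mem_filter] at hi
      have h2 : (∑ j, |v j i|) ^ 2 ≤ n * ∑ j, |v j i| ^ 2 := by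
        have h3 := sq_sum_le_card_mul_sum_sq (s := (Finset.univ : Finset (Fin n)))
          (f := fun j => |v j i|)
        rw [Finset.card_univ, Fintype.card_fin] at h3
        exact h3
      simp only [sq_abs] at h2
      nlinarith [hi.2]
    have h2 := Finset.sum_le_sum h1
    rw [Finset.sum_const, nsmul_eq_mul, mul_one, ← Finset.mul_sum] at h2
    have h3 : ∑ i ∈ R, ∑ j, v j i ^ 2 ≤ n := by
      calc ∑ i ∈ R, ∑ j, v j i ^ 2 ≤ ∑ i, ∑ j, v j i ^ 2 :=
            Finset.sum_le_univ_sum_of_nonneg fun i => Finset.sum_nonneg fun j _ => sq_nonneg _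
        _ = ∑ j, ∑ i, v j i ^ 2 := Finset.sum_comm
        _ ≤ ∑ _j : Fin n, (1 : ℝ) := by
            refine Finset.sum_le_sum fun j _ => ?_
            have h4 : ‖v j‖ ^ 2 ≤ 1 := by
              have := norm_nonneg (v j)
              have := hv j
              nlinarith
            rw [EuclideanSpace.norm_sq_eq] at h4
            simpa only [Real.norm_eq_abs, sq_abs] using h4
        _ = n := by simp
    have h4 : (R.card : ℝ) ≤ n ^ 2 := by
      have : (0 : ℝ) ≤ n := Nat.cast_nonneg n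
      nlinarith
    exact_mod_cast h4

end vectors

end Pool.Agent.L0h87.Q4
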