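import Mathlib

/-!
# Statements of the modules (Komlós problem: quartic tails for every coordinate)
-/

set_option autoImplicit false

namespace Pool.Agent.L0h87.Q4

open Finset Real

/-- The base of the time scale. -/
def Mq (q : ℕ) : ℕ := 16 ^ (4 * q)

/-- Beginning of the dyadic interval of length `2 ^ k` which contains `m`. -/
def ds (k m : ℕ) : ℕ := m / 2 ^ k * 2 ^ k

/-- Level of the class `c` at block `m`. -/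
def lv (c m : ℕ) : ℕ := Nat.findGreatest (fun k => c + 2 ^ k ≤ ds k m) m

/-- A phase of the class `c` begins at block `s`. -/
def Beg (c s : ℕ) : Prop := c ≤ s ∧ 2 ^ lv c s ∣ s

instance (c : ℕ) : DecidablePred (Beg c) := fun s => by unfold Beg; infer_instance

/-- Square root of the coupling parameter of level `k`. -/
noncomputable def rh (q k : ℕ) : ℝ :=
  (5760 * 2 ^ k * Real.log (Mq q) * ((k : ℝ) + 1) ^ 2) ^ (1 / 4 : ℝ)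

/-- The bound of level `k`. -/
noncomputable def bk (q k : ℕ) : ℝ :=
  ((q : ℝ) * 2 ^ k) ^ (1 / 4 : ℝ) * ((k : ℝ) + 1) ^ (1 / 2 : ℝ)

/-- DY: the dyadic bookkeeping. -/
def StDY : Prop :=
  (∀ k m, ds k m ≤ m ∧ m < ds k m + 2 ^ k) ∧
  (∀ c m, 1 ≤ lv c m → c + 2 ^ lv c m ≤ ds (lv c m) m) ∧
  (∀ c m, m < c + 2 ^ (lv c m + 2)) ∧
  (∀ c m m', ds (lv c m) m' = ds (lv c m) m → lv c m' = lv c m) ∧
  (∀ c k n, ((range n).filter (fun s => Beg c s ∧ lv c s = k)).card ≤ 4)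

/-- CN: the total cost of a row which is never heavy at a level above `k`. -/
def StCN : Prop :=
  ∀ q : ℕ, 1 ≤ q → ∀ (c n k : ℕ) (D : Finset ℕ), (∀ s ∈ D, Beg c s → lv c s ≤ k) →
    ∑ s ∈ (range n).filter (fun s => Beg c s),
      (if s ∈ D then 520 * rh q (lv c s) else 260 * rh q (lv c s) * (1 / 2) ^ (q * 2 ^ lv c s)) ≤
      1000000 * bk q k

/-- CT: the weight of the rows which are heavy at a level above `k`. -/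
def StCT : Prop :=
  ∀ q : ℕ, 1 ≤ q → ∀ (m E : ℕ) (D : ℕ → Finset (Fin m)),
    (∀ s k, (((D s).filter (fun i : Fin m => lv (E - 1 - Nat.log (Mq q) (i : ℕ)) s = k)).card : ℝ) ≤
      2 * (Mq q : ℝ) ^ E / (Mq q : ℝ) ^ s * 16 ^ (q * 2 ^ k)) →
    ∀ w : Fin m → ℝ, (∀ i, 0 ≤ w i) → Antitone w → ∀ (k : ℕ) (U : Finset (Fin m)),
    (∀ i ∈ U, ∃ s, i ∈ D s ∧ Beg (E - 1 - Nat.log (Mq q) (i : ℕ)) s ∧
      k < lv (E - 1 - Nat.log (Mq q) (i : ℕ)) s) →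
    ∑ i ∈ U, w i ≤ 8 * (1 / 16) ^ (2 * q * 2 ^ k) * ∑ i, w i

/-- MM: from weights to a distribution. -/
def StMM : Prop :=
  ∀ (m n q : ℕ), 1 ≤ q → ∀ (a : Fin m → Fin n → ℝ) (x₀ : Fin n → ℝ) (b : ℕ → ℝ),
    (∀ R : ℝ, ∃ k₀, ∀ k, k₀ ≤ k → R < b k) →
    (∀ w : Fin m → ℝ, (∀ i, 0 ≤ w i) → ∃ x : Fin n → ℝ, (∀ j, x j = 1 ∨ x j = -1) ∧
      ∀ k : ℕ, ∑ i, (if b k < |∑ j, a i j * (x j - x₀ j)| then w i else 0) ≤
        8 * (1 / 16) ^ (2 * q * 2 ^ k) * ∑ i, w i) →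
    ∃ (K : ℕ) (p : Fin K → ℝ) (x : Fin K → Fin n → ℝ),
      (∀ r, 0 ≤ p r) ∧ ∑ r, p r = 1 ∧ (∀ r j, x r j = 1 ∨ x r j = -1) ∧
      ∀ (i : Fin m) (k : ℕ), ∑ r, (if b k < |∑ j, a i j * (x r j - x₀ j)| then p r else 0) ≤
        (1 / 16) ^ (q * 2 ^ k)

/-- EX: moments and exponential moments. -/
def StEX : Prop :=
  ∀ (K q : ℕ) (p X : Fin K → ℝ) (A : ℝ), 1 ≤ q → 0 < A → (∀ r, 0 ≤ p r) → ∑ r, p r = 1 →
    (∀ r, 0 ≤ X r) →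
    (∀ k : ℕ, ∑ r, (if A * bk q k < X r then p r else 0) ≤ (1 / 16) ^ (q * 2 ^ k)) →
    (∀ s : ℝ, 1 ≤ s → s ≤ q → ∑ r, p r * X r ^ s ≤ (2 * A * (q : ℝ) ^ (1 / 4 : ℝ)) ^ s) ∧
    ∑ r, p r * exp (Real.sqrt q / (3 * A ^ 2) * X r ^ 2) ≤ exp q

/-- SM: independent samples. -/
def StSM : Prop :=
  ∀ (K m d : ℕ) (p : Fin K → ℝ) (X : Fin d → Fin K → ℝ) (lam Q : ℝ), (∀ r, 0 ≤ p r) →
    ∑ r, p r = 1 → 0 < lam → (∀ i, ∑ r, p r * exp (lam * X i r ^ 2) ≤ exp Q) →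
    (d : ℝ) < exp (Q * m) →
    ∃ f : Fin m → Fin K, ∀ i, lam * ∑ l, X i (f l) ^ 2 ≤ 2 * Q * m

end Pool.Agent.L0h87.Q4
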