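import Pool.Agent.L0h87.Q4.Proc
import Pool.Agent.L0h87.Q4.Stm
import Pool.Agent.H167R2.KLBlock

/-!
# The system of one block and its potentials
-/

set_option autoImplicit false

namespace Pool.Agent.L0h87.Q4

open Finset Real H167BJ H167BK H167KL

/-- Fixed data. -/
structure Dt (I J : Type) [Fintype I] [Fintype J] where
  a : I → J → ℝ
  t : ℝ
  ht : 1 ≤ t
  a1 : ∀ i j, |a i j| ≤ 1
  col : ∀ j, ∑ i, a i j ^ 2 ≤ t
  q : ℕ
  hq : 1 ≤ q
  E : ℕ
  cl : I → ℕ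
  hcl : ∀ e, (univ.filter (fun i => cl i < e)).card ≤ Mq q ^ e
  x₀ : J → ℝ
  hx₀ : ∀ j, |x₀ j| ≤ 1
  hE : ((H167FK.Sys.alive x₀).card : ℝ) ≤ 20 * (Mq q : ℝ) ^ E
  L : ℕ
  hL : ∀ k ≤ E, ∀ i v, a i v ≠ 0 → θk t (rh q k ^ 2) L < |a i v|
  hL2 : ∀ k ≤ E, q * 2 ^ k ≤ L

section numbers

theorem Mq_ge {q : ℕ} (hq : 1 ≤ q) : 65536 ≤ Mq q := by
  unfold Mq
  calc 65536 = 16 ^ (4 * 1) := by norm_num
    _ ≤ 16 ^ (4 * q) := Nat.pow_le_pow_right (by norm_num) (by omega)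

theorem Mq_geR {q : ℕ} (hq : 1 ≤ q) : (65536 : ℝ) ≤ Mq q := by
  exact_mod_cast Mq_ge hq

theorem log_Mq {q : ℕ} (hq : 1 ≤ q) : 11 ≤ Real.log (Mq q) := by
  have h1 : Real.log 65536 ≤ Real.log (Mq q) := Real.log_le_log (by norm_num) (Mq_geR hq)
  have h2 : Real.log 65536 = 16 * Real.log 2 := by
    rw [show (65536 : ℝ) = 2 ^ (16 : ℕ) by norm_num, Real.log_pow]; norm_num
  have := Real.log_two_gt_d9
  linarith

theorem rh_base_ge {q : ℕ} (hq : 1 ≤ q) (k : ℕ) :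
    (60000 : ℝ) ≤ 5760 * 2 ^ k * Real.log (Mq q) * ((k : ℝ) + 1) ^ 2 := by
  have h1 := log_Mq hq
  have h2 : (1 : ℝ) ≤ 2 ^ k := one_le_pow₀ (by norm_num)
  have h3 : (1 : ℝ) ≤ ((k : ℝ) + 1) ^ 2 := by
    have : (0 : ℝ) ≤ k := Nat.cast_nonneg k
    nlinarith
  calc (60000 : ℝ) ≤ 5760 * 1 * 11 * 1 := by norm_num
    _ ≤ _ := by gcongr

theorem rh_pos {q : ℕ} (hq : 1 ≤ q) (k : ℕ) : 0 < rh q k := by
  have := rh_base_ge hq k
  unfold rh
  positivity

theorem rh_pow {q : ℕ} (hq : 1 ≤ q) (k : ℕ) :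
    rh q k ^ 4 = 5760 * 2 ^ k * Real.log (Mq q) * ((k : ℝ) + 1) ^ 2 := by
  have := rh_base_ge hq k
  unfold rh
  rw [← Real.rpow_natCast, ← Real.rpow_mul (by linarith)]
  norm_num

theorem h_ge {q : ℕ} (hq : 1 ≤ q) (k : ℕ) : 30 ≤ rh q k ^ 2 := by
  have h1 := rh_base_ge hq k
  have h2 := rh_pow hq k
  have h3 : (0 : ℝ) ≤ rh q k ^ 2 := sq_nonneg _
  by_contra hcon
  push Not at hcon
  have h4 : rh q k ^ 4 = (rh q k ^ 2) ^ 2 := by ring
  have h5 : (rh q k ^ 2) ^ 2 < 30 ^ 2 := pow_lt_pow_left₀ hcon h3 (by norm_num)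
  rw [← h4, h2] at h5
  linarith

end numbers

namespace Dt

variable {I J : Type} [Fintype I] [Fintype J] (Q : Dt I J)

/-- The class of a row: it is released at the beginning of this block. -/
def c (i : I) : ℕ := Q.E - 1 - Q.cl i

/-- The level of a row in block `m`. -/
def lvl (m : ℕ) (i : I) : ℕ := lv (Q.c i) m

/-- The coupling parameter of a level. -/
noncomputable def h (k : ℕ) : ℝ := rh Q.q k ^ 2

theorem h_ge (k : ℕ) : 30 ≤ Q.h k := Q4.h_ge Q.hq k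

theorem h_sq (k : ℕ) : Q.h k ^ 2 = 5760 * 2 ^ k * Real.log (Mq Q.q) * ((k : ℝ) + 1) ^ 2 := by
  unfold h
  rw [← rh_pow Q.hq k]; ring

/-- initial mass level of a row -/
noncomputable def l0 (m : ℕ) (D : ℕ → Finset I) (i : I) : ℕ :=
  open Classical in
  if i ∈ D (ds (Q.lvl m i) m) then 0 else Q.q * 2 ^ Q.lvl m i

/-- Properties of base points and heavy rows. -/
structure Ok (m : ℕ) (bs : I → J → ℝ) (D : ℕ → Finset I) : Prop where
  hm : m ≤ Q.E
  hbs : ∀ i j, |bs i j| ≤ 1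
  lt : ∀ i, i ∉ D (ds (Q.lvl m i) m) →
    16 ^ (Q.q * 2 ^ Q.lvl m i) * ∑ v ∈ H167FK.Sys.alive (bs i), Q.a i v ^ 2 ≤ 10 * Q.t

theorem lvl_le (m : ℕ) (i : I) : Q.lvl m i ≤ m := Nat.findGreatest_le _

variable {m : ℕ} {bs : I → J → ℝ} {D : ℕ → Finset I}

open Classical in
/-- The system of block `m`. -/
noncomputable def sys (hok : Q.Ok m bs D) (Jk : ℕ → Finset J) : Sys I J (J × ℕ) where
  a := Q.a
  I0 := Finset.univ.filter (fun i => Q.cl i + m + 1 < Q.E)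
  I1 := Finset.univ.filter (fun i => ¬ (Q.cl i + m + 1 < Q.E))
  t := Q.t
  g0 := 0
  ht := Q.ht
  hg0 := le_rfl
  a1 := Q.a1
  col := Q.col
  x0 := bs
  hx0 := hok.hbs
  θ := fun i => θk Q.t (Q.h (Q.lvl m i))
  D := fun i => dk Q.t (Q.h (Q.lvl m i))
  hθ0 := fun i => θk_pos Q.ht (Q.h_ge _)
  hθa := fun i => θk_anti Q.ht (Q.h_ge _)
  Yl := fun i => yk Q.t (Q.h (Q.lvl m i))
  hYl := fun i => yk_ge
  lam := fun i => lk Q.t (Q.h (Q.lvl m i))
  hlam := fun i => lk_pos Q.ht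
  Rb := fun i => rk Q.t (Q.h (Q.lvl m i))
  hRb := fun i k => by unfold rk; positivity
  g := fun _ k => exp (-Gk k)
  hg := fun i k => le_of_eq (by rw [gap Q.ht])
  hθl := fun i => lam_small Q.ht (Q.h_ge _)
  hD0 := fun i => dk_nonneg Q.ht (Q.h_ge _)
  hθD := fun i => dk_spec Q.ht (Q.h_ge _)
  l0 := Q.l0 m D
  hl0 := fun i _ => by
    unfold l0
    split_ifs with h
    · exact Or.inl rfl
    · exact Or.inr (hok.lt i h)
  L := Q.L
  hl0L := fun i _ => by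
    unfold l0
    split_ifs
    · exact Nat.zero_le _
    · exact Q.hL2 _ ((Q.lvl_le m i).trans hok.hm)
  hL := fun i v hv => Q.hL _ ((Q.lvl_le m i).trans hok.hm) i v hv
  S := (Finset.univ ×ˢ Finset.range (Q.E + 1)).filter (fun τ => τ.1 ∈ Jk τ.2)
  wt := fun τ => (1 / 2) ^ τ.2 * (Mq Q.q : ℝ) ^ (2 * ds τ.2 m)
  hwt := fun τ _ => by
    have := Mq_geR Q.hq
    positivity
  b := fun τ i l => if Q.lvl m i = τ.2 then
    (if |Q.a i τ.1| ≤ θk Q.t (Q.h (Q.lvl m i)) l then Q.a i τ.1 else 0) ^ 2 /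
      θk Q.t (Q.h (Q.lvl m i)) l ^ 2 else 0
  hb0 := by
    intro τ _ i l
    split_ifs <;> positivity
  hb1 := by
    intro τ _ i l
    have h1 := θk_pos Q.ht (Q.h_ge (Q.lvl m i)) l
    split_ifs with h2 h3
    · rw [div_le_one (by positivity), ← sq_abs]
      exact pow_le_pow_left₀ (abs_nonneg _) h3 2
    · rw [div_le_one (by positivity), zero_pow two_ne_zero]; positivity
    · exact zero_le_one
  w := fun i => wk Q.t (Q.h (Q.lvl m i))
  hw := fun i => wk_pos Q.ht (Q.h_ge _)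
  N := 100 * (Mq Q.q : ℝ) ^ (Q.E + m)

variable (hok : Q.Ok m bs D) (Jk : ℕ → Finset J)

theorem b_eq (j : J) (i : I) (l : ℕ) (k : ℕ) (hk : Q.lvl m i = k) :
    (Q.sys hok Jk).b (j, k) i l = (Q.sys hok Jk).sm l i j ^ 2 / (Q.sys hok Jk).θ i l ^ 2 := by
  simp only [sys, Sys.sm, hk, if_true]

theorem b_eq0 (j : J) (i : I) (l : ℕ) (k : ℕ) (hk : Q.lvl m i ≠ k) :
    (Q.sys hok Jk).b (j, k) i l = 0 := by
  simp only [sys, hk, if_false]

theorem ds_le (k m : ℕ) : ds k m ≤ m := Nat.div_mul_le_self m (2 ^ k)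

theorem lt_ds (k m : ℕ) : m < ds k m + 2 ^ k := by
  have h1 := Nat.div_add_mod m (2 ^ k)
  have h2 := Nat.mod_lt m (show 0 < 2 ^ k by positivity)
  unfold ds
  rw [mul_comm] at h1
  omega

theorem exp_sum_le (F : Finset J) (hFJ : ∀ k, F ⊆ Jk k) (y : J → ℝ) (hy : ∀ j, |y j| ≤ 1)
    (hf : (Q.sys hok Jk).f F y ≤ (Q.sys hok Jk).N) (k : ℕ) (hk : k ≤ Q.E) :
    (1 / 2) ^ k * (Mq Q.q : ℝ) ^ (2 * ds k m) * ∑ j ∈ F, exp ((Q.sys hok Jk).Th F (j, k) y) ≤
      100 * (Mq Q.q : ℝ) ^ (Q.E + m) := by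
  classical
  have h0 : ∑ j ∈ F, (Q.sys hok Jk).wt (j, k) * exp ((Q.sys hok Jk).Th F (j, k) y) ≤
      ∑ τ ∈ (Q.sys hok Jk).S, (Q.sys hok Jk).wt τ * exp ((Q.sys hok Jk).Th F τ y) := by
    have e1 : ∑ j ∈ F, (Q.sys hok Jk).wt (j, k) * exp ((Q.sys hok Jk).Th F (j, k) y) =
        ∑ τ ∈ F.map ⟨fun j => (j, k), fun a b h => by simpa using h⟩,
          (Q.sys hok Jk).wt τ * exp ((Q.sys hok Jk).Th F τ y) := by
      rw [Finset.sum_map]; rfl
    rw [e1]
    refine Finset.sum_le_sum_of_subset_of_nonneg ?_ fun τ hτ _ =>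
      mul_nonneg ((Q.sys hok Jk).hwt τ hτ).le (exp_pos _).le
    intro τ hτ
    rw [Finset.mem_map] at hτ
    obtain ⟨j, hj, rfl⟩ := hτ
    show (j, k) ∈ (Finset.univ ×ˢ Finset.range (Q.E + 1)).filter (fun τ => τ.1 ∈ Jk τ.2)
    rw [Finset.mem_filter, Finset.mem_product, Finset.mem_range]
    exact ⟨⟨Finset.mem_univ _, by simpa using Nat.lt_succ_of_le hk⟩, hFJ k hj⟩
  have h3 : 0 ≤ ∑ j, (1 - y j ^ 2) := by
    refine Finset.sum_nonneg fun j _ => ?_
    have := hy j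
    have h3 : y j ^ 2 ≤ 1 := by
      rw [← sq_abs]; nlinarith [abs_nonneg (y j)]
    linarith
  have h4 : (Q.sys hok Jk).N = 100 * (Mq Q.q : ℝ) ^ (Q.E + m) := rfl
  rw [Finset.mul_sum]
  rw [h4] at hf
  unfold Sys.f at hf
  have h5 : ∀ j ∈ F, (Q.sys hok Jk).wt (j, k) * exp ((Q.sys hok Jk).Th F (j, k) y) =
      (1 / 2) ^ k * (Mq Q.q : ℝ) ^ (2 * ds k m) * exp ((Q.sys hok Jk).Th F (j, k) y) :=
    fun j _ => rfl
  rw [Finset.sum_congr rfl h5] at h0
  linarith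

theorem Th_sum_le (F : Finset J) (hFJ : ∀ k, F ⊆ Jk k)
    (hF : 20 * (Mq Q.q : ℝ) ^ Q.E / (Mq Q.q : ℝ) ^ (m + 1) < F.card)
    (y : J → ℝ) (hy : ∀ j, |y j| ≤ 1)
    (hf : (Q.sys hok Jk).f F y ≤ (Q.sys hok Jk).N) (k : ℕ) (hk : k ≤ Q.E) :
    ∑ j ∈ F, (Q.sys hok Jk).Th F (j, k) y ≤ 3 * 2 ^ k * Real.log (Mq Q.q) * F.card := by
  classical
  have hM := Mq_geR Q.hq
  have hM0 : (0 : ℝ) < Mq Q.q := by linarith
  set M : ℝ := (Mq Q.q : ℝ) with hMdef
  set c : ℝ := 3 * 2 ^ k * Real.log M with hc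
  have hexpc : exp c = M ^ (3 * 2 ^ k) := by
    rw [hc, show (3 : ℝ) * 2 ^ k = ((3 * 2 ^ k : ℕ) : ℝ) by push_cast; ring, ← Real.log_pow,
      Real.exp_log (by positivity)]
  have h1 := Q.exp_sum_le hok Jk F hFJ y hy hf k hk
  rw [← hMdef] at h1
  have h3 : ∀ j ∈ F, exp c * (1 + (Q.sys hok Jk).Th F (j, k) y - c)
      ≤ exp ((Q.sys hok Jk).Th F (j, k) y) := by
    intro j _
    have h4 := Real.add_one_le_exp ((Q.sys hok Jk).Th F (j, k) y - c)
    have h5 : exp ((Q.sys hok Jk).Th F (j, k) y) =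
        exp c * exp ((Q.sys hok Jk).Th F (j, k) y - c) := by
      rw [← exp_add]; congr 1; ring
    rw [h5]
    apply mul_le_mul_of_nonneg_left _ (exp_pos _).le
    linarith
  have h4 := Finset.sum_le_sum h3
  rw [← Finset.mul_sum, Finset.sum_sub_distrib, Finset.sum_add_distrib, Finset.sum_const,
    Finset.sum_const, nsmul_eq_mul, nsmul_eq_mul, mul_one] at h4
  -- the numbers
  have hnum : 100 * M ^ (Q.E + m) ≤
      (1 / 2) ^ k * M ^ (2 * ds k m) * (exp c * (20 * M ^ Q.E / M ^ (m + 1))) := by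
    have e1 : (5 : ℝ) * 2 ^ k ≤ M ^ (2 ^ k + 1) := by
      have e2 : (2 : ℝ) ^ k ≤ M ^ (2 ^ k) := by
        calc (2 : ℝ) ^ k ≤ 2 ^ (2 ^ k) :=
              pow_le_pow_right₀ (by norm_num) (Nat.lt_two_pow_self).le
          _ ≤ M ^ (2 ^ k) := pow_le_pow_left₀ (by norm_num) (by linarith) _
      rw [pow_succ, mul_comm]
      exact mul_le_mul e2 (by linarith) (by norm_num) (by positivity)
    have e3 : M ^ (m + (m + 1)) ≤ M ^ (2 * ds k m + (2 * 2 ^ k - 1)) := by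
      apply pow_le_pow_right₀ (by linarith)
      have := lt_ds k m
      have : 1 ≤ 2 ^ k := Nat.one_le_two_pow
      omega
    have e4 : 5 * 2 ^ k * M ^ (m + (m + 1)) ≤ M ^ (2 * ds k m) * M ^ (3 * 2 ^ k) := by
      calc 5 * 2 ^ k * M ^ (m + (m + 1)) ≤ M ^ (2 ^ k + 1) * M ^ (2 * ds k m + (2 * 2 ^ k - 1)) :=
            mul_le_mul e1 e3 (by positivity) (by positivity)
        _ = M ^ (2 * ds k m) * M ^ (3 * 2 ^ k) := by
            rw [← pow_add, ← pow_add]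
            congr 1
            have : 1 ≤ 2 ^ k := Nat.one_le_two_pow
            omega
    rw [hexpc]
    have e5 : (1 / 2 : ℝ) ^ k * M ^ (2 * ds k m) * (M ^ (3 * 2 ^ k) * (20 * M ^ Q.E / M ^ (m + 1)))
        = 20 * M ^ Q.E * (M ^ (2 * ds k m) * M ^ (3 * 2 ^ k)) / (2 ^ k * M ^ (m + 1)) := by
      rw [one_div, inv_pow]
      field_simp
    rw [e5, le_div_iff₀ (by positivity)]
    calc 100 * M ^ (Q.E + m) * (2 ^ k * M ^ (m + 1))
        = 20 * M ^ Q.E * (5 * 2 ^ k * M ^ (m + (m + 1))) := by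
          rw [pow_add, pow_add]; ring
      _ ≤ 20 * M ^ Q.E * (M ^ (2 * ds k m) * M ^ (3 * 2 ^ k)) :=
          mul_le_mul_of_nonneg_left e4 (by positivity)
  have hpos : 0 < (1 / 2 : ℝ) ^ k * M ^ (2 * ds k m) := by positivity
  have h5 : ∑ j ∈ F, exp ((Q.sys hok Jk).Th F (j, k) y) ≤ exp c * F.card := by
    have h6 : (1 / 2 : ℝ) ^ k * M ^ (2 * ds k m) * (exp c * (20 * M ^ Q.E / M ^ (m + 1))) ≤
        (1 / 2 : ℝ) ^ k * M ^ (2 * ds k m) * (exp c * F.card) := by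
      apply mul_le_mul_of_nonneg_left _ hpos.le
      exact mul_le_mul_of_nonneg_left hF.le (exp_pos _).le
    exact le_of_mul_le_mul_left (h1.trans (hnum.trans h6)) hpos
  have h6 : exp c * ((F.card : ℝ) + ∑ j ∈ F, (Q.sys hok Jk).Th F (j, k) y - F.card * c) ≤
      exp c * F.card := h4.trans h5
  have h7 := le_of_mul_le_mul_left h6 (exp_pos _)
  linarith

omit [Fintype I] [Fintype J] in
theorem sum_inv_sq (n : ℕ) : ∑ k ∈ range n, 1 / ((k : ℝ) + 1) ^ 2 ≤ 2 := by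
  have h : ∀ n : ℕ, ∑ k ∈ range (n + 1), 1 / ((k : ℝ) + 1) ^ 2 ≤ 2 - 1 / ((n : ℝ) + 1) := by
    intro n
    induction n with
    | zero => norm_num
    | succ n ih =>
      rw [Finset.sum_range_succ]
      have hn : (0 : ℝ) ≤ n := Nat.cast_nonneg n
      have h1 : 1 / (((n + 1 : ℕ) : ℝ) + 1) ^ 2 ≤ 1 / ((n : ℝ) + 1) - 1 / (((n + 1 : ℕ) : ℝ) + 1) := by
        push_cast
        rw [div_sub_div _ _ (by positivity) (by positivity), div_le_div_iff₀ (by positivity)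
          (by positivity)]
        nlinarith
      linarith
  rcases Nat.eq_zero_or_pos n with h0 | h0
  · subst h0; norm_num
  · obtain ⟨k, rfl⟩ : ∃ k, n = k + 1 := ⟨n - 1, by omega⟩
    refine (h k).trans ?_
    have : (0 : ℝ) ≤ 1 / ((k : ℝ) + 1) := by positivity
    linarith

/-- The normalised load. -/
theorem good_Z (F : Finset J) (hFJ : ∀ k, F ⊆ Jk k)
    (hF : 20 * (Mq Q.q : ℝ) ^ Q.E / (Mq Q.q : ℝ) ^ (m + 1) < F.card)
    (y : J → ℝ) (hy : ∀ j, |y j| ≤ 1)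
    (hf : (Q.sys hok Jk).f F y ≤ (Q.sys hok Jk).N) :
    ∑ i ∈ (Q.sys hok Jk).med F, 1 / Q.h (Q.lvl m i) ^ 2 *
      (ek Q.t ((Q.sys hok Jk).lev F i) /
        (16 * θk Q.t (Q.h (Q.lvl m i)) ((Q.sys hok Jk).lev F i) ^ 2) * (Q.sys hok Jk).W F y i) ≤
      (11 / 10000 : ℝ) * F.card := by
  classical
  set P := Q.sys hok Jk with hP
  have hbn : ∀ (j : J) (k : ℕ) (i : I) (l : ℕ), 0 ≤ P.b (j, k) i l := by
    intro j k i l
    by_cases h : Q.lvl m i = k
    · rw [hP, Q.b_eq hok Jk j i l k h]; positivity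
    · rw [hP, Q.b_eq0 hok Jk j i l k h]
  -- step 1
  have h1 : ∀ i ∈ P.med F, 1 / Q.h (Q.lvl m i) ^ 2 *
      (ek Q.t (P.lev F i) / (16 * θk Q.t (Q.h (Q.lvl m i)) (P.lev F i) ^ 2) * P.W F y i) ≤
      ∑ k ∈ range (Q.E + 1), 1 / Q.h k ^ 2 * ∑ j ∈ F, P.b (j, k) i (P.lev F i) * P.W F y i := by
    intro i hi
    have hW := P.W_pos F y i
    have hk : Q.lvl m i ∈ range (Q.E + 1) := by
      rw [Finset.mem_range]
      have := Q.lvl_le m i
      have := hok.hm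
      omega
    have hh : 0 < Q.h (Q.lvl m i) := by linarith [Q.h_ge (Q.lvl m i)]
    have h2 : 1 / Q.h (Q.lvl m i) ^ 2 *
        ∑ j ∈ F, P.b (j, Q.lvl m i) i (P.lev F i) * P.W F y i ≤
        ∑ k ∈ range (Q.E + 1), 1 / Q.h k ^ 2 * ∑ j ∈ F, P.b (j, k) i (P.lev F i) * P.W F y i :=
      Finset.single_le_sum (f := fun k => 1 / Q.h k ^ 2 *
        ∑ j ∈ F, P.b (j, k) i (P.lev F i) * P.W F y i) (fun k _ => by
          have : 0 ≤ ∑ j ∈ F, P.b (j, k) i (P.lev F i) * P.W F y i :=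
            Finset.sum_nonneg fun j _ => mul_nonneg (hbn _ _ _ _) hW.le
          positivity) hk
    refine le_trans ?_ h2
    apply mul_le_mul_of_nonneg_left _ (by positivity)
    rw [← Finset.sum_mul]
    apply mul_le_mul_of_nonneg_right _ hW.le
    have h4 := P.lt_Es (P.mem_med.mp hi).2.2.2
    have hθ := θk_pos Q.ht (Q.h_ge (Q.lvl m i)) (P.lev F i)
    have h5 : ∑ j ∈ F, P.b (j, Q.lvl m i) i (P.lev F i)
        = P.Es (P.lev F i) F i / θk Q.t (Q.h (Q.lvl m i)) (P.lev F i) ^ 2 := by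
      unfold Sys.Es
      rw [Finset.sum_div]
      exact Finset.sum_congr rfl fun j _ => Q.b_eq hok Jk j i _ _ rfl
    rw [h5]
    have h6 : P.e (P.lev F i + 1) = ek Q.t (P.lev F i) / 16 := by
      rw [← ek_succ]
      rfl
    rw [h6] at h4
    rw [← div_div]
    exact div_le_div_of_nonneg_right h4.le (by positivity)
  refine (Finset.sum_le_sum h1).trans ?_
  -- step 2
  have h2 : ∑ i ∈ P.med F, ∑ k ∈ range (Q.E + 1), 1 / Q.h k ^ 2 *
      ∑ j ∈ F, P.b (j, k) i (P.lev F i) * P.W F y i =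
      ∑ k ∈ range (Q.E + 1), 1 / Q.h k ^ 2 * (∑ j ∈ F, P.Th F (j, k) y) +
      ∑ j ∈ F, ∑ k ∈ range (Q.E + 1), 1 / Q.h k ^ 2 * P.off F (j, k) := by
    have e1 : ∀ j k, ∑ i ∈ P.med F, P.b (j, k) i (P.lev F i) * P.W F y i =
        P.Th F (j, k) y + P.off F (j, k) := by
      intro j k
      rw [P.Th_eq]
      unfold Sys.W
      ring
    rw [Finset.sum_comm]
    have e2 : ∀ k, ∑ i ∈ P.med F, 1 / Q.h k ^ 2 *
        ∑ j ∈ F, P.b (j, k) i (P.lev F i) * P.W F y i =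
        1 / Q.h k ^ 2 * (∑ j ∈ F, P.Th F (j, k) y) + ∑ j ∈ F, 1 / Q.h k ^ 2 * P.off F (j, k) := by
      intro k
      rw [← Finset.mul_sum, Finset.sum_comm, Finset.sum_congr rfl fun j _ => e1 j k,
        Finset.sum_add_distrib, mul_add]
      congr 1
      rw [Finset.mul_sum]
    rw [Finset.sum_congr rfl fun k _ => e2 k, Finset.sum_add_distrib]
    congr 1
    rw [Finset.sum_comm]
  rw [h2]
  -- step 3
  have hFn : (0 : ℝ) ≤ F.card := Nat.cast_nonneg _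
  have h3 : ∑ k ∈ range (Q.E + 1), 1 / Q.h k ^ 2 * (∑ j ∈ F, P.Th F (j, k) y) ≤
      (1 / 960 : ℝ) * F.card := by
    have e1 : ∀ k ∈ range (Q.E + 1), 1 / Q.h k ^ 2 * (∑ j ∈ F, P.Th F (j, k) y) ≤
        F.card / 1920 * (1 / ((k : ℝ) + 1) ^ 2) := by
      intro k hk
      have e2 := Q.Th_sum_le hok Jk F hFJ hF y hy hf k (by rw [Finset.mem_range] at hk; omega)
      have e3 := log_Mq Q.hq
      have e4 : (0 : ℝ) < (k : ℝ) + 1 := by positivity
      rw [Q.h_sq]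
      calc _ ≤ 1 / (5760 * 2 ^ k * Real.log (Mq Q.q) * ((k : ℝ) + 1) ^ 2) *
            (3 * 2 ^ k * Real.log (Mq Q.q) * F.card) := by
            apply mul_le_mul_of_nonneg_left e2
            have : 0 < Real.log (Mq Q.q) := by linarith
            positivity
        _ = _ := by
            have : Real.log (Mq Q.q) ≠ 0 := by linarith
            field_simp
            ring
    refine (Finset.sum_le_sum e1).trans ?_
    rw [← Finset.mul_sum]
    have e5 := sum_inv_sq (Q.E + 1)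
    calc _ ≤ (F.card : ℝ) / 1920 * 2 := mul_le_mul_of_nonneg_left e5 (by positivity)
      _ = _ := by ring
  -- step 4
  have h4 : ∀ j ∈ F, ∑ k ∈ range (Q.E + 1), 1 / Q.h k ^ 2 * P.off F (j, k) ≤ 1 / 100000 := by
    intro j hj
    have e1 : ∀ k ∈ range (Q.E + 1), 1 / Q.h k ^ 2 * P.off F (j, k) ≤
        ∑ i, ∑ l ∈ range P.L, if Q.lvl m i = k then Q.a i j ^ 2 / ek Q.t l * exp (-Gk l) else 0 := by
      intro k hk
      have hτ : (j, k) ∈ P.S := by
        show (j, k) ∈ (Finset.univ ×ˢ Finset.range (Q.E + 1)).filter (fun τ => τ.1 ∈ Jk τ.2)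
        rw [Finset.mem_filter, Finset.mem_product]
        exact ⟨⟨Finset.mem_univ _, hk⟩, hFJ k hj⟩
      have e2 := P.off_le F hτ
      have hh : 0 < Q.h k := by linarith [Q.h_ge k]
      refine (mul_le_mul_of_nonneg_left e2 (by positivity)).trans ?_
      rw [Finset.mul_sum]
      refine Finset.sum_le_sum fun i _ => ?_
      rw [Finset.mul_sum]
      refine Finset.sum_le_sum fun l _ => ?_
      by_cases hik : Q.lvl m i = k
      · rw [if_pos hik, hP, Q.b_eq hok Jk j i l k hik]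
        have e3 : (Q.sys hok Jk).θ i l = θk Q.t (Q.h k) l := by rw [← hik]; rfl
        have e4 : (Q.sys hok Jk).w i l = wk Q.t (Q.h k) l := by rw [← hik]; rfl
        have e5 : (Q.sys hok Jk).g i l = exp (-Gk l) := rfl
        have e6 : (Q.sys hok Jk).sm l i j ^ 2 ≤ Q.a i j ^ 2 := (Q.sys hok Jk).sm_sq_le l i j
        have hθ := θk_pos Q.ht (Q.h_ge k) l
        have he := ek_pos Q.ht l
        rw [e3, e4, e5]
        unfold wk
        have e7 : 1 / Q.h k ^ 2 * ((Q.sys hok Jk).sm l i j ^ 2 / θk Q.t (Q.h k) l ^ 2 *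
            (Q.h k ^ 2 * θk Q.t (Q.h k) l ^ 2 / ek Q.t l * exp (-Gk l))) =
            (Q.sys hok Jk).sm l i j ^ 2 / ek Q.t l * exp (-Gk l) := by
          field_simp
        rw [e7]
        apply mul_le_mul_of_nonneg_right _ (exp_pos _).le
        exact div_le_div_of_nonneg_right e6 he.le
      · rw [if_neg hik, hP, Q.b_eq0 hok Jk j i l k hik]; simp
    refine (Finset.sum_le_sum e1).trans ?_
    rw [Finset.sum_comm]
    have e2 : ∀ i, ∑ k ∈ range (Q.E + 1), ∑ l ∈ range P.L,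
        (if Q.lvl m i = k then Q.a i j ^ 2 / ek Q.t l * exp (-Gk l) else 0) ≤
        ∑ l ∈ range P.L, Q.a i j ^ 2 / ek Q.t l * exp (-Gk l) := by
      intro i
      rw [Finset.sum_comm]
      refine Finset.sum_le_sum fun l _ => ?_
      rw [Finset.sum_ite_eq]
      have he := ek_pos Q.ht l
      split_ifs
      · exact le_rfl
      · positivity
    refine (Finset.sum_le_sum fun i _ => e2 i).trans ?_
    rw [Finset.sum_comm]
    have e3 : ∀ l ∈ range P.L, ∑ i, Q.a i j ^ 2 / ek Q.t l * exp (-Gk l) ≤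
        1 / 100000 * (1 / 2) ^ (l + 1) := by
      intro l _
      have he := ek_pos Q.ht l
      have e4 := gap_sum l
      rw [← Finset.sum_mul, ← Finset.sum_div]
      calc (∑ i, Q.a i j ^ 2) / ek Q.t l * exp (-Gk l) ≤ Q.t / ek Q.t l * exp (-Gk l) := by
            apply mul_le_mul_of_nonneg_right _ (exp_pos _).le
            exact div_le_div_of_nonneg_right (Q.col j) he.le
        _ = 1 / 10 * (16 ^ l * exp (-Gk l)) := by
            have := Q.ht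
            unfold ek
            field_simp
        _ ≤ 1 / 10 * (1 / 10000 * (1 / 2) ^ (l + 1)) :=
            mul_le_mul_of_nonneg_left e4 (by norm_num)
        _ = _ := by ring
    refine (Finset.sum_le_sum e3).trans ?_
    rw [← Finset.mul_sum]
    have h3 : ∀ m : ℕ, ∑ l ∈ range m, (1 / 2 : ℝ) ^ (l + 1) = 1 - (1 / 2) ^ m := by
      intro m
      induction m with
      | zero => simp
      | succ m ih => rw [Finset.sum_range_succ, ih, pow_succ]; ring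
    rw [h3]
    have : (0 : ℝ) ≤ (1 / 2) ^ P.L := by positivity
    linarith
  have h5 := Finset.sum_le_sum h4
  rw [Finset.sum_const, nsmul_eq_mul] at h5
  linarith

end Dt

end Pool.Agent.L0h87.Q4
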