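import Pool.Agent.L0h87.Q4.Fin

/-!
# Signed sums with vector valued signs
-/

set_option autoImplicit false

namespace Pool.Agent.L0h87.Q4

open Finset Real

/-- The bound. -/
noncomputable def SS (δ x : ℝ) : ℝ :=
  min ((1 + x) ^ (1 / 4 : ℝ)) (1 + δ * (1 + Real.log (1 / δ)) ^ (5 / 2 : ℝ) * Real.sqrt x)

theorem SS_ge (δ x : ℝ) (h0 : 0 < δ) (h1 : δ ≤ 1) (hx : 0 ≤ x) : 1 ≤ SS δ x := by
  have hl : 0 ≤ Real.log (1 / δ) := Real.log_nonneg (by rw [le_div_iff₀ h0]; linarith)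
  unfold SS
  apply le_min
  · exact Real.one_le_rpow (by linarith) (by norm_num)
  · have : 0 ≤ δ * (1 + Real.log (1 / δ)) ^ (5 / 2 : ℝ) * Real.sqrt x := by positivity
    linarith

theorem dL_le (δ : ℝ) (h0 : 0 < δ) (h1 : δ ≤ 1) :
    δ * (1 + Real.log (1 / δ)) ^ (5 / 2 : ℝ) ≤ 6 := by
  set y := Real.log (1 / δ) with hy
  have hl : 0 ≤ y := Real.log_nonneg (by rw [le_div_iff₀ h0]; linarith)
  have hδ : δ = exp (-y) := by
    rw [hy, one_div, Real.log_inv, neg_neg, Real.exp_log h0]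
  have h2 : (1 + y) ^ (5 / 2 : ℝ) ≤ (1 + y) ^ (3 : ℝ) :=
    Real.rpow_le_rpow_of_exponent_le (by linarith) (by norm_num)
  have h3 : (1 + y) ^ (3 : ℝ) = (1 + y) ^ 3 := by
    rw [show (3 : ℝ) = ((3 : ℕ) : ℝ) by norm_num, Real.rpow_natCast]
  have h4 : (1 + y) ^ 3 ≤ 6 * exp y := by
    have h5 := Real.sum_le_exp_of_nonneg hl 4
    norm_num [Finset.sum_range_succ, Nat.factorial] at h5
    nlinarith [pow_nonneg hl 2, pow_nonneg hl 3]
  rw [hδ]
  calc exp (-y) * (1 + y) ^ (5 / 2 : ℝ) ≤ exp (-y) * (6 * exp y) := by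
        apply mul_le_mul_of_nonneg_left _ (exp_pos _).le
        rw [h3] at h2
        exact h2.trans h4
    _ = 6 * (exp (-y) * exp y) := by ring
    _ = 6 := by rw [← exp_add]; simp

theorem Sd_le (δ x q : ℝ) (h0 : 0 < δ) (h1 : δ ≤ 1) (hx : 0 ≤ x) (hq0 : 0 ≤ q)
    (hq : q ≤ 2 * x + 1) : Sd δ q ≤ 7 * SS δ x := by
  have hl : 0 ≤ Real.log (1 / δ) := Real.log_nonneg (by rw [le_div_iff₀ h0]; linarith)
  have hdL := dL_le δ h0 h1
  unfold Sd SS
  rw [mul_min_of_nonneg _ _ (by norm_num)]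
  apply min_le_min
  · calc q ^ (1 / 4 : ℝ) ≤ (2 * (1 + x)) ^ (1 / 4 : ℝ) :=
          Real.rpow_le_rpow hq0 (by linarith) (by norm_num)
      _ = 2 ^ (1 / 4 : ℝ) * (1 + x) ^ (1 / 4 : ℝ) := Real.mul_rpow (by norm_num) (by linarith)
      _ ≤ 7 * (1 + x) ^ (1 / 4 : ℝ) := by
          apply mul_le_mul_of_nonneg_right _ (by positivity)
          calc (2 : ℝ) ^ (1 / 4 : ℝ) ≤ 2 ^ (1 : ℝ) :=
                Real.rpow_le_rpow_of_exponent_le (by norm_num) (by norm_num)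
            _ ≤ 7 := by norm_num
  · have h2 : Real.sqrt q ≤ 2 * Real.sqrt x + 1 := by
      rw [Real.sqrt_le_left (by positivity)]
      have h3 := Real.sq_sqrt hx
      have h4 := Real.sqrt_nonneg x
      nlinarith
    set g := δ * (1 + Real.log (1 / δ)) ^ (5 / 2 : ℝ) with hg
    have hg0 : 0 ≤ g := by positivity
    have h3 := mul_le_mul_of_nonneg_left h2 hg0
    have h4 : 0 ≤ g * Real.sqrt x := by positivity
    linarith

theorem kom_interp (hE : StEXD) : ∃ C : ℝ, 0 < C ∧ ∀ (d n : ℕ)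
    (v : Fin n → EuclideanSpace ℝ (Fin d)) (δ : ℝ), 0 < δ → δ ≤ 1 → (∀ j, ‖v j‖ ≤ 1) →
    (∀ j k, |v j k| ≤ δ) → ∀ m : ℕ, 1 ≤ m →
    ∃ f : Fin m → Fin n → ℝ, (∀ l j, f l j = 1 ∨ f l j = -1) ∧
      ∀ i, ∑ l, ((∑ j, f l j • v j) i) ^ 2 ≤
        C * m * SS δ (Real.log (min d n : ℕ) / m) ^ 2 := by
  classical
  obtain ⟨C₁, hC₁, hE⟩ := hE
  set A : ℝ := 30000000 with hA
  refine ⟨1 + 98 * C₁ * A ^ 2, by positivity, ?_⟩
  intro d n v δ h0 h1 hv hvδ m hm
  have hmR : (0 : ℝ) < m := by exact_mod_cast hm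
  set x : ℝ := Real.log (min d n : ℕ) / m with hx
  have hx0 : 0 ≤ x := div_nonneg (Real.log_natCast_nonneg _) hmR.le
  set q : ℕ := ⌊2 * x⌋₊ + 1 with hq
  have hq1 : 1 ≤ q := by omega
  have hqR : 2 * x < q := by
    rw [hq]; push_cast; exact Nat.lt_floor_add_one _
  have hqR2 : (q : ℝ) ≤ 2 * x + 1 := by
    rw [hq]; push_cast
    have := Nat.floor_le (show 0 ≤ 2 * x by linarith)
    linarith
  have hS := SS_ge δ x h0 h1 hx0
  have hSd := Sd_le δ x q h0 h1 hx0 (Nat.cast_nonneg q) hqR2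
  have hl : 0 ≤ Real.log (1 / δ) := Real.log_nonneg (by rw [le_div_iff₀ h0]; linarith)
  have hq1R : (1 : ℝ) ≤ q := by exact_mod_cast hq1
  have hSd0 : 0 < Sd δ q := by
    unfold Sd
    apply lt_min
    · positivity
    · positivity
  obtain ⟨K, p, ε, hp, hp1, hε, ht⟩ := kom_dist h0 h1 hv hvδ (fun _ => 0) (fun _ => by simp) q hq1
  simp only [sub_zero] at ht
  set R := Finset.univ.filter (fun i : Fin d => 1 < ∑ j, |v j i|) with hR
  have hRc := card_rel hv
  rw [← hR] at hRc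
  let e : Fin R.card ≃ R := R.equivFin.symm
  have hlam : 0 < (q : ℝ) / (C₁ * A ^ 2 * Sd δ q ^ 2) := by positivity
  obtain ⟨f, hf⟩ := stSM K m R.card p (fun i r => (∑ j, ε r j • v j) (e i : Fin d))
    ((q : ℝ) / (C₁ * A ^ 2 * Sd δ q ^ 2)) q hp hp1 hlam (fun i => by
      have h2 := hE K q p (fun r => |(∑ j, ε r j • v j) (e i : Fin d)|) A δ hq1 (by positivity)
        h0 h1 hp hp1 (fun r => abs_nonneg _) (fun k => ht _ k)
      simpa only [sq_abs] using h2) (by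
      rcases Nat.eq_zero_or_pos R.card with h | h
      · rw [h]; simp only [Nat.cast_zero]; exact exp_pos _
      · have hmin : 0 < min d n := by
          by_contra hcon
          have : min d n = 0 := by omega
          have h9 : R.card ≤ 0 := hRc.trans (le_of_eq (by rw [this]; rfl))
          omega
        have hminR : (0 : ℝ) < (min d n : ℕ) := by exact_mod_cast hmin
        have h3 : (R.card : ℝ) ≤ ((min d n : ℕ) : ℝ) ^ 2 := by exact_mod_cast hRc
        refine lt_of_le_of_lt h3 ?_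
        have h4 : ((min d n : ℕ) : ℝ) ^ 2 = exp (2 * Real.log (min d n : ℕ)) := by
          rw [two_mul, exp_add, Real.exp_log hminR]; ring
        rw [h4]
        apply exp_lt_exp.mpr
        have h5 : Real.log (min d n : ℕ) = x * m := by
          rw [hx]; field_simp
        rw [h5]
        nlinarith)
  refine ⟨fun l => ε (f l), fun l j => hε _ j, fun i => ?_⟩
  by_cases hi : i ∈ R
  · have h2 := hf (e.symm ⟨i, hi⟩)
    rw [Equiv.apply_symm_apply] at h2
    have h3 : ∑ l, ((∑ j, ε (f l) j • v j) i) ^ 2 ≤ 2 * m * (C₁ * A ^ 2 * Sd δ q ^ 2) := by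
      rw [div_mul_eq_mul_div, div_le_iff₀ (by positivity)] at h2
      have h4 : (q : ℝ) * ∑ l, ((∑ j, ε (f l) j • v j) i) ^ 2 ≤
          q * (2 * m * (C₁ * A ^ 2 * Sd δ q ^ 2)) := by
        refine h2.trans (le_of_eq ?_); ring
      exact le_of_mul_le_mul_left h4 (by linarith)
    refine h3.trans ?_
    have h5 : Sd δ q ^ 2 ≤ 49 * SS δ x ^ 2 := by
      calc Sd δ q ^ 2 ≤ (7 * SS δ x) ^ 2 := pow_le_pow_left₀ hSd0.le hSd 2
        _ = _ := by ring
    have h6 : 2 * m * (C₁ * A ^ 2 * Sd δ q ^ 2) ≤ 2 * m * (C₁ * A ^ 2 * (49 * SS δ x ^ 2)) := by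
      apply mul_le_mul_of_nonneg_left _ (by positivity)
      exact mul_le_mul_of_nonneg_left h5 (by positivity)
    refine h6.trans ?_
    have h7 : 0 ≤ m * SS δ x ^ 2 := by positivity
    nlinarith
  · have h2 : ∀ l : Fin m, ((∑ j, ε (f l) j • v j) i) ^ 2 ≤ 1 := by
      intro l
      rw [hR, Finset.mem_filter] at hi
      push Not at hi
      have h3 := hi (Finset.mem_univ _)
      have h4 : |(∑ j, ε (f l) j • v j) i| ≤ 1 := by
        simp only [WithLp.ofLp_sum, WithLp.ofLp_smul, Finset.sum_apply, Pi.smul_apply,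
          smul_eq_mul]
        refine (Finset.abs_sum_le_sum_abs _ _).trans (le_trans (le_of_eq ?_) h3)
        refine Finset.sum_congr rfl fun j _ => ?_
        rw [abs_mul]
        rcases hε (f l) j with h | h <;> rw [h] <;> simp
      rw [← sq_abs]
      have := abs_nonneg ((∑ j, ε (f l) j • v j) i)
      nlinarith
    refine (Finset.sum_le_sum fun l _ => h2 l).trans ?_
    rw [Finset.sum_const, Finset.card_univ, Fintype.card_fin, nsmul_eq_mul, mul_one]
    have h3 : (1 : ℝ) ≤ SS δ x ^ 2 := by nlinarith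
    have h4 : (0 : ℝ) ≤ 98 * C₁ * A ^ 2 := by positivity
    have h5 : (m : ℝ) * 1 ≤ m * SS δ x ^ 2 := mul_le_mul_of_nonneg_left h3 hmR.le
    nlinarith [mul_nonneg h4 (by positivity : 0 ≤ (m : ℝ) * SS δ x ^ 2)]

end Pool.Agent.L0h87.Q4
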