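import Pool.Agent.L0h87.Q4.Row
import Pool.Agent.L0h87.Q4.DY

/-!
# The sequence of blocks
-/

set_option autoImplicit false

namespace Pool.Agent.L0h87.Q4

open Finset Real H167BJ H167BK H167KL

open H167FK.Sys (alive)

namespace Dt

variable {I J : Type} [Fintype I] [Fintype J] (Q : Dt I J)

/-- heavy rows -/
noncomputable def hvy (m : ℕ) (F : Finset J) : Finset I :=
  open Classical in
  Finset.univ.filter (fun i => 10 * Q.t < 16 ^ (Q.q * 2 ^ Q.lvl m i) * ∑ v ∈ F, Q.a i v ^ 2)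

theorem heavy_card (m : ℕ) (F : Finset J) (T : ℝ) (hF : (F.card : ℝ) ≤ 20 * T) (k : ℕ) :
    (((Q.hvy m F).filter (fun i => lv (Q.c i) m = k)).card : ℝ) ≤ 2 * T * 16 ^ (Q.q * 2 ^ k) := by
  classical
  have ht := Q.ht
  set G := (Q.hvy m F).filter (fun i => lv (Q.c i) m = k) with hG
  have h1 : (G.card : ℝ) * (10 * Q.t / 16 ^ (Q.q * 2 ^ k)) ≤ ∑ i ∈ G, ∑ v ∈ F, Q.a i v ^ 2 := by
    rw [← nsmul_eq_mul]
    apply Finset.card_nsmul_le_sum
    intro i hi
    rw [hG, Finset.mem_filter] at hi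
    obtain ⟨h2, h3⟩ := hi
    unfold hvy at h2
    rw [Finset.mem_filter] at h2
    have h4 : Q.lvl m i = k := h3
    rw [h4] at h2
    rw [div_le_iff₀ (by positivity)]
    have := h2.2
    linarith
  have h2 : ∑ i ∈ G, ∑ v ∈ F, Q.a i v ^ 2 ≤ Q.t * F.card := by
    calc _ ≤ ∑ i, ∑ v ∈ F, Q.a i v ^ 2 :=
          Finset.sum_le_univ_sum_of_nonneg fun i => Finset.sum_nonneg fun j _ => sq_nonneg _
      _ = ∑ v ∈ F, ∑ i, Q.a i v ^ 2 := Finset.sum_comm
      _ ≤ ∑ _v ∈ F, Q.t := Finset.sum_le_sum fun v _ => Q.col v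
      _ = Q.t * F.card := by rw [Finset.sum_const, nsmul_eq_mul]; ring
  have h3 : (G.card : ℝ) * (10 * Q.t / 16 ^ (Q.q * 2 ^ k)) ≤ Q.t * (20 * T) :=
    h1.trans (h2.trans (mul_le_mul_of_nonneg_left hF (by linarith)))
  have h4 : (G.card : ℝ) * (10 * Q.t) ≤ Q.t * (20 * T) * 16 ^ (Q.q * 2 ^ k) := by
    rw [← mul_div_assoc, div_le_iff₀ (by positivity)] at h3
    exact h3
  have h5 : (10 * Q.t) * (G.card : ℝ) ≤ (10 * Q.t) * (2 * T * 16 ^ (Q.q * 2 ^ k)) := by linarith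
  exact le_of_mul_le_mul_left h5 (by linarith)

/-- State at the beginning of block `m`. -/
structure Stt (m : ℕ) (x : J → ℝ) (bs : I → J → ℝ) (D : ℕ → Finset I) (Jk : ℕ → Finset J) :
    Prop where
  ok : Q.Ok m bs D
  inv : (Q.sys ok Jk).Inv x
  sub : ∀ k, alive x ⊆ Jk k
  dz : ∀ s, m < s → D s = ∅
  cnt : ∀ s k, (((D s).filter (fun i => lv (Q.c i) s = k)).card : ℝ) ≤
    2 * (Mq Q.q : ℝ) ^ Q.E / (Mq Q.q : ℝ) ^ s * 16 ^ (Q.q * 2 ^ k)
  acc : ∀ i, |∑ j, Q.a i j * (bs i j - Q.x₀ j)| ≤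
    ∑ s ∈ (range (ds (Q.lvl m i) m)).filter (fun s => Beg (Q.c i) s), Q.cost D i s

variable {m : ℕ} {x : J → ℝ} {bs : I → J → ℝ} {D : ℕ → Finset I} {Jk : ℕ → Finset J}

theorem not_prot (i : I) : ¬ (Q.cl i + m + 1 < Q.E) ↔ Q.c i ≤ m := by
  unfold c
  omega

omit [Fintype I] [Fintype J] in
theorem ds_ds (k m : ℕ) : ds k (ds k m) = ds k m := by
  unfold ds
  rw [Nat.mul_div_cancel _ (by positivity)]

/-- Row sums at the end of a block. -/
theorem acc_end {ok : Q.Ok m bs D}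
    (hacc : ∀ i, |∑ j, Q.a i j * (bs i j - Q.x₀ j)| ≤
      ∑ s ∈ (range (ds (Q.lvl m i) m)).filter (fun s => Beg (Q.c i) s), Q.cost D i s)
    (y : J → ℝ) (hy : (Q.sys ok Jk).Inv y) (i : I) :
    |∑ j, Q.a i j * (y j - Q.x₀ j)| ≤
      ∑ s ∈ (range (m + 1)).filter (fun s => Beg (Q.c i) s), Q.cost D i s := by
  classical
  have h1 : ∑ j, Q.a i j * (y j - Q.x₀ j) =
      ∑ j, Q.a i j * (bs i j - Q.x₀ j) + ∑ j, Q.a i j * (y j - bs i j) := by
    rw [← Finset.sum_add_distrib]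
    exact Finset.sum_congr rfl fun j _ => by ring
  rw [h1]
  refine (abs_add_le _ _).trans ?_
  have hds := ds_le (Q.lvl m i) m
  by_cases hi : Q.cl i + m + 1 < Q.E
  · have h2 : (Q.sys ok Jk).A i y = 0 := hy.zero i (by
      show i ∈ Finset.univ.filter (fun i => Q.cl i + m + 1 < Q.E)
      rw [Finset.mem_filter]; exact ⟨Finset.mem_univ _, hi⟩)
    have h3 : ∑ j, Q.a i j * (y j - bs i j) = 0 := h2
    rw [h3, abs_zero, add_zero]
    refine (hacc i).trans (Finset.sum_le_sum_of_subset_of_nonneg ?_ fun s _ _ =>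
      Q.cost_nonneg D i s)
    intro s hs
    rw [Finset.mem_filter, Finset.mem_range] at hs ⊢
    exact ⟨by omega, hs.2⟩
  · have hc := (Q.not_prot i).mp hi
    have hlv : lv (Q.c i) (ds (Q.lvl m i) m) = Q.lvl m i :=
      stDY.2.2.2.1 (Q.c i) m _ (ds_ds _ _)
    have h2 := Q.row_le ok Jk hy i hi hlv
    have hbeg : Beg (Q.c i) (ds (Q.lvl m i) m) := by
      refine ⟨?_, ?_⟩
      · rcases Nat.eq_zero_or_pos (Q.lvl m i) with h0 | h0
        · rw [h0]
          unfold ds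
          simpa using hc
        · have := stDY.2.1 (Q.c i) m h0
          have h5 : lv (Q.c i) m = Q.lvl m i := rfl
          rw [h5] at this
          exact (Nat.le_add_right _ _).trans this
      · rw [hlv]
        unfold ds
        exact Dvd.intro_left _ rfl
    have h3 : ∑ s ∈ (range (ds (Q.lvl m i) m)).filter (fun s => Beg (Q.c i) s), Q.cost D i s +
        Q.cost D i (ds (Q.lvl m i) m) ≤
        ∑ s ∈ (range (m + 1)).filter (fun s => Beg (Q.c i) s), Q.cost D i s := by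
      have h4 : ds (Q.lvl m i) m ∉
          (range (ds (Q.lvl m i) m)).filter (fun s => Beg (Q.c i) s) := by
        rw [Finset.mem_filter, Finset.mem_range]; omega
      rw [add_comm, ← Finset.sum_insert h4]
      refine Finset.sum_le_sum_of_subset_of_nonneg ?_ fun s _ _ => Q.cost_nonneg D i s
      intro s hs
      rw [Finset.mem_insert, Finset.mem_filter, Finset.mem_range] at hs
      rw [Finset.mem_filter, Finset.mem_range]
      rcases hs with hs | hs
      · rw [hs]; exact ⟨by omega, hbeg⟩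
      · exact ⟨by omega, hs.2⟩
    exact (add_le_add (hacc i) h2).trans h3

/-- Exponents of fresh levels are nonpositive. -/
theorem Th_fresh {m : ℕ} {bs : I → J → ℝ} {D : ℕ → Finset I} (ok : Q.Ok m bs D)
    (Jk : ℕ → Finset J) (y : J → ℝ) (hy : ∀ j, |y j| ≤ 1) (k : ℕ)
    (hfr : ∀ i, Q.lvl m i = k → bs i = y) (j : J) :
    (Q.sys ok Jk).Th (alive y) (j, k) y ≤ 0 := by
  unfold Sys.Th
  refine Finset.sum_nonpos fun i _ => Finset.sum_nonpos fun l _ => ?_
  by_cases hi : Q.lvl m i = k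
  · have h1 : (Q.sys ok Jk).x0 i = y := hfr i hi
    have h2 := (Q.sys ok Jk).th_base (alive y) i l
      (by rw [h1]; exact fun j hj => H167FK.Sys.abs_eq_one hy hj) (by rw [h1])
    rw [h1] at h2
    refine mul_nonpos_of_nonneg_of_nonpos ?_ h2
    rw [Q.b_eq ok Jk j i l k hi]
    positivity
  · rw [Q.b_eq0 ok Jk j i l k hi, zero_mul]

/-- Total weight of fresh levels. -/
theorem fresh_weight (y : J → ℝ) (s : ℕ)
    (hc : ((alive y).card : ℝ) ≤ 20 * (Mq Q.q : ℝ) ^ Q.E / (Mq Q.q : ℝ) ^ s) :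
    ∑ _j ∈ alive y, ∑ k ∈ range (Q.E + 1), (1 / 2 : ℝ) ^ k * (Mq Q.q : ℝ) ^ (2 * s) ≤
      40 * (Mq Q.q : ℝ) ^ (Q.E + s) := by
  have hM := Mq_geR Q.hq
  have hM0 : (0 : ℝ) < Mq Q.q := by linarith
  rw [Finset.sum_const, nsmul_eq_mul, ← Finset.sum_mul]
  have h1 : ∑ k ∈ range (Q.E + 1), (1 / 2 : ℝ) ^ k ≤ 2 := by
    have h2 : ∀ n : ℕ, ∑ k ∈ range n, (1 / 2 : ℝ) ^ k = 2 - 2 * (1 / 2) ^ n := by
      intro n
      induction n with
      | zero => simp
      | succ n ih => rw [Finset.sum_range_succ, ih, pow_succ]; ring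
    rw [h2]
    have : (0 : ℝ) ≤ (1 / 2) ^ (Q.E + 1) := by positivity
    linarith
  calc ((alive y).card : ℝ) * ((∑ k ∈ range (Q.E + 1), (1 / 2 : ℝ) ^ k) *
        (Mq Q.q : ℝ) ^ (2 * s))
      ≤ (20 * (Mq Q.q : ℝ) ^ Q.E / (Mq Q.q : ℝ) ^ s) * (2 * (Mq Q.q : ℝ) ^ (2 * s)) := by
        apply mul_le_mul hc _ (by positivity) (by positivity)
        exact mul_le_mul_of_nonneg_right h1 (by positivity)
    _ = 40 * (Mq Q.q : ℝ) ^ (Q.E + s) := by
        rw [pow_add, show 2 * s = s + s by ring, pow_add (Mq Q.q : ℝ) s s]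
        field_simp
        norm_num

theorem quad_le (y : J → ℝ) (hy : ∀ j, |y j| ≤ 1) :
    ∑ j, (1 - y j ^ 2) ≤ ((alive y).card : ℝ) := by
  classical
  have h3 : ∑ j, (1 - y j ^ 2) = ∑ j ∈ alive y, (1 - y j ^ 2) := by
    symm
    refine Finset.sum_subset (Finset.subset_univ _) fun j _ hj => ?_
    have h4 : y j ^ 2 = 1 := by rw [← sq_abs, H167FK.Sys.abs_eq_one hy hj]; norm_num
    rw [h4]; ring
  rw [h3]
  calc ∑ j ∈ alive y, (1 - y j ^ 2) ≤ ∑ j ∈ alive y, (1 : ℝ) :=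
        Finset.sum_le_sum fun j _ => by linarith [sq_nonneg (y j)]
    _ = _ := by simp

/-- The initial state. -/
theorem init : ∃ (bs : I → J → ℝ) (D : ℕ → Finset I) (Jk : ℕ → Finset J),
    Q.Stt 0 Q.x₀ bs D Jk ∧ ∀ k, ((Jk k).card : ℝ) ≤ 20 * (Mq Q.q : ℝ) ^ Q.E := by
  classical
  have hM := Mq_geR Q.hq
  have hM0 : (0 : ℝ) < Mq Q.q := by linarith
  set D : ℕ → Finset I := fun s => if s = 0 then Q.hvy 0 (alive Q.x₀) else ∅ with hD
  have hlv0 : ∀ i, Q.lvl 0 i = 0 := fun i => Nat.le_zero.mp (Q.lvl_le 0 i)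
  have hds0 : ∀ k, ds k 0 = 0 := fun k => by unfold ds; simp
  have ok : Q.Ok 0 (fun _ => Q.x₀) D := by
    refine ⟨Nat.zero_le _, fun _ => Q.hx₀, fun i hi => ?_⟩
    rw [hds0] at hi
    simp only [hD, if_true] at hi
    unfold hvy at hi
    rw [Finset.mem_filter] at hi
    push Not at hi
    exact hi (Finset.mem_univ _)
  refine ⟨fun _ => Q.x₀, D, fun _ => alive Q.x₀, ⟨ok, ?_, fun _ => Finset.Subset.refl _, ?_, ?_, ?_⟩,
    fun _ => Q.hE⟩
  · refine Sys.inv_of Q.hx₀ (fun i => (Q.sys ok _).fresh_ok Q.hx₀ i rfl) ?_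
    have h1 : ∑ τ ∈ (Q.sys ok (fun _ => alive Q.x₀)).S, (Q.sys ok (fun _ => alive Q.x₀)).wt τ *
        exp ((Q.sys ok (fun _ => alive Q.x₀)).Th (alive Q.x₀) τ Q.x₀) ≤
        40 * (Mq Q.q : ℝ) ^ (Q.E + 0) := by
      refine le_trans ?_ (Q.fresh_weight Q.x₀ 0 (by simpa using Q.hE))
      rw [← Finset.sum_product']
      refine (Finset.sum_le_sum (g := fun τ : J × ℕ => (1 / 2 : ℝ) ^ τ.2 * (Mq Q.q : ℝ) ^ (2 * 0))
        fun τ hτ => ?_).trans (Finset.sum_le_sum_of_subset_of_nonneg ?_ fun τ _ _ => by positivity)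
      · have h2 : (Q.sys ok (fun _ => alive Q.x₀)).wt τ =
            (1 / 2 : ℝ) ^ τ.2 * (Mq Q.q : ℝ) ^ (2 * 0) := by
          show (1 / 2 : ℝ) ^ τ.2 * (Mq Q.q : ℝ) ^ (2 * ds τ.2 0) = _
          rw [hds0]
        rw [h2]
        have h3 := Q.Th_fresh ok (fun _ => alive Q.x₀) Q.x₀ Q.hx₀ τ.2 (fun _ _ => rfl) τ.1
        have h4 : exp ((Q.sys ok (fun _ => alive Q.x₀)).Th (alive Q.x₀) τ Q.x₀) ≤ 1 := by
          rw [Real.exp_le_one_iff]; exact h3
        calc _ ≤ (1 / 2 : ℝ) ^ τ.2 * (Mq Q.q : ℝ) ^ (2 * 0) * 1 :=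
              mul_le_mul_of_nonneg_left h4 (by positivity)
          _ = _ := mul_one _
      · intro τ hτ
        have h2 : τ ∈ (Finset.univ ×ˢ Finset.range (Q.E + 1)).filter
          (fun τ : J × ℕ => τ.1 ∈ alive Q.x₀) := hτ
        rw [Finset.mem_filter, Finset.mem_product] at h2
        rw [Finset.mem_product]
        exact ⟨h2.2, h2.1.2⟩
    have h2 := quad_le Q.x₀ Q.hx₀
    have h3 := Q.hE
    have h4 : (Q.sys ok (fun _ => alive Q.x₀)).N = 100 * (Mq Q.q : ℝ) ^ (Q.E + 0) := rfl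
    rw [h4]
    unfold Sys.f
    rw [add_zero] at h1 ⊢
    have : (0 : ℝ) ≤ (Mq Q.q : ℝ) ^ Q.E := by positivity
    linarith
  · intro s hs
    simp only [hD]
    rw [if_neg (by omega)]
  · intro s k
    simp only [hD]
    by_cases hs : s = 0
    · rw [if_pos hs, hs, pow_zero, div_one]
      exact Q.heavy_card 0 (alive Q.x₀) ((Mq Q.q : ℝ) ^ Q.E) Q.hE k
    · rw [if_neg hs]
      simp only [Finset.filter_empty, Finset.card_empty, Nat.cast_zero]
      positivity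
  · intro i
    rw [hds0]
    simp

/-- The next state. -/
theorem next {m : ℕ} {x : J → ℝ} {bs : I → J → ℝ} {D : ℕ → Finset I} {Jk : ℕ → Finset J}
    (hS : Q.Stt m x bs D Jk) (hm : m + 1 ≤ Q.E) :
    ∃ (y : J → ℝ) (bs' : I → J → ℝ) (D' : ℕ → Finset I) (Jk' : ℕ → Finset J),
      Q.Stt (m + 1) y bs' D' Jk' := by
  classical
  have hM := Mq_geR Q.hq
  have hM0 : (0 : ℝ) < Mq Q.q := by linarith
  obtain ⟨y, hy, hyx, hyc⟩ := Q.block hS.ok Jk x hS.inv hS.sub
  have hybox := hy.box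
  set bs' : I → J → ℝ := fun i => if 2 ^ Q.lvl (m + 1) i ∣ m + 1 then y else bs i with hbs'
  set D' : ℕ → Finset I := fun s => if s = m + 1 then Q.hvy (m + 1) (alive y) else D s with hD'
  set Jk' : ℕ → Finset J := fun k => if 2 ^ k ∣ m + 1 then alive y else Jk k with hJk'
  -- arithmetic
  have hdsr : ∀ k, 2 ^ k ∣ m + 1 → ds k (m + 1) = m + 1 := fun k hk => by
    unfold ds; exact Nat.div_mul_cancel hk
  have hdsc : ∀ k, ¬ 2 ^ k ∣ m + 1 → ds k (m + 1) = ds k m := fun k hk => by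
    unfold ds; rw [Nat.succ_div_of_not_dvd hk]
  have hlvc : ∀ i, ¬ 2 ^ Q.lvl (m + 1) i ∣ m + 1 → Q.lvl m i = Q.lvl (m + 1) i := fun i hi =>
    stDY.2.2.2.1 (Q.c i) (m + 1) m (hdsc _ hi).symm
  have hlvc' : ∀ i, ¬ 2 ^ Q.lvl m i ∣ m + 1 → Q.lvl (m + 1) i = Q.lvl m i := fun i hi =>
    stDY.2.2.2.1 (Q.c i) m (m + 1) (hdsc _ hi)
  have hcc : ∀ i, ¬ 2 ^ Q.lvl (m + 1) i ∣ m + 1 → Q.c i ≤ m := fun i hi => by
    have h1 : 1 ≤ Q.lvl (m + 1) i := by
      by_contra hcon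
      have h2 : Q.lvl (m + 1) i = 0 := by omega
      rw [h2] at hi
      exact hi (by simp)
    have h2 := stDY.2.1 (Q.c i) (m + 1) h1
    have h3 : ds (lv (Q.c i) (m + 1)) (m + 1) = ds (lv (Q.c i) (m + 1)) m := hdsc _ hi
    rw [h3] at h2
    exact (Nat.le_add_right _ _).trans (h2.trans (ds_le _ _))
  have hDlt : ∀ s, s ≤ m → D' s = D s := fun s hs => by
    simp only [hD']
    rw [if_neg (by omega)]
  have hl0c : ∀ i, ¬ 2 ^ Q.lvl (m + 1) i ∣ m + 1 → Q.l0 (m + 1) D' i = Q.l0 m D i := fun i hi => by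
    unfold l0
    rw [hdsc _ hi, ← hlvc i hi, hDlt _ (ds_le _ _)]
  -- the new system
  have ok' : Q.Ok (m + 1) bs' D' := by
    refine ⟨hm, fun i j => ?_, fun i hi => ?_⟩
    · simp only [hbs']
      split_ifs
      · exact hybox j
      · exact hS.ok.hbs i j
    · by_cases hr : 2 ^ Q.lvl (m + 1) i ∣ m + 1
      · rw [hdsr _ hr] at hi
        simp only [hD', if_true] at hi
        unfold hvy at hi
        rw [Finset.mem_filter] at hi
        push Not at hi
        have h2 : bs' i = y := by simp only [hbs']; rw [if_pos hr]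
        rw [h2]
        exact hi (Finset.mem_univ _)
      · rw [hdsc _ hr, hDlt _ (ds_le _ _), ← hlvc i hr] at hi
        have h2 : bs' i = bs i := by simp only [hbs']; rw [if_neg hr]
        rw [h2, ← hlvc i hr]
        exact hS.ok.lt i hi
  have hreq : ∀ i, ¬ 2 ^ Q.lvl (m + 1) i ∣ m + 1 →
      Sys.RowEq (Q.sys hS.ok Jk) (Q.sys ok' Jk') i := fun i hi => by
    have hl := hlvc i hi
    refine ⟨rfl, rfl, rfl, ?_, ?_, ?_, ?_, ?_, ?_, rfl, ?_, hl0c i hi, rfl⟩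
    · show bs' i = bs i
      simp only [hbs']; rw [if_neg hi]
    · show θk Q.t (Q.h (Q.lvl (m + 1) i)) = θk Q.t (Q.h (Q.lvl m i))
      rw [hl]
    · show dk Q.t (Q.h (Q.lvl (m + 1) i)) = dk Q.t (Q.h (Q.lvl m i))
      rw [hl]
    · show yk Q.t (Q.h (Q.lvl (m + 1) i)) = yk Q.t (Q.h (Q.lvl m i))
      rw [hl]
    · show lk Q.t (Q.h (Q.lvl (m + 1) i)) = lk Q.t (Q.h (Q.lvl m i))
      rw [hl]
    · show rk Q.t (Q.h (Q.lvl (m + 1) i)) = rk Q.t (Q.h (Q.lvl m i))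
      rw [hl]
    · show wk Q.t (Q.h (Q.lvl (m + 1) i)) = wk Q.t (Q.h (Q.lvl m i))
      rw [hl]
  have hI1 : ∀ i, ¬ 2 ^ Q.lvl (m + 1) i ∣ m + 1 →
      (i ∈ (Q.sys ok' Jk').I1 ↔ i ∈ (Q.sys hS.ok Jk).I1) := fun i hi => by
    have h1 := hcc i hi
    have h2 : ¬ (Q.cl i + m + 1 < Q.E) := (Q.not_prot i).mpr h1
    have h3 : ¬ (Q.cl i + (m + 1) + 1 < Q.E) := by omega
    show i ∈ Finset.univ.filter (fun i => ¬ (Q.cl i + (m + 1) + 1 < Q.E)) ↔
      i ∈ Finset.univ.filter (fun i => ¬ (Q.cl i + m + 1 < Q.E))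
    simp only [Finset.mem_filter, Finset.mem_univ, true_and, h2, h3]
  have hI0 : ∀ i, ¬ 2 ^ Q.lvl (m + 1) i ∣ m + 1 →
      (i ∈ (Q.sys ok' Jk').I0 → i ∈ (Q.sys hS.ok Jk).I0) := fun i hi => by
    have h1 := hcc i hi
    have h2 : ¬ (Q.cl i + m + 1 < Q.E) := (Q.not_prot i).mpr h1
    have h3 : ¬ (Q.cl i + (m + 1) + 1 < Q.E) := by omega
    show i ∈ Finset.univ.filter (fun i => (Q.cl i + (m + 1) + 1 < Q.E)) →
      i ∈ Finset.univ.filter (fun i => (Q.cl i + m + 1 < Q.E))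
    simp only [Finset.mem_filter, Finset.mem_univ, true_and, h2, h3]
    exact fun h => h
  refine ⟨y, bs', D', Jk', ok', ?_, ?_, ?_, ?_, ?_⟩
  · refine Sys.inv_of hybox (fun i => ?_) ?_
    · by_cases hr : 2 ^ Q.lvl (m + 1) i ∣ m + 1
      · refine (Q.sys ok' Jk').fresh_ok hybox i ?_
        show bs' i = y
        simp only [hbs']; rw [if_pos hr]
      · exact (hreq i hr).rowOk (hI1 i hr) (hI0 i hr) (hy.rowOk i)
    · -- potential
      have hpot := hy.pot
      have hN : (Q.sys hS.ok Jk).N = 100 * (Mq Q.q : ℝ) ^ (Q.E + m) := rfl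
      have hN' : (Q.sys ok' Jk').N = 100 * (Mq Q.q : ℝ) ^ (Q.E + (m + 1)) := rfl
      rw [hN] at hpot
      rw [hN']
      have hS' : (Q.sys ok' Jk').S = (Finset.univ ×ˢ Finset.range (Q.E + 1)).filter
        (fun τ : J × ℕ => τ.1 ∈ Jk' τ.2) := by ext τ; simp [sys]
      have hS0 : (Q.sys hS.ok Jk).S = (Finset.univ ×ˢ Finset.range (Q.E + 1)).filter
        (fun τ : J × ℕ => τ.1 ∈ Jk τ.2) := by ext τ; simp [sys]
      have hwt' : ∀ τ, (Q.sys ok' Jk').wt τ =
        (1 / 2) ^ τ.2 * (Mq Q.q : ℝ) ^ (2 * ds τ.2 (m + 1)) := fun τ => rfl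
      have hwt0 : ∀ τ, (Q.sys hS.ok Jk).wt τ =
        (1 / 2) ^ τ.2 * (Mq Q.q : ℝ) ^ (2 * ds τ.2 m) := fun τ => rfl
      have h1 : ∑ τ ∈ (Q.sys ok' Jk').S.filter (fun τ => 2 ^ τ.2 ∣ m + 1),
          (Q.sys ok' Jk').wt τ * exp ((Q.sys ok' Jk').Th (alive y) τ y) ≤
          40 * (Mq Q.q : ℝ) ^ (Q.E + (m + 1)) := by
        refine le_trans ?_ (Q.fresh_weight y (m + 1) hyc)
        rw [← Finset.sum_product']
        refine (Finset.sum_le_sum (g := fun τ : J × ℕ =>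
          (1 / 2 : ℝ) ^ τ.2 * (Mq Q.q : ℝ) ^ (2 * (m + 1))) fun τ hτ => ?_).trans
          (Finset.sum_le_sum_of_subset_of_nonneg ?_ fun τ _ _ => by positivity)
        · rw [Finset.mem_filter] at hτ
          rw [hwt', hdsr _ hτ.2]
          have h3 := Q.Th_fresh ok' Jk' y hybox τ.2 (fun i hi => by
            simp only [hbs']; rw [hi, if_pos hτ.2]) τ.1
          have h4 : exp ((Q.sys ok' Jk').Th (alive y) τ y) ≤ 1 := by
            rw [Real.exp_le_one_iff]; exact h3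
          calc _ ≤ (1 / 2 : ℝ) ^ τ.2 * (Mq Q.q : ℝ) ^ (2 * (m + 1)) * 1 :=
                mul_le_mul_of_nonneg_left h4 (by positivity)
            _ = _ := mul_one _
        · intro τ hτ
          rw [Finset.mem_filter, hS', Finset.mem_filter, Finset.mem_product] at hτ
          rw [Finset.mem_product]
          obtain ⟨⟨⟨-, h5⟩, h6⟩, h7⟩ := hτ
          simp only [hJk'] at h6
          rw [if_pos h7] at h6
          exact ⟨h6, h5⟩
      have h2 : ∑ τ ∈ (Q.sys ok' Jk').S.filter (fun τ => ¬ 2 ^ τ.2 ∣ m + 1),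
          (Q.sys ok' Jk').wt τ * exp ((Q.sys ok' Jk').Th (alive y) τ y) ≤
          ∑ τ ∈ (Q.sys hS.ok Jk).S, (Q.sys hS.ok Jk).wt τ *
            exp ((Q.sys hS.ok Jk).Th (alive y) τ y) := by
        refine (Finset.sum_le_sum (g := fun τ : J × ℕ => (Q.sys hS.ok Jk).wt τ *
            exp ((Q.sys hS.ok Jk).Th (alive y) τ y)) fun τ hτ => ?_).trans
          (Finset.sum_le_sum_of_subset_of_nonneg ?_ fun τ hτ _ =>
            mul_nonneg ((Q.sys hS.ok Jk).hwt τ hτ).le (exp_pos _).le)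
        · rw [Finset.mem_filter] at hτ
          obtain ⟨-, h7⟩ := hτ
          have e1 : (Q.sys ok' Jk').wt τ = (Q.sys hS.ok Jk).wt τ := by
            rw [hwt', hwt0, hdsc _ h7]
          have e2 : (Q.sys ok' Jk').Th (alive y) τ y = (Q.sys hS.ok Jk).Th (alive y) τ y := by
            unfold Sys.Th
            have hL : (Q.sys ok' Jk').L = (Q.sys hS.ok Jk).L := rfl
            rw [hL]
            refine Finset.sum_congr rfl fun i _ => Finset.sum_congr rfl fun l _ => ?_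
            by_cases hi : Q.lvl (m + 1) i = τ.2
            · have hr : ¬ 2 ^ Q.lvl (m + 1) i ∣ m + 1 := by rw [hi]; exact h7
              have hi' : Q.lvl m i = τ.2 := by rw [hlvc i hr, hi]
              have e3 : (Q.sys ok' Jk').b (τ.1, τ.2) i l = (Q.sys hS.ok Jk).b (τ.1, τ.2) i l := by
                rw [Q.b_eq ok' Jk' τ.1 i l τ.2 hi, Q.b_eq hS.ok Jk τ.1 i l τ.2 hi',
                  (hreq i hr).sm, (hreq i hr).θ]
              have e4 := (hreq i hr).th (alive y) l y (hI1 i hr)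
              rw [e4]
              exact congrArg (fun z => z * _) e3
            · have hi' : Q.lvl m i ≠ τ.2 := by
                intro h8
                apply hi
                rw [hlvc' i (by rw [h8]; exact h7), h8]
              have e3 := Q.b_eq0 ok' Jk' τ.1 i l τ.2 hi
              have e4 := Q.b_eq0 hS.ok Jk τ.1 i l τ.2 hi'
              have e5 : (τ.1, τ.2) = τ := rfl
              rw [e5] at e3 e4
              rw [e3, e4, zero_mul, zero_mul]
          rw [e1, e2]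
        · intro τ hτ
          rw [Finset.mem_filter, hS', Finset.mem_filter] at hτ
          rw [hS0, Finset.mem_filter]
          obtain ⟨⟨h5, h6⟩, h7⟩ := hτ
          simp only [hJk'] at h6
          rw [if_neg h7] at h6
          exact ⟨h5, h6⟩
      have h3 : (Q.sys ok' Jk').f (alive y) y ≤
          40 * (Mq Q.q : ℝ) ^ (Q.E + (m + 1)) + (Q.sys hS.ok Jk).f (alive y) y := by
        unfold Sys.f
        rw [← Finset.sum_filter_add_sum_filter_not (Q.sys ok' Jk').S (fun τ => 2 ^ τ.2 ∣ m + 1)]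
        linarith
      have h4 : (Mq Q.q : ℝ) ^ (Q.E + (m + 1)) = Mq Q.q * (Mq Q.q : ℝ) ^ (Q.E + m) := by
        rw [← add_assoc, pow_succ]; ring
      have h5 : 0 < (Mq Q.q : ℝ) ^ (Q.E + m) := by positivity
      have h6 : 2 * (Mq Q.q : ℝ) ^ (Q.E + m) ≤ Mq Q.q * (Mq Q.q : ℝ) ^ (Q.E + m) :=
        mul_le_mul_of_nonneg_right (by linarith) h5.le
      rw [h4] at h3 ⊢
      linarith
  · intro k
    simp only [hJk']
    split_ifs
    · exact Finset.Subset.refl _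
    · exact hyx.trans (hS.sub k)
  · intro s hs
    simp only [hD']
    rw [if_neg (by omega)]
    exact hS.dz s (by omega)
  · intro s k
    simp only [hD']
    by_cases hs : s = m + 1
    · rw [if_pos hs, hs]
      have h1 := Q.heavy_card (m + 1) (alive y) ((Mq Q.q : ℝ) ^ Q.E / (Mq Q.q : ℝ) ^ (m + 1))
        (by rw [← mul_div_assoc]; exact hyc) k
      rw [← mul_div_assoc] at h1
      exact h1
    · rw [if_neg hs]
      exact hS.cnt s k
  · intro i
    have hcost : ∀ n, n ≤ m + 1 →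
        ∑ s ∈ (range n).filter (fun s => Beg (Q.c i) s), Q.cost D' i s =
        ∑ s ∈ (range n).filter (fun s => Beg (Q.c i) s), Q.cost D i s := by
      intro n hn
      refine Finset.sum_congr rfl fun s hs => ?_
      rw [Finset.mem_filter, Finset.mem_range] at hs
      unfold cost
      rw [hDlt s (by omega)]
    by_cases hr : 2 ^ Q.lvl (m + 1) i ∣ m + 1
    · have h2 : bs' i = y := by simp only [hbs']; rw [if_pos hr]
      rw [h2, hdsr _ hr, hcost _ le_rfl]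
      exact Q.acc_end hS.acc y hy i
    · have h2 : bs' i = bs i := by simp only [hbs']; rw [if_neg hr]
      rw [h2, hdsc _ hr, ← hlvc i hr, hcost _ ((ds_le _ _).trans (Nat.le_succ m))]
      exact hS.acc i

/-- **The process.** -/
theorem process : ∃ (y : J → ℝ) (D : ℕ → Finset I), (∀ j, |y j| = 1) ∧
    (∀ s k, (((D s).filter (fun i => lv (Q.c i) s = k)).card : ℝ) ≤
      2 * (Mq Q.q : ℝ) ^ Q.E / (Mq Q.q : ℝ) ^ s * 16 ^ (Q.q * 2 ^ k)) ∧
    ∀ i, |∑ j, Q.a i j * (y j - Q.x₀ j)| ≤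
      ∑ s ∈ (range (Q.E + 1)).filter (fun s => Beg (Q.c i) s), Q.cost D i s := by
  classical
  have hM := Mq_geR Q.hq
  have hM0 : (0 : ℝ) < Mq Q.q := by linarith
  have h : ∀ m, m ≤ Q.E → ∃ x bs D Jk, Q.Stt m x bs D Jk := by
    intro m
    induction m with
    | zero =>
      intro _
      obtain ⟨bs, D, Jk, h1, -⟩ := Q.init
      exact ⟨_, bs, D, Jk, h1⟩
    | succ m ih =>
      intro hm
      obtain ⟨x, bs, D, Jk, h1⟩ := ih (by omega)
      exact Q.next h1 hm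
  obtain ⟨x, bs, D, Jk, hS⟩ := h Q.E le_rfl
  obtain ⟨y, hy, hyx, hyc⟩ := Q.block hS.ok Jk x hS.inv hS.sub
  refine ⟨y, D, fun j => ?_, hS.cnt, fun i => Q.acc_end hS.acc y hy i⟩
  have h1 : ((alive y).card : ℝ) < 1 := by
    refine lt_of_le_of_lt hyc ?_
    rw [div_lt_one (by positivity), pow_succ]
    have h2 : 0 < (Mq Q.q : ℝ) ^ Q.E := by positivity
    nlinarith
  have h2 : (alive y).card = 0 := by
    have : (alive y).card < 1 := by exact_mod_cast h1
    omega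
  have h3 : j ∉ alive y := by rw [Finset.card_eq_zero.mp h2]; exact Finset.notMem_empty _
  exact H167FK.Sys.abs_eq_one hy.box h3

end Dt

end Pool.Agent.L0h87.Q4
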