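import Pool.Agent.L0h87.Q4.Block

/-!
# Rows which keep their phase
-/

set_option autoImplicit false

namespace Pool.Agent.L0h87.Q4

open Finset Real H167BJ H167BK H167KL

open H167FK.Sys (alive)

namespace Sys

variable {I J T : Type} [Fintype I] [Fintype J]

/-- The invariants of one row. -/
structure RowOk (P : Sys I J T) (y : J → ℝ) (i : I) : Prop where
  froz : alive y ⊆ alive (P.x0 i)
  zero : i ∈ P.I0 → P.A i y = 0
  bigz : i ∈ P.big (alive y) → P.A i y = 0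
  medb : i ∈ P.med (alive y) → P.V (P.lev (alive y) i) (alive y) i y ≤ P.Bd (P.lev (alive y) i) i
  smlb : i ∈ P.I1 → i ∉ P.big (alive y) → i ∉ P.med (alive y) →
    |P.Bq (alive y) i y| + 2 * P.mass (alive y) i ≤ P.Bd P.L i + 4 * P.g0

theorem inv_of {P : Sys I J T} {y : J → ℝ} (hy : ∀ j, |y j| ≤ 1) (h : ∀ i, P.RowOk y i)
    (hpot : P.f (alive y) y ≤ P.N) : P.Inv y :=
  ⟨hy, fun i => (h i).froz, fun i hi => (h i).zero hi, fun i hi => (h i).bigz hi,
    fun i hi => (h i).medb hi, fun i hi h1 h2 => (h i).smlb hi h1 h2, hpot⟩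

theorem Inv.rowOk {P : Sys I J T} {y : J → ℝ} (h : P.Inv y) (i : I) : P.RowOk y i :=
  ⟨h.froz i, fun hi => h.zero i hi, fun hi => h.bigz i hi, fun hi => h.medb i hi,
    fun hi h1 h2 => h.smlb i hi h1 h2⟩

theorem fresh_ok (P : Sys I J T) {y : J → ℝ} (hy : ∀ j, |y j| ≤ 1) (i : I) (h : P.x0 i = y) :
    P.RowOk y i := by
  have hA : P.A i y = 0 := by
    unfold A
    rw [h]; simp
  have hfr : alive y ⊆ alive (P.x0 i) := by rw [h]
  refine ⟨hfr, fun _ => hA, fun _ => hA, fun hi => ?_, fun hi hb hm =>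
    P.sml_of_zero hfr hi hb hm hy hA⟩
  obtain ⟨hi1, hi2, hi3, hi4⟩ := P.mem_med.mp hi
  have h1 := P.reset_zero hy hA (P.En_le_l0 hfr hi1 hi3) _ (P.l0_le_lev hfr hi1 hi3) le_rfl
  have h2 := P.half_nonneg i (P.lev (alive y) i)
  linarith

/-- The row has the same data in two systems. -/
structure RowEq (P P' : Sys I J T) (i : I) : Prop where
  a : P'.a = P.a
  t : P'.t = P.t
  g0 : P'.g0 = P.g0
  x0 : P'.x0 i = P.x0 i
  θ : P'.θ i = P.θ i
  D : P'.D i = P.D i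
  Yl : P'.Yl i = P.Yl i
  lam : P'.lam i = P.lam i
  Rb : P'.Rb i = P.Rb i
  g : P'.g i = P.g i
  w : P'.w i = P.w i
  l0 : P'.l0 i = P.l0 i
  L : P'.L = P.L

variable {P P' : Sys I J T} {i : I} (h : P.RowEq P' i)

include h

theorem RowEq.sm (k : ℕ) (v : J) : P'.sm k i v = P.sm k i v := by
  unfold Sys.sm; rw [h.a, h.θ]

theorem RowEq.mass (F : Finset J) : P'.mass F i = P.mass F i := by
  unfold Sys.mass; rw [h.a]

theorem RowEq.En (F : Finset J) : P'.En F i = P.En F i := by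
  unfold Sys.En; rw [h.a]

theorem RowEq.Es (k : ℕ) (F : Finset J) : P'.Es k F i = P.Es k F i := by
  unfold Sys.Es; simp only [h.sm]

theorem RowEq.dr (k : ℕ) (F : Finset J) : P'.dr k F i = P.dr k F i := by
  unfold Sys.dr; simp only [h.sm, h.a]

theorem RowEq.e (k : ℕ) : P'.e k = P.e k := by
  unfold Sys.e; rw [h.t]

theorem RowEq.Reach (F : Finset J) : P'.Reach F i = P.Reach F i := by
  funext k
  unfold Sys.Reach
  simp only [h.Es, h.e]

theorem RowEq.lev (F : Finset J) : P'.lev F i = P.lev F i := by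
  unfold Sys.lev
  rw [h.L, h.Reach]

theorem RowEq.Tp (k : ℕ) : P'.Tp i k = P.Tp i k := by
  unfold Sys.Tp; rw [h.D, h.Rb]

theorem RowEq.Bd (k : ℕ) : P'.Bd k i = P.Bd k i := by
  unfold Sys.Bd; rw [h.Tp, h.Tp, h.l0]

theorem RowEq.A (y : J → ℝ) : P'.A i y = P.A i y := by
  unfold Sys.A; rw [h.a, h.x0]

theorem RowEq.B (k : ℕ) (F : Finset J) (y : J → ℝ) : P'.B k F i y = P.B k F i y := by
  unfold Sys.B; simp only [h.A, h.a, h.sm, h.x0]

theorem RowEq.V (k : ℕ) (F : Finset J) (y : J → ℝ) : P'.V k F i y = P.V k F i y := by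
  unfold Sys.V; rw [h.B, h.dr]

theorem RowEq.Bq (F : Finset J) (y : J → ℝ) : P'.Bq F i y = P.Bq F i y := by
  unfold Sys.Bq; simp only [h.A, h.a, h.x0]

theorem RowEq.φ (k : ℕ) (F : Finset J) (y : J → ℝ) : P'.φ k F i y = P.φ k F i y := by
  unfold Sys.φ; simp only [h.lam, h.Bd, h.B, h.dr, h.Yl, h.sm]

theorem RowEq.big (F : Finset J) (h1 : i ∈ P'.I1 ↔ i ∈ P.I1) : i ∈ P'.big F ↔ i ∈ P.big F := by
  rw [P'.mem_big, P.mem_big, h1, h.g0, h.mass, h.e, h.En]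

theorem RowEq.med (F : Finset J) (h1 : i ∈ P'.I1 ↔ i ∈ P.I1) : i ∈ P'.med F ↔ i ∈ P.med F := by
  rw [P'.mem_med, P.mem_med, h1, h.g0, h.mass, h.e, h.En, h.lev, h.L]

theorem RowEq.th (F : Finset J) (l : ℕ) (y : J → ℝ) (h1 : i ∈ P'.I1 ↔ i ∈ P.I1) :
    P'.th F i l y = P.th F i l y := by
  classical
  unfold Sys.th Sys.offc
  rw [h.w, h.g, h.φ, h.lev]
  have hm := h.med F h1
  have hb := h.big F h1
  congr 1
  · exact if_congr (by rw [hm]) rfl rfl
  · exact if_congr (by rw [hm, hb]) rfl rfl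

theorem RowEq.rowOk {y : J → ℝ} (h1 : i ∈ P'.I1 ↔ i ∈ P.I1) (h0 : i ∈ P'.I0 → i ∈ P.I0)
    (hok : P.RowOk y i) : P'.RowOk y i := by
  refine ⟨by rw [h.x0]; exact hok.froz, fun hi => by rw [h.A]; exact hok.zero (h0 hi),
    fun hi => by rw [h.A]; exact hok.bigz ((h.big _ h1).mp hi), fun hi => ?_, fun hi hb hm => ?_⟩
  · rw [h.lev, h.V, h.Bd]
    exact hok.medb ((h.med _ h1).mp hi)
  · rw [h.Bq, h.mass, h.Bd, h.L, h.g0]
    exact hok.smlb (h1.mp hi) (fun h' => hb ((h.big _ h1).mpr h'))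
      (fun h' => hm ((h.med _ h1).mpr h'))

end Sys

end Pool.Agent.L0h87.Q4
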