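import Pool.Agent.L0h87.Q4.Stm2
import Pool.Agent.L0h87.Q4.CN

/-!
# Continuous form of the thresholds
-/

set_option autoImplicit false

namespace Pool.Agent.L0h87.Q4

open Finset Real

theorem stTL : StTL := by
  classical
  refine ⟨6, by norm_num, ?_⟩
  intro Λ Y δ hΛ hY h0 h1
  have hl : 0 ≤ Real.log (1 / δ) := Real.log_nonneg (by rw [le_div_iff₀ h0]; linarith)
  set g : ℝ := δ * (1 + Real.log (1 / δ)) ^ (3 / 2 : ℝ) with hg
  have hg0 : 0 ≤ g := by positivity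
  set q : ℕ := ⌈Λ⌉₊ with hq
  have hq1 : Λ ≤ q := Nat.le_ceil Λ
  have hq2 : (q : ℝ) < Λ + 1 := Nat.ceil_lt_add_one (by linarith)
  have hqpos : (1 : ℝ) ≤ q := by linarith
  have hY1 : 1 ≤ Y := hΛ.trans hY
  have hr : 1 ≤ Y / Λ := by rw [le_div_iff₀ (by linarith)]; linarith
  have hlr : 0 ≤ Real.log (Y / Λ) := Real.log_nonneg hr
  have hex : ∃ k : ℕ, Y ≤ (q : ℝ) * 2 ^ k := by
    obtain ⟨k, hk⟩ := pow_unbounded_of_one_lt Y (by norm_num : (1 : ℝ) < 2)
    exact ⟨k, by nlinarith [hk.le, (by positivity : (0:ℝ) < 2 ^ k)]⟩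
  set k := Nat.find hex with hk
  have hks : Y ≤ (q : ℝ) * 2 ^ k := Nat.find_spec hex
  refine ⟨k, ?_, ?_⟩
  · have h16 : (1 / 16 : ℝ) ≤ exp (-1) := by
      rw [exp_neg, one_div]
      apply inv_anti₀ (exp_pos _)
      have := Real.exp_one_lt_d9
      linarith
    calc (1 / 16 : ℝ) ^ (q * 2 ^ k) ≤ (exp (-1)) ^ (q * 2 ^ k) :=
          pow_le_pow_left₀ (by norm_num) h16 _
      _ = exp (-((q : ℝ) * 2 ^ k)) := by
          rw [← exp_nat_mul]; congr 1; push_cast; ring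
      _ ≤ exp (-Y) := exp_le_exp.mpr (by linarith)
  · -- bounds for `q 2^k` and `k`
    have hb1 : (q : ℝ) * 2 ^ k ≤ 2 * Y := by
      rcases Nat.eq_zero_or_pos k with h | h
      · rw [h, pow_zero, mul_one]; linarith
      · have h2 := Nat.find_min hex (m := k - 1) (by omega)
        push Not at h2
        have h3 : (2 : ℝ) ^ k = 2 * 2 ^ (k - 1) := by
          rw [← pow_succ']; congr 1; omega
        rw [h3]; linarith
    have hb2 : (k : ℝ) + 1 ≤ 4 * (1 + Real.log (Y / Λ)) := by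
      rcases Nat.eq_zero_or_pos k with h | h
      · rw [h]; simp only [Nat.cast_zero]; linarith
      · have h2 := Nat.find_min hex (m := k - 1) (by omega)
        push Not at h2
        have h3 : (2 : ℝ) ^ (k - 1) ≤ Y / Λ := by
          rw [le_div_iff₀ (by linarith)]
          have : Λ * (2 : ℝ) ^ (k - 1) ≤ q * 2 ^ (k - 1) :=
            mul_le_mul_of_nonneg_right hq1 (by positivity)
          linarith
        have h4 : Real.log ((2 : ℝ) ^ (k - 1)) ≤ Real.log (Y / Λ) :=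
          Real.log_le_log (by positivity) h3
        rw [Real.log_pow] at h4
        have h5 := Real.log_two_gt_d9
        have h6 : ((k - 1 : ℕ) : ℝ) = k - 1 := by
          rw [Nat.cast_sub h]; simp
        rw [h6] at h4
        have h7 : (1 : ℝ) ≤ k := by exact_mod_cast h
        nlinarith
    have hkpos : (0 : ℝ) ≤ (k : ℝ) + 1 := by positivity
    have hA : ((q : ℝ) * 2 ^ k) ^ (1 / 4 : ℝ) ≤ 2 * Y ^ (1 / 4 : ℝ) := by
      calc ((q : ℝ) * 2 ^ k) ^ (1 / 4 : ℝ) ≤ (2 * Y) ^ (1 / 4 : ℝ) :=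
            Real.rpow_le_rpow (by positivity) hb1 (by norm_num)
        _ = 2 ^ (1 / 4 : ℝ) * Y ^ (1 / 4 : ℝ) := Real.mul_rpow (by norm_num) (by linarith)
        _ ≤ 2 * Y ^ (1 / 4 : ℝ) := by
            apply mul_le_mul_of_nonneg_right _ (by positivity)
            calc (2 : ℝ) ^ (1 / 4 : ℝ) ≤ 2 ^ (1 : ℝ) :=
                  Real.rpow_le_rpow_of_exponent_le (by norm_num) (by norm_num)
              _ = 2 := by norm_num
    have hB : ((k : ℝ) + 1) ^ (1 / 2 : ℝ) ≤ 2 * (1 + Real.log (Y / Λ)) ^ (1 / 2 : ℝ) := by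
      calc ((k : ℝ) + 1) ^ (1 / 2 : ℝ) ≤ (4 * (1 + Real.log (Y / Λ))) ^ (1 / 2 : ℝ) :=
            Real.rpow_le_rpow hkpos hb2 (by norm_num)
        _ = 4 ^ (1 / 2 : ℝ) * (1 + Real.log (Y / Λ)) ^ (1 / 2 : ℝ) :=
            Real.mul_rpow (by norm_num) (by linarith)
        _ = 2 * (1 + Real.log (Y / Λ)) ^ (1 / 2 : ℝ) := by
            congr 1
            rw [show (4 : ℝ) = 2 ^ (2 : ℝ) by norm_num, ← Real.rpow_mul (by norm_num)]
            norm_num
    have hbk : bk q k ≤ 4 * (Y ^ (1 / 4 : ℝ) * (1 + Real.log (Y / Λ)) ^ (1 / 2 : ℝ)) := by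
      unfold bk
      calc _ ≤ (2 * Y ^ (1 / 4 : ℝ)) * (2 * (1 + Real.log (Y / Λ)) ^ (1 / 2 : ℝ)) :=
            mul_le_mul hA hB (by positivity) (by positivity)
        _ = _ := by ring
    have hbk2 : bk q k ^ 2 ≤ (3 / 2 * Real.sqrt Y) * ((k : ℝ) + 1) := by
      have e1 : bk q k ^ 2 = Real.sqrt ((q : ℝ) * 2 ^ k) * ((k : ℝ) + 1) := by
        unfold bk
        have e2 : (((q : ℝ) * 2 ^ k) ^ (1 / 4 : ℝ)) ^ 2 = Real.sqrt ((q : ℝ) * 2 ^ k) := by
          rw [← Real.rpow_natCast (((q : ℝ) * 2 ^ k) ^ (1 / 4 : ℝ)) 2,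
            ← Real.rpow_mul (by positivity), Real.sqrt_eq_rpow]
          norm_num
        have e3 : (((k : ℝ) + 1) ^ (1 / 2 : ℝ)) ^ 2 = (k : ℝ) + 1 := by
          rw [← Real.sqrt_eq_rpow, Real.sq_sqrt hkpos]
        rw [mul_pow, e2, e3]
      rw [e1]
      apply mul_le_mul_of_nonneg_right _ hkpos
      rw [Real.sqrt_le_left (by positivity), mul_pow, Real.sq_sqrt (by linarith)]
      linarith
    unfold bd
    rw [mul_min_of_nonneg _ _ (by norm_num)]
    have hsY : 0 ≤ Real.sqrt Y := Real.sqrt_nonneg Y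
    apply min_le_min
    · refine hbk.trans ?_
      have : 0 ≤ Y ^ (1 / 4 : ℝ) * (1 + Real.log (Y / Λ)) ^ (1 / 2 : ℝ) := by positivity
      linarith
    rw [← hg]
    have e1 : g * bk q k ^ 2 ≤ g * ((3 / 2 * Real.sqrt Y) * ((k : ℝ) + 1)) :=
      mul_le_mul_of_nonneg_left hbk2 hg0
    have e2 : 0 ≤ g * Real.sqrt Y := by positivity
    have e3 : ((k : ℝ) + 1) * (1 + 3 / 2 * (g * Real.sqrt Y)) ≤
        4 * (1 + Real.log (Y / Λ)) * (1 + 3 / 2 * (g * Real.sqrt Y)) :=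
      mul_le_mul_of_nonneg_right hb2 (by positivity)
    have e4 : 0 ≤ (1 + Real.log (Y / Λ)) * (g * Real.sqrt Y) := by positivity
    nlinarith

end Pool.Agent.L0h87.Q4
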